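import Mathlib

set_option autoImplicit false

/-!
# Automatic continuity for Polish groups and the Polish topology of `Sym(ℕ)`
-/

namespace Pool.Agent.X212.PolishUnique

open Set Filter Topology TopologicalSpace

/-- A continuous isomorphism from a group with a Polish topology with continuous right translations
onto a group with a Polish topology with continuous translations has a continuous inverse. -/
theorem symm_continuous {G H : Type*} [Group G] [Group H] [TopologicalSpace G] [PolishSpace G]
    [TopologicalSpace H] [PolishSpace H] (φ : H ≃* G) (hφ : Continuous φ)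
    (hGl : ∀ g : G, Continuous (fun x => g * x)) (hGr : ∀ g : G, Continuous (fun x => x * g))
    (hH : ∀ g : H, Continuous (fun x => x * g)) : Continuous φ.symm := by
  classical
  let : MeasurableSpace G := borel G
  have : BorelSpace G := ⟨rfl⟩
  let : MeasurableSpace H := borel H
  have : BorelSpace H := ⟨rfl⟩
  have hW : ∀ U : Set H, IsOpen U → ∃ W : Set G, IsOpen W ∧ (φ '' U =ᶠ[residual G] W) := by
    intro U hU
    have hm : MeasurableSet (φ '' U) :=
      hU.measurableSet.image_of_continuousOn_injOn hφ.continuousOn φ.injective.injOn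
    obtain ⟨W, hW, hUW⟩ := hm.residualEq_isOpen
    exact ⟨W, hW, hUW⟩
  choose! W hWo hWe using hW
  let C : Set G := {x | ∀ U ∈ countableBasis H, (x ∈ φ '' U ↔ x ∈ W U)}
  have hC : C ∈ residual G := by
    have : ∀ᶠ x in residual G, ∀ U ∈ countableBasis H, (x ∈ φ '' U ↔ x ∈ W U) := by
      rw [eventually_countable_ball (countable_countableBasis H)]
      intro U hU
      have h := hWe U (isOpen_of_mem_countableBasis hU)
      filter_upwards [h] with x hx
      exact iff_of_eq hx
    exact this
  rw [continuous_iff_seqContinuous]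
  intro h g hg
  have hpre : ∀ a : G, {x | a * x ∈ C} ∈ residual G := by
    intro a
    have ho : IsOpenMap (fun x : G => a * x) := by
      intro U hU
      have : (fun x : G => a * x) '' U = (fun x : G => a⁻¹ * x) ⁻¹' U := by
        ext y
        constructor
        · rintro ⟨x, hx, rfl⟩
          simpa using hx
        · intro hy
          exact ⟨a⁻¹ * y, hy, by simp⟩
      rw [this]
      exact hU.preimage (hGl _)
    exact tendsto_residual_of_isOpenMap (hGl a) ho hC
  obtain ⟨x, hx1, hx2⟩ : ∃ x, g * x ∈ C ∧ ∀ k, h k * x ∈ C := by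
    have h1 : {x | g * x ∈ C} ∩ (⋂ k, {x | h k * x ∈ C}) ∈ residual G :=
      inter_mem (hpre g) (countable_iInter_mem.2 fun k => hpre (h k))
    obtain ⟨x, hx⟩ := (dense_of_mem_residual h1).nonempty
    exact ⟨x, hx.1, fun k => mem_iInter.1 hx.2 k⟩
  have hlim : Tendsto (fun k => φ.symm (h k * x)) atTop (𝓝 (φ.symm (g * x))) := by
    rw [(isBasis_countableBasis H).nhds_hasBasis.tendsto_right_iff]
    rintro U ⟨hU, hgU⟩
    have h1 : g * x ∈ φ '' U := ⟨φ.symm (g * x), hgU, φ.apply_symm_apply _⟩
    have h2 : g * x ∈ W U := (hx1 U hU).1 h1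
    have h3 : Tendsto (fun k => h k * x) atTop (𝓝 (g * x)) := ((hGr x).tendsto g).comp hg
    have h4 := h3 ((hWo U (isOpen_of_mem_countableBasis hU)).mem_nhds h2)
    filter_upwards [h4] with k hk
    obtain ⟨y, hy, hyk⟩ := (hx2 k U hU).2 hk
    rw [← hyk, φ.symm_apply_apply]
    exact hy
  have h5 := ((hH (φ.symm x⁻¹)).tendsto _).comp hlim
  have h6 : ∀ a : G, φ.symm (a * x) * φ.symm x⁻¹ = φ.symm a := by
    intro a
    rw [← map_mul]
    simp
  simpa [Function.comp_def, h6] using h5

/-- The topology of pointwise convergence of a permutation and of its inverse. -/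
abbrev permTop : TopologicalSpace (Equiv.Perm ℕ) :=
  TopologicalSpace.induced (fun g => ((g : ℕ → ℕ), (g.symm : ℕ → ℕ))) inferInstance

theorem permTop_polish : @PolishSpace (Equiv.Perm ℕ) permTop := by
  let := permTop
  have hemb : IsClosedEmbedding (fun g : Equiv.Perm ℕ => ((g : ℕ → ℕ), (g.symm : ℕ → ℕ))) := by
    refine ⟨⟨⟨rfl⟩, ?_⟩, ?_⟩
    · intro g h hgh
      have : (g : ℕ → ℕ) = h := congrArg Prod.fst hgh
      exact DFunLike.coe_injective this
    · have : range (fun g : Equiv.Perm ℕ => ((g : ℕ → ℕ), (g.symm : ℕ → ℕ))) =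
          (⋂ n : ℕ, {p : (ℕ → ℕ) × (ℕ → ℕ) | p.1 (p.2 n) = n}) ∩
          (⋂ n : ℕ, {p : (ℕ → ℕ) × (ℕ → ℕ) | p.2 (p.1 n) = n}) := by
        ext ⟨a, b⟩
        simp only [mem_range, Prod.mk.injEq, mem_inter_iff, mem_iInter, mem_ofPred_eq]
        constructor
        · rintro ⟨g, rfl, rfl⟩
          exact ⟨fun n => by simp, fun n => by simp⟩
        · rintro ⟨h1, h2⟩
          exact ⟨⟨a, b, h2, h1⟩, rfl, rfl⟩
      rw [this]
      have key : ∀ n : ℕ, Continuous fun p : (ℕ → ℕ) × (ℕ → ℕ) => p.1 (p.2 n) := by
        intro n
        have h1 : Continuous fun q : (ℕ → ℕ) × ℕ => q.1 q.2 := by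
          rw [continuous_iff_continuousAt]
          rintro ⟨a, m⟩
          have h2 := (continuous_apply (A := fun _ : ℕ => ℕ) m).tendsto a
          rw [nhds_discrete ℕ] at h2
          rw [ContinuousAt, nhds_prod_eq, nhds_discrete ℕ, prod_pure, tendsto_map'_iff]
          exact h2
        exact h1.comp (continuous_fst.prodMk ((continuous_apply n).comp continuous_snd))
      refine IsClosed.inter (isClosed_iInter fun n => ?_) (isClosed_iInter fun n => ?_)
      · exact isClosed_eq (key n) continuous_const
      · exact isClosed_eq ((key n).comp continuous_swap) continuous_const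
  exact hemb.polishSpace

theorem isOpen_eval (n m : ℕ) : IsOpen[permTop] {g : Equiv.Perm ℕ | g n = m} := by
  let := permTop
  have hc : Continuous (fun g : Equiv.Perm ℕ => ((g : ℕ → ℕ), (g.symm : ℕ → ℕ))) :=
    continuous_induced_dom
  have h : Continuous fun g : Equiv.Perm ℕ => g n :=
    (continuous_apply n).comp (continuous_fst.comp hc)
  exact (isOpen_discrete {m}).preimage h

/-- A topology on `Sym(ℕ)` in which all evaluations are continuous is finer than `permTop`. -/
theorem le_permTop (t : TopologicalSpace (Equiv.Perm ℕ))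
    (h : ∀ n m : ℕ, IsOpen[t] {g : Equiv.Perm ℕ | g n = m}) : t ≤ permTop := by
  have hc : @Continuous _ _ t _ (fun g : Equiv.Perm ℕ => ((g : ℕ → ℕ), (g.symm : ℕ → ℕ))) := by
    let := t
    refine Continuous.prodMk (continuous_pi fun n => ?_) (continuous_pi fun n => ?_)
    · rw [continuous_discrete_rng]
      intro m
      exact h n m
    · rw [continuous_discrete_rng]
      intro m
      convert h m n using 1
      ext g
      simp only [mem_preimage, mem_singleton_iff, mem_ofPred_eq]
      rw [Equiv.symm_apply_eq]
      exact eq_comm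
  exact continuous_iff_le_induced.1 hc

/-- Multiplication of permutations is jointly continuous for `permTop`. -/
theorem permTop_mul : @Continuous (Equiv.Perm ℕ × Equiv.Perm ℕ) (Equiv.Perm ℕ)
    (@instTopologicalSpaceProd _ _ permTop permTop) permTop (fun p => p.1 * p.2) := by
  let := permTop
  have hc : Continuous (fun g : Equiv.Perm ℕ => ((g : ℕ → ℕ), (g.symm : ℕ → ℕ))) :=
    continuous_induced_dom
  have hev : ∀ n, Continuous fun g : Equiv.Perm ℕ => g n := fun n =>
    (continuous_apply n).comp (continuous_fst.comp hc)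
  have hev' : ∀ n, Continuous fun g : Equiv.Perm ℕ => g.symm n := fun n =>
    (continuous_apply n).comp (continuous_snd.comp hc)
  have key : ∀ (f : Equiv.Perm ℕ → ℕ → ℕ), (∀ n, Continuous fun g => f g n) →
      Continuous fun q : Equiv.Perm ℕ × ℕ => f q.1 q.2 := by
    intro f hf
    rw [continuous_iff_continuousAt]
    rintro ⟨a, m⟩
    have h2 := (hf m).tendsto a
    rw [nhds_discrete ℕ] at h2
    rw [ContinuousAt, nhds_prod_eq, nhds_discrete ℕ, prod_pure, tendsto_map'_iff]
    exact h2
  refine continuous_induced_rng.2 (Continuous.prodMk (continuous_pi fun n => ?_)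
    (continuous_pi fun n => ?_))
  · exact (key (fun g n => g n) hev).comp (continuous_fst.prodMk ((hev n).comp continuous_snd))
  · exact (key (fun g n => g.symm n) hev').comp
      (continuous_snd.prodMk ((hev' n).comp continuous_fst))

/-- `permTop` is the coarsest topology making evaluations continuous and the only Polish one with
continuous right translations. -/
theorem eq_permTop (t : TopologicalSpace (Equiv.Perm ℕ)) (hp : @PolishSpace _ t)
    (h : ∀ n m : ℕ, IsOpen[t] {g : Equiv.Perm ℕ | g n = m})
    (hr : ∀ a : Equiv.Perm ℕ, @Continuous _ _ t t (fun x => x * a)) : t = permTop := by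
  have hle := le_permTop t h
  refine le_antisymm hle ?_
  have hid : @Continuous _ _ t permTop (MulEquiv.refl (Equiv.Perm ℕ)) := continuous_id_of_le hle
  have hl : ∀ g : Equiv.Perm ℕ, @Continuous _ _ permTop permTop (fun x => g * x) := by
    intro g
    let := permTop
    exact permTop_mul.comp (continuous_const.prodMk continuous_id)
  have hr' : ∀ g : Equiv.Perm ℕ, @Continuous _ _ permTop permTop (fun x => x * g) := by
    intro g
    let := permTop
    exact permTop_mul.comp (continuous_id.prodMk continuous_const)
  have := @symm_continuous _ _ _ _ permTop permTop_polish t hp (MulEquiv.refl (Equiv.Perm ℕ)) hid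
    hl hr' hr
  exact continuous_id_iff_le.1 this

end Pool.Agent.X212.PolishUnique
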