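import Mathlib
import Pool.Agent.X212.PolishUnique

set_option autoImplicit false

/-!
# A semigroup with exactly `k + 1` Polish semigroup topologies
-/

namespace Pool.Agent.X212.PolishSemi

open Set Filter Topology TopologicalSpace
open Pool.Agent.X212.PolishUnique

/-- The semigroup of the following self-maps of `ℕ ⊕ {k points}`: the permutations of `ℕ`, which fix
the `k` points, and all constant maps. -/
inductive Sg (k : ℕ) : Type
  | perm : Equiv.Perm ℕ → Sg k
  | nat : ℕ → Sg k
  | pt : Fin k → Sg k

variable {k : ℕ}

instance : Semigroup (Sg k) where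
  mul s t := match s, t with
    | .perm g, .perm h => .perm (g * h)
    | .perm g, .nat n => .nat (g n)
    | .perm _, .pt i => .pt i
    | .nat n, _ => .nat n
    | .pt i, _ => .pt i
  mul_assoc := by rintro (g | n | i) (h | m | j) (l | r | p) <;> rfl

@[simp] theorem perm_mul_perm (g h : Equiv.Perm ℕ) : (Sg.perm g : Sg k) * Sg.perm h = Sg.perm (g * h) := rfl
@[simp] theorem perm_mul_nat (g : Equiv.Perm ℕ) (n : ℕ) : (Sg.perm g : Sg k) * Sg.nat n = Sg.nat (g n) := rfl
@[simp] theorem perm_mul_pt (g : Equiv.Perm ℕ) (i : Fin k) : (Sg.perm g : Sg k) * Sg.pt i = Sg.pt i := rfl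
@[simp] theorem nat_mul (n : ℕ) (t : Sg k) : (Sg.nat n : Sg k) * t = Sg.nat n := by cases t <;> rfl
@[simp] theorem pt_mul (i : Fin k) (t : Sg k) : (Sg.pt i : Sg k) * t = Sg.pt i := by cases t <;> rfl

/-- The topology on a set `D` in which all points but the one given by `o` are isolated, and the
neighborhoods of the latter are the cofinite sets. -/
abbrev ptTop (D : Type) (o : Option D) : TopologicalSpace D where
  IsOpen U := ∀ j, o = some j → j ∈ U → Uᶜ.Finite
  isOpen_univ := by
    intro j _ _
    simp
  isOpen_inter := by
    intro U V hU hV j hj hjU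
    rw [compl_inter]
    exact (hU j hj hjU.1).union (hV j hj hjU.2)
  isOpen_sUnion := by
    intro S hS j hj hjU
    obtain ⟨U, hU, hjU⟩ := hjU
    exact (hS U hU j hj hjU).subset (compl_subset_compl.2 (subset_sUnion_of_mem hU))

theorem isOpen_ptTop {D : Type} {o : Option D} {U : Set D} :
    IsOpen[ptTop D o] U ↔ ∀ j, o = some j → j ∈ U → Uᶜ.Finite := Iff.rfl

theorem ptTop_polish (D : Type) [Countable D] (o : Option D) : @PolishSpace D (ptTop D o) := by
  classical
  cases o with
  | none =>
    have : ptTop D none = ⊥ := by
      refine eq_bot_of_singletons_open fun x => ?_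
      rw [isOpen_ptTop]
      intro j hj
      cases hj
    rw [this]
    let _ : TopologicalSpace D := ⊥
    have : DiscreteTopology D := ⟨rfl⟩
    infer_instance
  | some j =>
    let f : D → (D → Bool) := fun d e => decide (d = e ∧ d ≠ j)
    have hf : ∀ d e, f d e = true ↔ d = e ∧ d ≠ j := fun d e => by simp [f]
    have hinj : Function.Injective f := by
      intro d d' h
      by_cases h1 : d = j
      · by_cases h2 : d' = j
        · rw [h1, h2]
        · have h3 := (hf d' d').2 ⟨rfl, h2⟩
          rw [← h, hf] at h3
          exact h3.1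
      · have h3 := (hf d d).2 ⟨rfl, h1⟩
        rw [h, hf] at h3
        exact h3.1.symm
    have hind : ptTop D (some j) = TopologicalSpace.induced f inferInstance := by
      apply le_antisymm
      · rw [← continuous_iff_le_induced]
        let _ := ptTop D (some j)
        refine continuous_pi fun e => ?_
        rw [continuous_discrete_rng]
        intro b
        rw [isOpen_ptTop]
        intro j' hj' hjU
        cases hj'
        have hb : b = false := by
          rw [mem_preimage, mem_singleton_iff] at hjU
          rw [← hjU]
          cases h : f j e with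
          | false => rfl
          | true => exact absurd rfl ((hf j e).1 h).2
        subst hb
        refine (finite_singleton e).subset ?_
        intro d hd
        simp only [mem_compl_iff, mem_preimage, mem_singleton_iff, Bool.not_eq_false] at hd
        exact ((hf d e).1 hd).1
      · intro U hU
        rw [isOpen_induced_iff]
        rw [isOpen_ptTop] at hU
        by_cases hj : j ∈ U
        · have hfin := hU j rfl hj
          refine ⟨⋂ d ∈ Uᶜ, {x | x d = false}, ?_, ?_⟩
          · refine hfin.isOpen_biInter fun d _ => ?_
            exact (isOpen_discrete {false}).preimage (continuous_apply (A := fun _ : D => Bool) d)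
          · ext d
            simp only [mem_preimage, mem_iInter, mem_compl_iff]
            constructor
            · intro h
              by_contra hd
              have h1 : f d d = false := h d hd
              have h2 : f d d = true := (hf d d).2 ⟨rfl, fun h3 => hd (h3 ▸ hj)⟩
              rw [h1] at h2
              cases h2
            · intro hd e he
              change f d e = false
              cases h : f d e with
              | false => rfl
              | true =>
                exact absurd hd (((hf d e).1 h).1 ▸ he)
        · refine ⟨⋃ d ∈ U, {x | x d = true}, ?_, ?_⟩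
          · refine isOpen_biUnion fun d _ => ?_
            exact (isOpen_discrete {true}).preimage (continuous_apply (A := fun _ : D => Bool) d)
          · ext d
            simp only [mem_preimage, mem_iUnion]
            constructor
            · rintro ⟨e, he, h⟩
              exact ((hf d e).1 h).1 ▸ he
            · intro hd
              exact ⟨d, hd, (hf d d).2 ⟨rfl, fun h3 => hj (h3 ▸ hd)⟩⟩
    let _ := ptTop D (some j)
    have hcl : IsClosedEmbedding f := by
      refine ⟨⟨⟨hind⟩, hinj⟩, ?_⟩
      have : range f = {x | x j = false} ∩ ⋂ d, ⋂ e, ⋂ (_ : d ≠ e), {x | ¬ (x d = true ∧ x e = true)} := by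
        ext x
        simp only [mem_range, mem_inter_iff, mem_iInter]
        constructor
        · rintro ⟨d, rfl⟩
          refine ⟨?_, fun e e' hne h => ?_⟩
          · change f d j = false
            cases h : f d j with
            | false => rfl
            | true => exact absurd ((hf d j).1 h).1 ((hf d j).1 h).2
          · exact hne (((hf d e).1 h.1).1.symm.trans ((hf d e').1 h.2).1)
        · rintro ⟨h1, h2⟩
          by_cases h3 : ∃ d, x d = true
          · obtain ⟨d, hd⟩ := h3
            refine ⟨d, ?_⟩
            have hdj : d ≠ j := by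
              rintro rfl
              have h4 : x d = false := h1
              rw [hd] at h4
              cases h4
            funext e
            by_cases he : d = e
            · subst he
              rw [hd]
              exact (hf d d).2 ⟨rfl, hdj⟩
            · have h5 : x e = false := by
                cases h : x e with
                | false => rfl
                | true => exact absurd ⟨hd, h⟩ (h2 d e he)
              rw [h5]
              cases h : f d e with
              | false => rfl
              | true => exact absurd ((hf d e).1 h).1 he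
          · refine ⟨j, ?_⟩
            funext e
            have h5 : x e = false := by
              cases h : x e with
              | false => rfl
              | true => exact absurd ⟨e, h⟩ h3
            rw [h5]
            cases h : f j e with
            | false => rfl
            | true => exact absurd rfl ((hf j e).1 h).2
      rw [this]
      refine IsClosed.inter ?_ (isClosed_iInter fun d => isClosed_iInter fun e =>
        isClosed_iInter fun _ => ?_)
      · exact (isClosed_discrete {false}).preimage (continuous_apply (A := fun _ : D => Bool) j)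
      · rw [← isOpen_compl_iff]
        have : {x : D → Bool | ¬ (x d = true ∧ x e = true)}ᶜ =
            (fun x : D → Bool => x d) ⁻¹' {true} ∩ (fun x : D → Bool => x e) ⁻¹' {true} := by
          ext x
          simp
        rw [this]
        exact ((isOpen_discrete {true}).preimage (continuous_apply (A := fun _ : D => Bool) d)).inter
          ((isOpen_discrete {true}).preimage (continuous_apply (A := fun _ : D => Bool) e))
    have : PolishSpace (D → Bool) := {}
    exact hcl.polishSpace

/-- The bijection with the disjoint union. -/
def toSum : Sg k ≃ Equiv.Perm ℕ ⊕ (ℕ ⊕ Fin k) where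
  toFun
    | .perm g => Sum.inl g
    | .nat n => Sum.inr (Sum.inl n)
    | .pt i => Sum.inr (Sum.inr i)
  invFun
    | Sum.inl g => .perm g
    | Sum.inr (Sum.inl n) => .nat n
    | Sum.inr (Sum.inr i) => .pt i
  left_inv := by rintro (g | n | i) <;> rfl
  right_inv := by rintro (g | n | i) <;> rfl

/-- The topologies on `Sg k`. -/
abbrev topo (o : Option (Fin k)) : TopologicalSpace (Sg k) :=
  TopologicalSpace.induced toSum
    (@instTopologicalSpaceSum _ _ permTop (ptTop (ℕ ⊕ Fin k) (o.map Sum.inr)))

theorem topo_polish (o : Option (Fin k)) : @PolishSpace (Sg k) (topo o) := by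
  let _ := permTop
  let _ := ptTop (ℕ ⊕ Fin k) (o.map Sum.inr)
  have := permTop_polish
  have := ptTop_polish (ℕ ⊕ Fin k) (o.map Sum.inr)
  exact Equiv.polishSpace_induced toSum

theorem isOpen_topo {o : Option (Fin k)} {U : Set (Sg k)} :
    IsOpen[topo o] U ↔ IsOpen[permTop] (Sg.perm ⁻¹' U) ∧
      ∀ j, o = some j → Sg.pt j ∈ U → {n | Sg.nat n ∉ U}.Finite := by
  let _ := permTop
  let _ := ptTop (ℕ ⊕ Fin k) (o.map Sum.inr)
  have h1 : IsOpen[topo o] U ↔ IsOpen (toSum '' U) := by
    unfold topo
    rw [isOpen_induced_iff]
    constructor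
    · rintro ⟨V, hV, rfl⟩
      rwa [toSum.image_preimage]
    · intro h
      exact ⟨_, h, toSum.preimage_image U⟩
  rw [h1, isOpen_sum_iff]
  have h2 : (Sum.inl ⁻¹' (toSum '' U) : Set (Equiv.Perm ℕ)) = Sg.perm ⁻¹' U := by
    ext g
    simp only [mem_preimage, mem_image_equiv]
    rfl
  have h3 : (Sum.inr ⁻¹' (toSum '' U) : Set (ℕ ⊕ Fin k)) = {x | toSum.symm (Sum.inr x) ∈ U} := by
    ext x
    simp only [mem_preimage, mem_image_equiv]
    rfl
  rw [h2, h3]
  refine and_congr_right fun _ => ?_
  change (∀ j, o.map Sum.inr = some j → _ → _) ↔ _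
  constructor
  · intro h j hj hjU
    have h4 := h (Sum.inr j) (by rw [hj]; rfl) hjU
    have h5 : {n | Sg.nat n ∉ U} = Sum.inl ⁻¹' ({x | toSum.symm (Sum.inr x) ∈ U}ᶜ : Set (ℕ ⊕ Fin k)) := by
      ext n
      rfl
    rw [h5]
    exact h4.preimage Sum.inl_injective.injOn
  · intro h j hj hjU
    cases o with
    | none => cases hj
    | some i =>
      have hj' : Sum.inr i = j := by simpa using hj
      subst hj'
      have h4 := h i rfl hjU
      refine ((h4.image Sum.inl).union (finite_range (Sum.inr : Fin k → ℕ ⊕ Fin k))).subset ?_
      rintro (n | l) hx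
      · exact Or.inl ⟨n, hx, rfl⟩
      · exact Or.inr ⟨l, rfl⟩

theorem topo_mul (o : Option (Fin k)) :
    @Continuous (Sg k × Sg k) (Sg k) (@instTopologicalSpaceProd _ _ (topo o) (topo o)) (topo o)
      (fun p => p.1 * p.2) := by
  classical
  let tp := permTop
  let ts := topo o
  have hperm : ∀ A : Set (Equiv.Perm ℕ), IsOpen A → IsOpen (Sg.perm '' A : Set (Sg k)) := by
    intro A hA
    refine isOpen_topo.2 ⟨?_, ?_⟩
    · rwa [preimage_image_eq _ (fun g h hgh => by injection hgh)]
    · rintro j _ ⟨g, _, hg⟩
      cases hg
  have hnat : ∀ n : ℕ, IsOpen ({Sg.nat n} : Set (Sg k)) := by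
    intro n
    refine isOpen_topo.2 ⟨?_, ?_⟩
    · convert isOpen_empty
      ext g
      simp
    · intro j _ h
      cases h
  have hint : ∀ U : Set (Sg k), IsOpen U → IsOpen (U \ range Sg.perm) := by
    intro U hU
    obtain ⟨h1, h2⟩ := isOpen_topo.1 hU
    refine isOpen_topo.2 ⟨?_, ?_⟩
    · convert isOpen_empty
      ext g
      simp
    · intro j hj h
      refine (h2 j hj h.1).subset ?_
      intro n hn hn'
      exact hn ⟨hn', by rintro ⟨g, hg⟩; cases hg⟩
  refine continuous_def.2 fun U hU => ?_
  rw [isOpen_prod_iff]
  obtain ⟨hU1, hU2⟩ := isOpen_topo.1 hU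
  intro a b hab
  rcases a with g | n | i
  · rcases b with h | m | i
    · have h1 := hU1.preimage permTop_mul
      rw [isOpen_prod_iff] at h1
      obtain ⟨A, B, hA, hB, hgA, hhB, hAB⟩ := h1 g h hab
      refine ⟨Sg.perm '' A, Sg.perm '' B, hperm A hA, hperm B hB, ⟨g, hgA, rfl⟩, ⟨h, hhB, rfl⟩, ?_⟩
      rintro ⟨_, _⟩ ⟨⟨g', hg', rfl⟩, ⟨h', hh', rfl⟩⟩
      exact hAB (show (g', h') ∈ A ×ˢ B from ⟨hg', hh'⟩)
    · refine ⟨Sg.perm '' {g' | g' m = g m}, {Sg.nat m}, hperm _ (isOpen_eval m (g m)), hnat m,
        ⟨g, rfl, rfl⟩, rfl, ?_⟩
      rintro ⟨_, _⟩ ⟨⟨g', hg', rfl⟩, rfl⟩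
      change Sg.nat (g' m) ∈ U
      rw [show g' m = g m from hg']
      exact hab
    · have habU : Sg.pt i ∈ U := hab
      by_cases hoi : o = some i
      · have hF := hU2 i hoi habU
        set F := {m | Sg.nat m ∉ U} with hFdef
        refine ⟨Sg.perm '' (⋂ m ∈ F, {g' | g' (g.symm m) = m}),
          {Sg.pt i} ∪ Sg.nat '' {n | g n ∉ F}, hperm _ ?_, ?_, ⟨g, ?_, rfl⟩, Or.inl rfl, ?_⟩
        · exact hF.isOpen_biInter fun m _ => isOpen_eval _ _
        · refine isOpen_topo.2 ⟨?_, ?_⟩
          · convert isOpen_empty
            ext g
            simp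
          · intro j _ _
            refine (hF.preimage (f := g) g.injective.injOn).subset ?_
            intro n hn
            by_contra hn'
            exact hn (Or.inr ⟨n, hn', rfl⟩)
        · simp
        · rintro ⟨_, _⟩ ⟨⟨g', hg', rfl⟩, (rfl | ⟨n, hn, rfl⟩)⟩
          · exact habU
          · change Sg.nat (g' n) ∈ U
            by_contra hcon
            have h1 : g' n ∈ F := hcon
            have h2 := mem_iInter₂.1 hg' (g' n) h1
            have h3 : g.symm (g' n) = n := g'.injective h2
            apply hn
            change g n ∈ F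
            rw [← h3, Equiv.apply_symm_apply]
            exact h1
      · refine ⟨range Sg.perm, {Sg.pt i}, ?_, ?_, ⟨g, rfl⟩, rfl, ?_⟩
        · rw [← image_univ]
          exact hperm _ isOpen_univ
        · refine isOpen_topo.2 ⟨?_, ?_⟩
          · convert isOpen_empty
            ext g
            simp
          · rintro j hj h
            rw [mem_singleton_iff, Sg.pt.injEq] at h
            subst h
            exact absurd hj hoi
        · rintro ⟨_, _⟩ ⟨⟨g', rfl⟩, rfl⟩
          exact habU
  · refine ⟨{Sg.nat n}, univ, hnat n, isOpen_univ, rfl, trivial, ?_⟩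
    rintro ⟨_, t⟩ ⟨rfl, _⟩
    change Sg.nat n * t ∈ U
    rw [nat_mul]
    have : Sg.nat n * b ∈ U := hab
    rwa [nat_mul] at this
  · have habU : Sg.pt i ∈ U := by
      have : Sg.pt i * b ∈ U := hab
      rwa [pt_mul] at this
    refine ⟨U \ range Sg.perm, univ, hint U hU, isOpen_univ, ⟨habU, ?_⟩, trivial, ?_⟩
    · rintro ⟨g, hg⟩
      cases hg
    · rintro ⟨s, t⟩ ⟨⟨hs, hs'⟩, _⟩
      change s * t ∈ U
      rcases s with g | n | l
      · exact absurd ⟨g, rfl⟩ hs'
      · rwa [nat_mul]
      · rwa [pt_mul]

theorem topo_injective : Function.Injective (topo : Option (Fin k) → TopologicalSpace (Sg k)) := by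
  have key : ∀ (o : Option (Fin k)) (i : Fin k), IsOpen[topo o] {Sg.pt i} ↔ o ≠ some i := by
    intro o i
    rw [isOpen_topo]
    constructor
    · rintro ⟨_, h⟩ rfl
      have h1 := h i rfl rfl
      have h2 : {n : ℕ | (Sg.nat n : Sg k) ∉ ({Sg.pt i} : Set (Sg k))} = univ := by
        ext n
        simp
      rw [h2] at h1
      exact infinite_univ h1
    · intro h
      refine ⟨?_, ?_⟩
      · let _ := permTop
        convert isOpen_empty
        ext g
        simp
      · intro j hj hji
        rw [mem_singleton_iff, Sg.pt.injEq] at hji
        subst hji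
        exact absurd hj h
  intro o o' h
  cases o with
  | none =>
    cases o' with
    | none => rfl
    | some i =>
      have h1 := (key none i).2 (by simp)
      rw [h] at h1
      exact absurd rfl ((key (some i) i).1 h1)
  | some i =>
    by_contra hne
    have h1 := (key o' i).2 (fun h2 => hne h2.symm)
    rw [← h] at h1
    exact absurd rfl ((key (some i) i).1 h1)

end Pool.Agent.X212.PolishSemi
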