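import Mathlib
import Pool.Agent.X212.PolishSemi

set_option autoImplicit false

/-!
# Classification of the Polish semigroup topologies of `Sg k`
-/

namespace Pool.Agent.X212.PolishSemi

open Set Filter Topology TopologicalSpace
open Pool.Agent.X212.PolishUnique

variable {k : ℕ}

section

variable [TopologicalSpace (Sg k)] [PolishSpace (Sg k)]

/-- The point `x` is isolated in the set of the elements which are not permutations. -/
def Iso (x : Sg k) : Prop := ∃ O : Set (Sg k), IsOpen O ∧ O ∩ (range Sg.perm)ᶜ = {x}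

omit [PolishSpace (Sg k)] in
theorem left_cont (hm : Continuous fun p : Sg k × Sg k => p.1 * p.2) (s : Sg k) :
    Continuous fun x => s * x := hm.comp (continuous_const.prodMk continuous_id)

omit [PolishSpace (Sg k)] in
theorem right_cont (hm : Continuous fun p : Sg k × Sg k => p.1 * p.2) (s : Sg k) :
    Continuous fun x => x * s := hm.comp (continuous_id.prodMk continuous_const)

theorem isOpen_range_perm (hm : Continuous fun p : Sg k × Sg k => p.1 * p.2) :
    IsOpen (range (Sg.perm : Equiv.Perm ℕ → Sg k)) := by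
  have h1 : IsClosed {s : Sg k | s * Sg.nat 0 = s} := isClosed_eq (right_cont hm _) continuous_id
  have h2 : {s : Sg k | s * Sg.nat 0 = s} = (range Sg.perm)ᶜ := by
    ext s
    rcases s with g | n | i
    · simp
    · simp
    · simp
  rw [h2] at h1
  exact isClosed_compl_iff.1 h1

theorem exists_iso (hm : Continuous fun p : Sg k × Sg k => p.1 * p.2) :
    ∃ n : ℕ, Iso (Sg.nat n : Sg k) := by
  have hG := isOpen_range_perm hm
  let V : Set (Sg k) := (range Sg.pt)ᶜ
  have hV : IsOpen V := (finite_range _).isClosed.isOpen_compl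
  have hPV : PolishSpace V := hV.polishSpace
  let T : Set V := {v | v.1 ∈ (range (Sg.perm : Equiv.Perm ℕ → Sg k))ᶜ}
  have hT : IsClosed T := hG.isClosed_compl.preimage continuous_subtype_val
  have hPT : PolishSpace T := hT.polishSpace
  have hVn : ∀ n : ℕ, (Sg.nat n : Sg k) ∈ V := by
    rintro n ⟨i, hi⟩
    cases hi
  have hXn : ∀ n : ℕ, (Sg.nat n : Sg k) ∈ (range (Sg.perm : Equiv.Perm ℕ → Sg k))ᶜ := by
    rintro n ⟨i, hi⟩
    cases hi
  let τ : ℕ → T := fun n => ⟨⟨Sg.nat n, hVn n⟩, hXn n⟩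
  have hτ : ∀ x : T, ∃ n, τ n = x := by
    rintro ⟨⟨s, hs⟩, hs'⟩
    rcases s with g | n | i
    · exact absurd ⟨g, rfl⟩ hs'
    · exact ⟨n, rfl⟩
    · exact absurd ⟨i, rfl⟩ hs
  have hne : Nonempty T := ⟨τ 0⟩
  obtain ⟨n, hn⟩ := nonempty_interior_of_iUnion_of_closed (f := fun n => ({τ n} : Set T))
    (fun n => isClosed_singleton) (by
      ext x
      simp only [mem_iUnion, mem_singleton_iff, mem_univ, iff_true]
      obtain ⟨n, hn⟩ := hτ x
      exact ⟨n, hn.symm⟩)
  have hopen : IsOpen ({τ n} : Set T) := by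
    obtain ⟨y, hy⟩ := hn
    have hy' : y ∈ interior ({τ n} : Set T) := hy
    have h1 : y ∈ ({τ n} : Set T) := interior_subset hy'
    rw [mem_singleton_iff] at h1
    rw [h1] at hy'
    have h2 : interior ({τ n} : Set T) = {τ n} := by
      apply subset_antisymm interior_subset
      intro z hz
      rw [mem_singleton_iff] at hz
      rw [hz]
      exact hy'
    rw [← h2]
    exact isOpen_interior
  obtain ⟨O1, hO1, hO1'⟩ := isOpen_induced_iff.1 hopen
  obtain ⟨O2, hO2, hO2'⟩ := isOpen_induced_iff.1 hO1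
  refine ⟨n, O2 ∩ V, hO2.inter hV, ?_⟩
  ext s
  simp only [mem_inter_iff, mem_singleton_iff]
  constructor
  · rintro ⟨⟨h1, h2⟩, h3⟩
    have h4 : (⟨⟨s, h2⟩, h3⟩ : T) ∈ ({τ n} : Set T) := by
      rw [← hO1']
      change (⟨s, h2⟩ : V) ∈ O1
      rw [← hO2']
      exact h1
    have h5 : (⟨⟨s, h2⟩, h3⟩ : T) = τ n := h4
    exact congrArg (fun x : T => x.1.1) h5
  · rintro rfl
    refine ⟨⟨?_, hVn n⟩, hXn n⟩
    have h4 : τ n ∈ Subtype.val ⁻¹' O1 := by
      rw [hO1']
      rfl
    have h5 : (⟨Sg.nat n, hVn n⟩ : V) ∈ O1 := h4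
    rw [← hO2'] at h5
    exact h5

theorem iso_nat (hm : Continuous fun p : Sg k × Sg k => p.1 * p.2) (n : ℕ) :
    Iso (Sg.nat n : Sg k) := by
  obtain ⟨m, O, hO, hOm⟩ := exists_iso hm
  refine ⟨(fun x => Sg.perm (Equiv.swap n m) * x) ⁻¹' O, hO.preimage (left_cont hm _), ?_⟩
  ext s
  simp only [mem_inter_iff, mem_preimage, mem_singleton_iff]
  constructor
  · rintro ⟨h1, h2⟩
    rcases s with g | a | i
    · exact absurd ⟨g, rfl⟩ h2
    · rw [perm_mul_nat] at h1
      have h3 : (Sg.nat (Equiv.swap n m a) : Sg k) ∈ O ∩ (range Sg.perm)ᶜ :=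
        ⟨h1, by rintro ⟨g, hg⟩; cases hg⟩
      rw [hOm, mem_singleton_iff, Sg.nat.injEq] at h3
      rw [Sg.nat.injEq]
      have h4 : Equiv.swap n m (Equiv.swap n m a) = Equiv.swap n m m := by rw [h3]
      rwa [Equiv.swap_apply_self, Equiv.swap_apply_right] at h4
    · rw [perm_mul_pt] at h1
      have h3 : (Sg.pt i : Sg k) ∈ O ∩ (range Sg.perm)ᶜ :=
        ⟨h1, by rintro ⟨g, hg⟩; cases hg⟩
      rw [hOm, mem_singleton_iff] at h3
      cases h3
  · rintro rfl
    refine ⟨?_, by rintro ⟨g, hg⟩; cases hg⟩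
    rw [perm_mul_nat, Equiv.swap_apply_left]
    have h3 : (Sg.nat m : Sg k) ∈ O ∩ (range Sg.perm)ᶜ := by
      rw [hOm]
      rfl
    exact h3.1

theorem isOpen_eval_of (hm : Continuous fun p : Sg k × Sg k => p.1 * p.2) (n m : ℕ) :
    IsOpen[TopologicalSpace.induced (Sg.perm : Equiv.Perm ℕ → Sg k) inferInstance]
      {g : Equiv.Perm ℕ | g n = m} := by
  obtain ⟨O, hO, hOm⟩ := iso_nat hm m
  rw [isOpen_induced_iff]
  refine ⟨(fun x => x * Sg.nat n) ⁻¹' O, hO.preimage (right_cont hm _), ?_⟩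
  ext g
  simp only [mem_preimage, mem_ofPred_eq, perm_mul_nat]
  constructor
  · intro h
    have h3 : (Sg.nat (g n) : Sg k) ∈ O ∩ (range Sg.perm)ᶜ :=
      ⟨h, by rintro ⟨g, hg⟩; cases hg⟩
    rw [hOm, mem_singleton_iff, Sg.nat.injEq] at h3
    exact h3
  · rintro h
    have h3 : (Sg.nat m : Sg k) ∈ O ∩ (range Sg.perm)ᶜ := by
      rw [hOm]
      rfl
    rw [h]
    exact h3.1

omit [TopologicalSpace (Sg k)] [PolishSpace (Sg k)] in
theorem perm_inj : Function.Injective (Sg.perm : Equiv.Perm ℕ → Sg k) := by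
  intro g h hgh
  injection hgh

theorem induced_eq (hm : Continuous fun p : Sg k × Sg k => p.1 * p.2) :
    TopologicalSpace.induced (Sg.perm : Equiv.Perm ℕ → Sg k) inferInstance = permTop := by
  refine eq_permTop _ ?_ (isOpen_eval_of hm) ?_
  · let _ : TopologicalSpace (Equiv.Perm ℕ) :=
      TopologicalSpace.induced (Sg.perm : Equiv.Perm ℕ → Sg k) inferInstance
    have hemb : IsEmbedding (Sg.perm : Equiv.Perm ℕ → Sg k) := ⟨⟨rfl⟩, perm_inj⟩
    have h1 : PolishSpace (range (Sg.perm : Equiv.Perm ℕ → Sg k)) :=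
      (isOpen_range_perm hm).polishSpace
    exact hemb.toHomeomorph.isClosedEmbedding.polishSpace
  · intro a
    rw [continuous_induced_rng]
    let _ : TopologicalSpace (Equiv.Perm ℕ) :=
      TopologicalSpace.induced (Sg.perm : Equiv.Perm ℕ → Sg k) inferInstance
    have h1 : Continuous (Sg.perm : Equiv.Perm ℕ → Sg k) := continuous_induced_dom
    exact (right_cont hm (Sg.perm a)).comp h1

theorem isOpen_image_perm (hm : Continuous fun p : Sg k × Sg k => p.1 * p.2)
    {W : Set (Equiv.Perm ℕ)} (hW : IsOpen[permTop] W) : IsOpen (Sg.perm '' W : Set (Sg k)) := by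
  rw [← induced_eq (k := k) hm, isOpen_induced_iff] at hW
  obtain ⟨O, hO, rfl⟩ := hW
  rw [image_preimage_eq_inter_range]
  exact hO.inter (isOpen_range_perm hm)

theorem isOpen_preimage_perm (hm : Continuous fun p : Sg k × Sg k => p.1 * p.2)
    {U : Set (Sg k)} (hU : IsOpen U) : IsOpen[permTop] (Sg.perm ⁻¹' U) := by
  rw [← induced_eq (k := k) hm, isOpen_induced_iff]
  exact ⟨U, hU, rfl⟩

/-- For a set of natural numbers which is infinite together with its complement, there is a
permutation which maps it into its complement. -/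
theorem exists_swap (A : Set ℕ) (h1 : A.Infinite) (h2 : Aᶜ.Infinite) :
    ∃ g : Equiv.Perm ℕ, ∀ n ∈ A, g n ∉ A := by
  classical
  have := h1.to_subtype
  have := h2.to_subtype
  obtain ⟨e⟩ : Nonempty (A ≃ (Aᶜ : Set ℕ)) := by
    obtain ⟨d1⟩ := nonempty_denumerable A
    obtain ⟨d2⟩ := nonempty_denumerable (Aᶜ : Set ℕ)
    have e1 := (Denumerable.eqv A)
    have e2 := (Denumerable.eqv (Aᶜ : Set ℕ))
    exact ⟨e1.trans e2.symm⟩
  refine ⟨(Equiv.Set.sumCompl A).symm.trans
    (((Equiv.sumCongr e e.symm).trans (Equiv.sumComm _ _)).trans (Equiv.Set.sumCompl A)), ?_⟩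
  intro n hn
  simp only [Equiv.trans_apply, Equiv.Set.sumCompl_symm_apply_of_mem hn, Equiv.sumCongr_apply,
    Sum.map_inl, Equiv.sumComm_apply, Sum.swap_inl, Equiv.Set.sumCompl_apply_inr]
  exact (e ⟨n, hn⟩).2

theorem cofinite_of_not_iso (hm : Continuous fun p : Sg k × Sg k => p.1 * p.2) {i : Fin k}
    (hi : ¬ Iso (Sg.pt i : Sg k)) {U : Set (Sg k)} (hU : IsOpen U) (hiU : Sg.pt i ∈ U) :
    {n | Sg.nat n ∉ U}.Finite := by
  -- an open set containing `pt i` contains infinitely many `nat n`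
  have hinf : ∀ O : Set (Sg k), IsOpen O → Sg.pt i ∈ O → {n | Sg.nat n ∈ O}.Infinite := by
    intro O hO hiO hfin
    apply hi
    refine ⟨O \ (Sg.nat '' {n | Sg.nat n ∈ O} ∪ Sg.pt '' {j | j ≠ i}), ?_, ?_⟩
    · exact hO.sdiff ((hfin.image _).union (toFinite _)).isClosed
    · ext s
      simp only [mem_inter_iff, mem_singleton_iff]
      constructor
      · rintro ⟨⟨h1, h2⟩, h3⟩
        rcases s with g | n | j
        · exact absurd ⟨g, rfl⟩ h3
        · exact absurd (Or.inl ⟨n, h1, rfl⟩) h2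
        · by_contra hne
          apply h2
          right
          exact ⟨j, fun h => hne (by rw [h]), rfl⟩
      · rintro rfl
        refine ⟨⟨hiO, ?_⟩, by rintro ⟨g, hg⟩; cases hg⟩
        rintro (⟨n, _, hn⟩ | ⟨j, hj, hji⟩)
        · cases hn
        · injection hji with h
          exact hj h
  by_contra hcon
  obtain ⟨g, hg⟩ := exists_swap {n | Sg.nat n ∈ U} (hinf U hU hiU) hcon
  have h1 := hinf (U ∩ (fun x => Sg.perm g * x) ⁻¹' U) (hU.inter (hU.preimage (left_cont hm _)))
    ⟨hiU, hiU⟩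
  obtain ⟨n, hn1, hn2⟩ := h1.nonempty
  exact hg n hn1 hn2

theorem isOpen_compl_range_perm (hm : Continuous fun p : Sg k × Sg k => p.1 * p.2) :
    IsOpen ((range (Sg.perm : Equiv.Perm ℕ → Sg k))ᶜ) := by
  -- it suffices to find a neighborhood without permutations of each point
  have key : ∀ x : Sg k, x ∉ range (Sg.perm : Equiv.Perm ℕ → Sg k) →
      ∃ A : Set (Sg k), IsOpen A ∧ x ∈ A ∧ ∀ g : Equiv.Perm ℕ, Sg.perm g ∉ A := by
    intro x hx
    have hxmul : ∀ s, x * s = x := by
      rcases x with g | n | i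
      · exact absurd ⟨g, rfl⟩ hx
      · exact nat_mul n
      · exact pt_mul i
    by_cases hiso : Iso x
    · obtain ⟨O, hO, hOx⟩ := hiso
      have hxO : x ∈ O := by
        have : x ∈ O ∩ (range Sg.perm)ᶜ := by rw [hOx]; rfl
        exact this.1
      refine ⟨(fun s => s * Sg.nat 0) ⁻¹' O ∩ (fun s => s * Sg.nat 1) ⁻¹' O,
        (hO.preimage (right_cont hm _)).inter (hO.preimage (right_cont hm _)), ?_, ?_⟩
      · refine ⟨?_, ?_⟩
        · change x * _ ∈ O
          rwa [hxmul]
        · change x * _ ∈ O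
          rwa [hxmul]
      · rintro g ⟨h0, h1⟩
        have e : ∀ n, (Sg.nat (g n) : Sg k) ∈ O → (Sg.nat (g n) : Sg k) = x := by
          intro n hn
          have : (Sg.nat (g n) : Sg k) ∈ O ∩ (range Sg.perm)ᶜ :=
            ⟨hn, by rintro ⟨g, hg⟩; cases hg⟩
          rw [hOx] at this
          exact this
        have h2 := (e 0 h0).trans (e 1 h1).symm
        rw [Sg.nat.injEq] at h2
        exact absurd (g.injective h2) (by norm_num)
    · rcases x with g | n | i
      · exact absurd ⟨g, rfl⟩ hx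
      · exact absurd (iso_nat hm n) hiso
      · have hO : IsOpen ({Sg.nat 0}ᶜ : Set (Sg k)) := isClosed_singleton.isOpen_compl
        have h1 := hO.preimage hm
        rw [isOpen_prod_iff] at h1
        have hmem : ∀ s : Sg k, (Sg.pt i, s) ∈ (fun p : Sg k × Sg k => p.1 * p.2) ⁻¹'
            ({Sg.nat 0}ᶜ : Set (Sg k)) := by
          intro s
          change Sg.pt i * s ∉ ({Sg.nat 0} : Set (Sg k))
          rw [pt_mul]
          intro h
          cases h
        obtain ⟨A, B, hA, hB, hiA, hiB, hAB⟩ := h1 (Sg.pt i) (Sg.pt i) (hmem _)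
        have hF := cofinite_of_not_iso hm hiso hB hiB
        refine ⟨A ∩ ⋂ n ∈ {n | Sg.nat n ∉ B}, (fun s => s * Sg.nat n) ⁻¹'
          ({Sg.nat 0}ᶜ : Set (Sg k)), hA.inter (hF.isOpen_biInter fun n _ =>
            hO.preimage (right_cont hm _)), ⟨hiA, ?_⟩, ?_⟩
        · rw [mem_iInter₂]
          intro n _
          exact hmem _
        · rintro g ⟨hgA, hgn⟩
          have h0 : (Sg.perm g : Sg k) * Sg.nat (g.symm 0) = Sg.nat 0 := by
            rw [perm_mul_nat, Equiv.apply_symm_apply]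
          by_cases hb : (Sg.nat (g.symm 0) : Sg k) ∈ B
          · have h2 := hAB (show ((Sg.perm g : Sg k), (Sg.nat (g.symm 0) : Sg k)) ∈ A ×ˢ B from
              ⟨hgA, hb⟩)
            exact h2 h0
          · have h2 := mem_iInter₂.1 hgn (g.symm 0) hb
            exact h2 h0
  rw [isOpen_iff_forall_mem_open]
  intro x hx
  obtain ⟨A, hA, hxA, hAg⟩ := key x hx
  refine ⟨A, ?_, hA, hxA⟩
  rintro s hs ⟨g, rfl⟩
  exact hAg g hs

theorem isOpen_singleton_of_iso (hm : Continuous fun p : Sg k × Sg k => p.1 * p.2) {x : Sg k}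
    (hx : Iso x) : IsOpen ({x} : Set (Sg k)) := by
  obtain ⟨O, hO, hOx⟩ := hx
  rw [← hOx]
  exact hO.inter (isOpen_compl_range_perm hm)

theorem unique_not_iso (hm : Continuous fun p : Sg k × Sg k => p.1 * p.2) {i j : Fin k}
    (hi : ¬ Iso (Sg.pt i : Sg k)) (hj : ¬ Iso (Sg.pt j : Sg k)) : i = j := by
  by_contra hne
  have hne' : (Sg.pt i : Sg k) ≠ Sg.pt j := fun h => hne (by injection h)
  obtain ⟨U, V, hU, hV, hiU, hjV, hUV⟩ := t2_separation hne'
  have h1 := cofinite_of_not_iso hm hi hU hiU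
  have h2 := cofinite_of_not_iso hm hj hV hjV
  have h3 : (univ : Set ℕ) ⊆ {n | (Sg.nat n : Sg k) ∉ U} ∪ {n | Sg.nat n ∉ V} := by
    intro n _
    by_cases h : (Sg.nat n : Sg k) ∈ U
    · right
      intro h'
      exact disjoint_left.1 hUV h h'
    · exact Or.inl h
  exact infinite_univ ((h1.union h2).subset h3)

end

theorem classify (t : TopologicalSpace (Sg k)) (hp : @PolishSpace _ t)
    (hm : @Continuous (Sg k × Sg k) (Sg k) (@instTopologicalSpaceProd _ _ t t) t
      (fun p => p.1 * p.2)) : ∃ o, topo o = t := by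
  classical
  -- the index of the point which is not isolated
  obtain ⟨o, ho⟩ : ∃ o : Option (Fin k), ∀ i : Fin k, ¬ Iso (Sg.pt i : Sg k) ↔ o = some i := by
    by_cases h : ∃ i : Fin k, ¬ Iso (Sg.pt i : Sg k)
    · obtain ⟨i, hi⟩ := h
      refine ⟨some i, fun j => ⟨fun hj => ?_, ?_⟩⟩
      · rw [unique_not_iso hm hi hj]
      · rintro hj
        have : i = j := by simpa using hj
        rwa [← this]
    · refine ⟨none, fun j => ⟨fun hj => absurd ⟨j, hj⟩ h, fun hj => by cases hj⟩⟩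
  refine ⟨o, TopologicalSpace.ext (funext fun U => propext ?_)⟩
  change IsOpen[topo o] U ↔ IsOpen[t] U
  rw [isOpen_topo]
  constructor
  · rintro ⟨h1, h2⟩
    rw [isOpen_iff_forall_mem_open]
    intro x hx
    rcases x with g | n | i
    · exact ⟨Sg.perm '' (Sg.perm ⁻¹' U), image_preimage_subset _ _, isOpen_image_perm hm h1,
        ⟨g, hx, rfl⟩⟩
    · exact ⟨{Sg.nat n}, singleton_subset_iff.2 hx, isOpen_singleton_of_iso hm (iso_nat hm n), rfl⟩
    · by_cases hi : Iso (Sg.pt i : Sg k)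
      · exact ⟨{Sg.pt i}, singleton_subset_iff.2 hx, isOpen_singleton_of_iso hm hi, rfl⟩
      · have hF := h2 i ((ho i).1 hi) hx
        refine ⟨(range Sg.perm)ᶜ \ (Sg.nat '' {n | Sg.nat n ∉ U} ∪ Sg.pt '' {j | j ≠ i}), ?_, ?_, ?_⟩
        · rintro s ⟨hs1, hs2⟩
          rcases s with g | n | j
          · exact absurd ⟨g, rfl⟩ hs1
          · by_contra hcon
            exact hs2 (Or.inl ⟨n, hcon, rfl⟩)
          · by_cases hji : j = i
            · rwa [hji]
            · exact absurd (Or.inr ⟨j, hji, rfl⟩) hs2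
        · exact (isOpen_compl_range_perm hm).sdiff ((hF.image _).union (toFinite _)).isClosed
        · refine ⟨(by rintro ⟨g, hg⟩; cases hg), ?_⟩
          rintro (⟨n, _, hn⟩ | ⟨j, hj, hji⟩)
          · cases hn
          · injection hji with h
            exact hj h
  · intro hU
    refine ⟨isOpen_preimage_perm hm hU, fun j hj hjU => ?_⟩
    exact cofinite_of_not_iso hm ((ho j).2 hj) hU hjU

end Pool.Agent.X212.PolishSemi
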