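import Mathlib
set_option autoImplicit false
set_option linter.unusedVariables false
namespace Pool.Agent.X212.Boot

/-- The edges of the chain of wheels, from the smaller to the larger vertex. -/
def ed (t v w : ℕ) : Prop :=
  (v % 5 = 0 ∧ ((w = v + 1 ∧ v / 5 ≤ t) ∨ w = v + 2 ∨ w = v + 4)) ∨
  (v % 5 = 1 ∧ (w = v + 2 ∨ w = v + 3)) ∨ (v % 5 = 2 ∧ (w = v + 2 ∨ w = v + 3)) ∨
  (v % 5 = 3 ∧ (w = v + 1 ∨ w = v + 3)) ∨ (v % 5 = 4 ∧ (w = v + 1 ∨ w = v + 2))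

/-- Adjacency in the chain of wheels. -/
def ad (t v w : ℕ) : Prop := ed t v w ∨ ed t w v

lemma ad_symm {t v w : ℕ} (h : ad t v w) : ad t w v := h.symm

lemma ed_lt {t v w : ℕ} (h : ed t v w) : v < w := by
  rcases h with ⟨-, ⟨h, -⟩ | h | h⟩ | ⟨-, h | h⟩ | ⟨-, h | h⟩ | ⟨-, h | h⟩ | ⟨-, h | h⟩ <;> omega

lemma ad_irrefl {t v : ℕ} (h : ad t v v) : False := by
  rcases h with h | h
  · exact lt_irrefl _ (ed_lt h)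
  · exact lt_irrefl _ (ed_lt h)

lemma e01 {t v w : ℕ} (h : v % 5 = 0) (h1 : w = v + 1) (h2 : v / 5 ≤ t) : ad t v w :=
  Or.inl (Or.inl ⟨h, Or.inl ⟨h1, h2⟩⟩)

lemma e02 {t v w : ℕ} (h : v % 5 = 0) (h1 : w = v + 2) : ad t v w :=
  Or.inl (Or.inl ⟨h, Or.inr (Or.inl h1)⟩)

lemma e04 {t v w : ℕ} (h : v % 5 = 0) (h1 : w = v + 4) : ad t v w :=
  Or.inl (Or.inl ⟨h, Or.inr (Or.inr h1)⟩)

lemma e12 {t v w : ℕ} (h : v % 5 = 1) (h1 : w = v + 2) : ad t v w :=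
  Or.inl (Or.inr (Or.inl ⟨h, Or.inl h1⟩))

lemma e13 {t v w : ℕ} (h : v % 5 = 1) (h1 : w = v + 3) : ad t v w :=
  Or.inl (Or.inr (Or.inl ⟨h, Or.inr h1⟩))

lemma e22 {t v w : ℕ} (h : v % 5 = 2) (h1 : w = v + 2) : ad t v w :=
  Or.inl (Or.inr (Or.inr (Or.inl ⟨h, Or.inl h1⟩)))

lemma e23 {t v w : ℕ} (h : v % 5 = 2) (h1 : w = v + 3) : ad t v w :=
  Or.inl (Or.inr (Or.inr (Or.inl ⟨h, Or.inr h1⟩)))

lemma e31 {t v w : ℕ} (h : v % 5 = 3) (h1 : w = v + 1) : ad t v w :=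
  Or.inl (Or.inr (Or.inr (Or.inr (Or.inl ⟨h, Or.inl h1⟩))))

lemma e33 {t v w : ℕ} (h : v % 5 = 3) (h1 : w = v + 3) : ad t v w :=
  Or.inl (Or.inr (Or.inr (Or.inr (Or.inl ⟨h, Or.inr h1⟩))))

lemma e41 {t v w : ℕ} (h : v % 5 = 4) (h1 : w = v + 1) : ad t v w :=
  Or.inl (Or.inr (Or.inr (Or.inr (Or.inr ⟨h, Or.inl h1⟩))))

lemma e42 {t v w : ℕ} (h : v % 5 = 4) (h1 : w = v + 2) : ad t v w :=
  Or.inl (Or.inr (Or.inr (Or.inr (Or.inr ⟨h, Or.inr h1⟩))))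

lemma nbr0 {t g w : ℕ} (hg : g % 5 = 0) (h : ad t g w) :
    w = g + 1 ∨ w = g + 2 ∨ w = g + 4 ∨ w + 1 = g ∨ w + 3 = g := by
  rcases h with (⟨h1, ⟨h, -⟩ | h | h⟩ | ⟨h1, h | h⟩ | ⟨h1, h | h⟩ | ⟨h1, h | h⟩ | ⟨h1, h | h⟩) |
    (⟨h1, ⟨h, -⟩ | h | h⟩ | ⟨h1, h | h⟩ | ⟨h1, h | h⟩ | ⟨h1, h | h⟩ | ⟨h1, h | h⟩) <;> omega

lemma nbr1 {t g w : ℕ} (hg : g % 5 = 1) (h : ad t g w) :
    w = g + 2 ∨ w = g + 3 ∨ w + 1 = g ∨ w + 2 = g ∨ w + 3 = g := by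
  rcases h with (⟨h1, ⟨h, -⟩ | h | h⟩ | ⟨h1, h | h⟩ | ⟨h1, h | h⟩ | ⟨h1, h | h⟩ | ⟨h1, h | h⟩) |
    (⟨h1, ⟨h, -⟩ | h | h⟩ | ⟨h1, h | h⟩ | ⟨h1, h | h⟩ | ⟨h1, h | h⟩ | ⟨h1, h | h⟩) <;> omega

lemma nbr2 {t g w : ℕ} (hg : g % 5 = 2) (h : ad t g w) :
    w = g + 2 ∨ w = g + 3 ∨ w + 2 = g := by
  rcases h with (⟨h1, ⟨h, -⟩ | h | h⟩ | ⟨h1, h | h⟩ | ⟨h1, h | h⟩ | ⟨h1, h | h⟩ | ⟨h1, h | h⟩) |
    (⟨h1, ⟨h, -⟩ | h | h⟩ | ⟨h1, h | h⟩ | ⟨h1, h | h⟩ | ⟨h1, h | h⟩ | ⟨h1, h | h⟩) <;> omega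

lemma nbr3 {t g w : ℕ} (hg : g % 5 = 3) (h : ad t g w) :
    w = g + 1 ∨ w = g + 3 ∨ w + 2 = g := by
  rcases h with (⟨h1, ⟨h, -⟩ | h | h⟩ | ⟨h1, h | h⟩ | ⟨h1, h | h⟩ | ⟨h1, h | h⟩ | ⟨h1, h | h⟩) |
    (⟨h1, ⟨h, -⟩ | h | h⟩ | ⟨h1, h | h⟩ | ⟨h1, h | h⟩ | ⟨h1, h | h⟩ | ⟨h1, h | h⟩) <;> omega

lemma nbr4 {t g w : ℕ} (hg : g % 5 = 4) (h : ad t g w) :
    w = g + 1 ∨ w = g + 2 ∨ w + 1 = g ∨ w + 2 = g ∨ w + 3 = g ∨ w + 4 = g := by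
  rcases h with (⟨h1, ⟨h, -⟩ | h | h⟩ | ⟨h1, h | h⟩ | ⟨h1, h | h⟩ | ⟨h1, h | h⟩ | ⟨h1, h | h⟩) |
    (⟨h1, ⟨h, -⟩ | h | h⟩ | ⟨h1, h | h⟩ | ⟨h1, h | h⟩ | ⟨h1, h | h⟩ | ⟨h1, h | h⟩) <;> omega

def nx0 (g p q : ℕ) : Prop :=
  (p + 3 = g ∧ q + 1 = g) ∨
  (p + 1 = g ∧ q = g + 1) ∨
  (p = g + 1 ∧ q = g + 4) ∨
  (p = g + 4 ∧ q = g + 2)

lemma next0 {t g p q : ℕ} (hg : g % 5 = 0) (hp : ad t g p) (hq : ad t g q) (hpq : ad t p q) :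
    nx0 g p q ∨ nx0 g q p := by
  have h2 := nbr0 hg hq
  rcases nbr0 hg hp with h1 | h1 | h1 | h1 | h1
  · have h3 := nbr1 (show p % 5 = 1 by omega) hpq
    have h4 : q + 1 = g ∨ q = g + 4 := by omega
    rcases h4 with h | h
    · exact Or.inr (Or.inr (Or.inl ⟨h, h1⟩))
    · exact Or.inl (Or.inr (Or.inr (Or.inl ⟨h1, h⟩)))
  · have h3 := nbr2 (show p % 5 = 2 by omega) hpq
    have h4 : q = g + 4 := by omega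
    have h := h4
    exact Or.inr (Or.inr (Or.inr (Or.inr (⟨h, h1⟩))))
  · have h3 := nbr4 (show p % 5 = 4 by omega) hpq
    have h4 : q = g + 1 ∨ q = g + 2 := by omega
    rcases h4 with h | h
    · exact Or.inr (Or.inr (Or.inr (Or.inl ⟨h, h1⟩)))
    · exact Or.inl (Or.inr (Or.inr (Or.inr (⟨h1, h⟩))))
  · have h3 := nbr4 (show p % 5 = 4 by omega) hpq
    have h4 : q + 3 = g ∨ q = g + 1 := by omega
    rcases h4 with h | h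
    · exact Or.inr (Or.inl ⟨h, h1⟩)
    · exact Or.inl (Or.inr (Or.inl ⟨h1, h⟩))
  · have h3 := nbr2 (show p % 5 = 2 by omega) hpq
    have h4 : q + 1 = g := by omega
    have h := h4
    exact Or.inl (Or.inl ⟨h1, h⟩)

lemma fun0 {g p q r : ℕ} (h1 : nx0 g p q) (h2 : nx0 g p r) : q = r := by
  rcases h1 with ⟨h1, h1'⟩ | ⟨h1, h1'⟩ | ⟨h1, h1'⟩ | ⟨h1, h1'⟩ <;>
  rcases h2 with ⟨h2, h2'⟩ | ⟨h2, h2'⟩ | ⟨h2, h2'⟩ | ⟨h2, h2'⟩ <;> omega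

lemma inj0 {g p q r : ℕ} (h1 : nx0 g p r) (h2 : nx0 g q r) : p = q := by
  rcases h1 with ⟨h1, h1'⟩ | ⟨h1, h1'⟩ | ⟨h1, h1'⟩ | ⟨h1, h1'⟩ <;>
  rcases h2 with ⟨h2, h2'⟩ | ⟨h2, h2'⟩ | ⟨h2, h2'⟩ | ⟨h2, h2'⟩ <;> omega

lemma asym0 {g p q : ℕ} (h1 : nx0 g p q) (h2 : nx0 g q p) : False := by
  rcases h1 with ⟨h1, h1'⟩ | ⟨h1, h1'⟩ | ⟨h1, h1'⟩ | ⟨h1, h1'⟩ <;>
  rcases h2 with ⟨h2, h2'⟩ | ⟨h2, h2'⟩ | ⟨h2, h2'⟩ | ⟨h2, h2'⟩ <;> omega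

lemma st0 {g p q : ℕ} (h : nx0 g p q) :
    (p + 3 = g → q + 1 = g) ∧
    (p + 1 = g → q = g + 1) ∧
    (p = g + 1 → q = g + 4) ∧
    (p = g + 4 → q = g + 2) := by
  rcases h with ⟨h1, h2⟩ | ⟨h1, h2⟩ | ⟨h1, h2⟩ | ⟨h1, h2⟩ <;>
  refine ⟨fun h3 => ?_, fun h3 => ?_, fun h3 => ?_, fun h3 => ?_⟩ <;> omega

def nx1 (g p q : ℕ) : Prop :=
  (p + 3 = g ∧ q + 2 = g) ∨
  (p + 2 = g ∧ q + 1 = g) ∨
  (p + 1 = g ∧ q = g + 3) ∨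
  (p = g + 3 ∧ q = g + 2)

lemma next1 {t g p q : ℕ} (hg : g % 5 = 1) (hp : ad t g p) (hq : ad t g q) (hpq : ad t p q) :
    nx1 g p q ∨ nx1 g q p := by
  have h2 := nbr1 hg hq
  rcases nbr1 hg hp with h1 | h1 | h1 | h1 | h1
  · have h3 := nbr3 (show p % 5 = 3 by omega) hpq
    have h4 : q = g + 3 := by omega
    have h := h4
    exact Or.inr (Or.inr (Or.inr (Or.inr (⟨h, h1⟩))))
  · have h3 := nbr4 (show p % 5 = 4 by omega) hpq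
    have h4 : q + 1 = g ∨ q = g + 2 := by omega
    rcases h4 with h | h
    · exact Or.inr (Or.inr (Or.inr (Or.inl ⟨h, h1⟩)))
    · exact Or.inl (Or.inr (Or.inr (Or.inr (⟨h1, h⟩))))
  · have h3 := nbr0 (show p % 5 = 0 by omega) hpq
    have h4 : q + 2 = g ∨ q = g + 3 := by omega
    rcases h4 with h | h
    · exact Or.inr (Or.inr (Or.inl ⟨h, h1⟩))
    · exact Or.inl (Or.inr (Or.inr (Or.inl ⟨h1, h⟩)))
  · have h3 := nbr4 (show p % 5 = 4 by omega) hpq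
    have h4 : q + 3 = g ∨ q + 1 = g := by omega
    rcases h4 with h | h
    · exact Or.inr (Or.inl ⟨h, h1⟩)
    · exact Or.inl (Or.inr (Or.inl ⟨h1, h⟩))
  · have h3 := nbr3 (show p % 5 = 3 by omega) hpq
    have h4 : q + 2 = g := by omega
    have h := h4
    exact Or.inl (Or.inl ⟨h1, h⟩)

lemma fun1 {g p q r : ℕ} (h1 : nx1 g p q) (h2 : nx1 g p r) : q = r := by
  rcases h1 with ⟨h1, h1'⟩ | ⟨h1, h1'⟩ | ⟨h1, h1'⟩ | ⟨h1, h1'⟩ <;>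
  rcases h2 with ⟨h2, h2'⟩ | ⟨h2, h2'⟩ | ⟨h2, h2'⟩ | ⟨h2, h2'⟩ <;> omega

lemma inj1 {g p q r : ℕ} (h1 : nx1 g p r) (h2 : nx1 g q r) : p = q := by
  rcases h1 with ⟨h1, h1'⟩ | ⟨h1, h1'⟩ | ⟨h1, h1'⟩ | ⟨h1, h1'⟩ <;>
  rcases h2 with ⟨h2, h2'⟩ | ⟨h2, h2'⟩ | ⟨h2, h2'⟩ | ⟨h2, h2'⟩ <;> omega

lemma asym1 {g p q : ℕ} (h1 : nx1 g p q) (h2 : nx1 g q p) : False := by
  rcases h1 with ⟨h1, h1'⟩ | ⟨h1, h1'⟩ | ⟨h1, h1'⟩ | ⟨h1, h1'⟩ <;>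
  rcases h2 with ⟨h2, h2'⟩ | ⟨h2, h2'⟩ | ⟨h2, h2'⟩ | ⟨h2, h2'⟩ <;> omega

lemma st1 {g p q : ℕ} (h : nx1 g p q) :
    (p + 3 = g → q + 2 = g) ∧
    (p + 2 = g → q + 1 = g) ∧
    (p + 1 = g → q = g + 3) ∧
    (p = g + 3 → q = g + 2) := by
  rcases h with ⟨h1, h2⟩ | ⟨h1, h2⟩ | ⟨h1, h2⟩ | ⟨h1, h2⟩ <;>
  refine ⟨fun h3 => ?_, fun h3 => ?_, fun h3 => ?_, fun h3 => ?_⟩ <;> omega

def nx4 (g p q : ℕ) : Prop :=
  (p + 4 = g ∧ q + 2 = g) ∨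
  (p + 2 = g ∧ q = g + 1) ∨
  (p = g + 1 ∧ q = g + 2) ∨
  (p = g + 2 ∧ q + 1 = g) ∨
  (p + 1 = g ∧ q + 3 = g) ∨
  (p + 3 = g ∧ q + 4 = g)

lemma next4 {t g p q : ℕ} (hg : g % 5 = 4) (hp : ad t g p) (hq : ad t g q) (hpq : ad t p q) :
    nx4 g p q ∨ nx4 g q p := by
  have h2 := nbr4 hg hq
  rcases nbr4 hg hp with h1 | h1 | h1 | h1 | h1 | h1
  · have h3 := nbr0 (show p % 5 = 0 by omega) hpq
    have h4 : q + 2 = g ∨ q = g + 2 := by omega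
    rcases h4 with h | h
    · exact Or.inr (Or.inr (Or.inl ⟨h, h1⟩))
    · exact Or.inl (Or.inr (Or.inr (Or.inl ⟨h1, h⟩)))
  · have h3 := nbr1 (show p % 5 = 1 by omega) hpq
    have h4 : q + 1 = g ∨ q = g + 1 := by omega
    rcases h4 with h | h
    · exact Or.inl (Or.inr (Or.inr (Or.inr (Or.inl ⟨h1, h⟩))))
    · exact Or.inr (Or.inr (Or.inr (Or.inl ⟨h, h1⟩)))
  · have h3 := nbr3 (show p % 5 = 3 by omega) hpq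
    have h4 : q + 3 = g ∨ q = g + 2 := by omega
    rcases h4 with h | h
    · exact Or.inl (Or.inr (Or.inr (Or.inr (Or.inr (Or.inl ⟨h1, h⟩)))))
    · exact Or.inr (Or.inr (Or.inr (Or.inr (Or.inl ⟨h, h1⟩))))
  · have h3 := nbr2 (show p % 5 = 2 by omega) hpq
    have h4 : q + 4 = g ∨ q = g + 1 := by omega
    rcases h4 with h | h
    · exact Or.inr (Or.inl ⟨h, h1⟩)
    · exact Or.inl (Or.inr (Or.inl ⟨h1, h⟩))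
  · have h3 := nbr1 (show p % 5 = 1 by omega) hpq
    have h4 : q + 4 = g ∨ q + 1 = g := by omega
    rcases h4 with h | h
    · exact Or.inl (Or.inr (Or.inr (Or.inr (Or.inr (Or.inr (⟨h1, h⟩))))))
    · exact Or.inr (Or.inr (Or.inr (Or.inr (Or.inr (Or.inl ⟨h, h1⟩)))))
  · have h3 := nbr0 (show p % 5 = 0 by omega) hpq
    have h4 : q + 3 = g ∨ q + 2 = g := by omega
    rcases h4 with h | h
    · exact Or.inr (Or.inr (Or.inr (Or.inr (Or.inr (Or.inr (⟨h, h1⟩))))))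
    · exact Or.inl (Or.inl ⟨h1, h⟩)

lemma fun4 {g p q r : ℕ} (h1 : nx4 g p q) (h2 : nx4 g p r) : q = r := by
  rcases h1 with ⟨h1, h1'⟩ | ⟨h1, h1'⟩ | ⟨h1, h1'⟩ | ⟨h1, h1'⟩ | ⟨h1, h1'⟩ | ⟨h1, h1'⟩ <;>
  rcases h2 with ⟨h2, h2'⟩ | ⟨h2, h2'⟩ | ⟨h2, h2'⟩ | ⟨h2, h2'⟩ | ⟨h2, h2'⟩ | ⟨h2, h2'⟩ <;> omega

lemma inj4 {g p q r : ℕ} (h1 : nx4 g p r) (h2 : nx4 g q r) : p = q := by
  rcases h1 with ⟨h1, h1'⟩ | ⟨h1, h1'⟩ | ⟨h1, h1'⟩ | ⟨h1, h1'⟩ | ⟨h1, h1'⟩ | ⟨h1, h1'⟩ <;>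
  rcases h2 with ⟨h2, h2'⟩ | ⟨h2, h2'⟩ | ⟨h2, h2'⟩ | ⟨h2, h2'⟩ | ⟨h2, h2'⟩ | ⟨h2, h2'⟩ <;> omega

lemma asym4 {g p q : ℕ} (h1 : nx4 g p q) (h2 : nx4 g q p) : False := by
  rcases h1 with ⟨h1, h1'⟩ | ⟨h1, h1'⟩ | ⟨h1, h1'⟩ | ⟨h1, h1'⟩ | ⟨h1, h1'⟩ | ⟨h1, h1'⟩ <;>
  rcases h2 with ⟨h2, h2'⟩ | ⟨h2, h2'⟩ | ⟨h2, h2'⟩ | ⟨h2, h2'⟩ | ⟨h2, h2'⟩ | ⟨h2, h2'⟩ <;> omega

lemma st4 {g p q : ℕ} (h : nx4 g p q) :
    (p + 4 = g → q + 2 = g) ∧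
    (p + 2 = g → q = g + 1) ∧
    (p = g + 1 → q = g + 2) ∧
    (p = g + 2 → q + 1 = g) ∧
    (p + 1 = g → q + 3 = g) ∧
    (p + 3 = g → q + 4 = g) := by
  rcases h with ⟨h1, h2⟩ | ⟨h1, h2⟩ | ⟨h1, h2⟩ | ⟨h1, h2⟩ | ⟨h1, h2⟩ | ⟨h1, h2⟩ <;>
  refine ⟨fun h3 => ?_, fun h3 => ?_, fun h3 => ?_, fun h3 => ?_, fun h3 => ?_, fun h3 => ?_⟩ <;> omega

/-- A relation in which two steps with different ends go in the same direction. -/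
def Turn (R : ℕ → ℕ → Prop) : Prop := ∀ p q r, (R p q ∨ R q p) → (R q r ∨ R r q) → p ≠ r →
  (R p q ∧ R q r) ∨ (R q p ∧ R r q)

lemma turn_of {R : ℕ → ℕ → Prop} (hf : ∀ p q r, R p q → R p r → q = r)
    (hi : ∀ p q r, R p r → R q r → p = q) : Turn R := by
  rintro p q r (h1 | h1) (h2 | h2) h3
  · exact Or.inl ⟨h1, h2⟩
  · exact (h3 (hi _ _ _ h1 h2)).elim
  · exact (h3 (hf _ _ _ h1 h2)).elim
  · exact Or.inr ⟨h1, h2⟩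

lemma turn0 (g : ℕ) : Turn (nx0 g) := turn_of (fun _ _ _ => fun0) (fun _ _ _ => inj0)

lemma turn1 (g : ℕ) : Turn (nx1 g) := turn_of (fun _ _ _ => fun1) (fun _ _ _ => inj1)

lemma turn4 (g : ℕ) : Turn (nx4 g) := turn_of (fun _ _ _ => fun4) (fun _ _ _ => inj4)

/-- A path of five vertices goes all the time in the same direction. -/
lemma path5 {R : ℕ → ℕ → Prop} (hT : Turn R) (hA : ∀ p q, R p q → R q p → False)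
    {b c d e f : ℕ} (h1 : R b c ∨ R c b) (h2 : R c d ∨ R d c) (h3 : R d e ∨ R e d)
    (h4 : R e f ∨ R f e) (hbd : b ≠ d) (hce : c ≠ e) (hdf : d ≠ f) :
    (R b c ∧ R c d ∧ R d e ∧ R e f) ∨ (R c b ∧ R d c ∧ R e d ∧ R f e) := by
  rcases hT b c d h1 h2 hbd with ⟨a1, a2⟩ | ⟨a1, a2⟩
  · rcases hT c d e h2 h3 hce with ⟨b1, b2⟩ | ⟨b1, b2⟩
    · rcases hT d e f h3 h4 hdf with ⟨c1, c2⟩ | ⟨c1, c2⟩
      · exact Or.inl ⟨a1, a2, b2, c2⟩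
      · exact (hA _ _ b2 c1).elim
    · exact (hA _ _ a2 b1).elim
  · rcases hT c d e h2 h3 hce with ⟨b1, b2⟩ | ⟨b1, b2⟩
    · exact (hA _ _ a2 b1).elim
    · rcases hT d e f h3 h4 hdf with ⟨c1, c2⟩ | ⟨c1, c2⟩
      · exact (hA _ _ b2 c1).elim
      · exact Or.inr ⟨a1, a2, b2, c2⟩

lemma end0 {g b c d e f : ℕ} (h1 : nx0 g b c) (h2 : nx0 g c d) (h3 : nx0 g d e)
    (h4 : nx0 g e f) : b + 3 = g ∧ f = g + 2 := by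
  rcases h1 with ⟨k1, k2⟩ | ⟨k1, k2⟩ | ⟨k1, k2⟩ | ⟨k1, k2⟩
  · have k3 := (st0 h2).2.1 k2
    have k4 := (st0 h3).2.2.1 k3
    have k5 := (st0 h4).2.2.2 k4
    exact ⟨k1, k5⟩
  · have k3 := (st0 h2).2.2.1 k2
    have k4 := (st0 h3).2.2.2 k3
    rcases h4 with ⟨k5, -⟩ | ⟨k5, -⟩ | ⟨k5, -⟩ | ⟨k5, -⟩ <;> omega
  · have k3 := (st0 h2).2.2.2 k2
    rcases h3 with ⟨k5, -⟩ | ⟨k5, -⟩ | ⟨k5, -⟩ | ⟨k5, -⟩ <;> omega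
  · rcases h2 with ⟨k5, -⟩ | ⟨k5, -⟩ | ⟨k5, -⟩ | ⟨k5, -⟩ <;> omega

lemma end1 {g b c d e f : ℕ} (h1 : nx1 g b c) (h2 : nx1 g c d) (h3 : nx1 g d e)
    (h4 : nx1 g e f) : b + 3 = g ∧ f = g + 2 := by
  rcases h1 with ⟨k1, k2⟩ | ⟨k1, k2⟩ | ⟨k1, k2⟩ | ⟨k1, k2⟩
  · have k3 := (st1 h2).2.1 k2
    have k4 := (st1 h3).2.2.1 k3
    have k5 := (st1 h4).2.2.2 k4
    exact ⟨k1, k5⟩
  · have k3 := (st1 h2).2.2.1 k2
    have k4 := (st1 h3).2.2.2 k3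
    rcases h4 with ⟨k5, -⟩ | ⟨k5, -⟩ | ⟨k5, -⟩ | ⟨k5, -⟩ <;> omega
  · have k3 := (st1 h2).2.2.2 k2
    rcases h3 with ⟨k5, -⟩ | ⟨k5, -⟩ | ⟨k5, -⟩ | ⟨k5, -⟩ <;> omega
  · rcases h2 with ⟨k5, -⟩ | ⟨k5, -⟩ | ⟨k5, -⟩ | ⟨k5, -⟩ <;> omega

lemma end4 {g b c d e f : ℕ} (h1 : nx4 g b c) (h2 : nx4 g c d) (h3 : nx4 g d e)
    (h4 : nx4 g e f) :
    (b + 4 = g ∧ c + 2 = g ∧ d = g + 1 ∧ e = g + 2 ∧ f + 1 = g) ∨
    (b + 2 = g ∧ c = g + 1 ∧ d = g + 2 ∧ e + 1 = g ∧ f + 3 = g) ∨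
    (b = g + 1 ∧ c = g + 2 ∧ d + 1 = g ∧ e + 3 = g ∧ f + 4 = g) ∨
    (b = g + 2 ∧ c + 1 = g ∧ d + 3 = g ∧ e + 4 = g ∧ f + 2 = g) ∨
    (b + 1 = g ∧ c + 3 = g ∧ d + 4 = g ∧ e + 2 = g ∧ f = g + 1) ∨
    (b + 3 = g ∧ c + 4 = g ∧ d + 2 = g ∧ e = g + 1 ∧ f = g + 2) := by
  rcases h1 with ⟨k1, k2⟩ | ⟨k1, k2⟩ | ⟨k1, k2⟩ | ⟨k1, k2⟩ | ⟨k1, k2⟩ | ⟨k1, k2⟩
  · have k3 := (st4 h2).2.1 k2
    have k4 := (st4 h3).2.2.1 k3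
    have k5 := (st4 h4).2.2.2.1 k4
    exact Or.inl ⟨k1, k2, k3, k4, k5⟩
  · have k3 := (st4 h2).2.2.1 k2
    have k4 := (st4 h3).2.2.2.1 k3
    have k5 := (st4 h4).2.2.2.2.1 k4
    exact Or.inr (Or.inl ⟨k1, k2, k3, k4, k5⟩)
  · have k3 := (st4 h2).2.2.2.1 k2
    have k4 := (st4 h3).2.2.2.2.1 k3
    have k5 := (st4 h4).2.2.2.2.2 k4
    exact Or.inr (Or.inr (Or.inl ⟨k1, k2, k3, k4, k5⟩))
  · have k3 := (st4 h2).2.2.2.2.1 k2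
    have k4 := (st4 h3).2.2.2.2.2 k3
    have k5 := (st4 h4).1 k4
    exact Or.inr (Or.inr (Or.inr (Or.inl ⟨k1, k2, k3, k4, k5⟩)))
  · have k3 := (st4 h2).2.2.2.2.2 k2
    have k4 := (st4 h3).1 k3
    have k5 := (st4 h4).2.1 k4
    exact Or.inr (Or.inr (Or.inr (Or.inr (Or.inl ⟨k1, k2, k3, k4, k5⟩))))
  · have k3 := (st4 h2).1 k2
    have k4 := (st4 h3).2.1 k3
    have k5 := (st4 h4).2.2.1 k4
    exact Or.inr (Or.inr (Or.inr (Or.inr (Or.inr (⟨k1, k2, k3, k4, k5⟩)))))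

lemma close4 {t g a b c d e f : ℕ} (hg : g % 5 = 4)
    (h1 : nx4 g b c) (h2 : nx4 g c d) (h3 : nx4 g d e) (h4 : nx4 g e f)
    (hb : ad t b a) (hf : ad t f a) (hag : a ≠ g) (hn : ¬ ad (t + 1) g a) : False := by
  have m1 : a ≠ g + 1 := fun h => hn (e41 hg h)
  have m2 : a ≠ g + 2 := fun h => hn (e42 hg h)
  have m3 : a + 1 ≠ g := fun h => hn (ad_symm (e31 (by omega) h.symm))
  have m4 : a + 2 ≠ g := fun h => hn (ad_symm (e22 (by omega) h.symm))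
  have m5 : a + 3 ≠ g := fun h => hn (ad_symm (e13 (by omega) h.symm))
  have m6 : a + 4 ≠ g := fun h => hn (ad_symm (e04 (by omega) h.symm))
  rcases end4 h1 h2 h3 h4 with ⟨k1, -, -, -, k2⟩ | ⟨k1, -, -, -, k2⟩ | ⟨k1, -, -, -, k2⟩ | ⟨k1, -, -, -, k2⟩ | ⟨k1, -, -, -, k2⟩ | ⟨k1, -, -, -, k2⟩
  · rcases nbr0 (show b % 5 = 0 by omega) hb with k | k | k | k | k <;>
    rcases nbr3 (show f % 5 = 3 by omega) hf with k' | k' | k' <;> omega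
  · rcases nbr2 (show b % 5 = 2 by omega) hb with k | k | k <;>
    rcases nbr1 (show f % 5 = 1 by omega) hf with k' | k' | k' | k' | k' <;> omega
  · rcases nbr0 (show b % 5 = 0 by omega) hb with k | k | k | k | k <;>
    rcases nbr0 (show f % 5 = 0 by omega) hf with k' | k' | k' | k' | k' <;> omega
  · rcases nbr1 (show b % 5 = 1 by omega) hb with k | k | k | k | k <;>
    rcases nbr2 (show f % 5 = 2 by omega) hf with k' | k' | k' <;> omega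
  · rcases nbr3 (show b % 5 = 3 by omega) hb with k | k | k <;>
    rcases nbr0 (show f % 5 = 0 by omega) hf with k' | k' | k' | k' | k' <;> omega
  · rcases nbr1 (show b % 5 = 1 by omega) hb with k | k | k | k | k <;>
    rcases nbr1 (show f % 5 = 1 by omega) hf with k' | k' | k' | k' | k' <;> omega

lemma small2 {t g b c d e : ℕ} (hg : g % 5 = 2 ∨ g % 5 = 3) (hb : ad t g b) (hc : ad t g c)
    (hd : ad t g d) (he : ad t g e) (h1 : b ≠ c) (h2 : c ≠ d) (h3 : d ≠ e) (h4 : b ≠ d)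
    (h5 : c ≠ e) (h6 : b ≠ e) : False := by
  rcases hg with hg | hg
  · rcases nbr2 hg hb with k1 | k1 | k1 <;> rcases nbr2 hg hc with k2 | k2 | k2 <;>
      first
      | exact h1 (by omega)
      | (rcases nbr2 hg hd with k3 | k3 | k3 <;> first
          | exact h2 (by omega)
          | exact h4 (by omega)
          | (rcases nbr2 hg he with k4 | k4 | k4 <;> exact h3 (by omega)))
  · rcases nbr3 hg hb with k1 | k1 | k1 <;> rcases nbr3 hg hc with k2 | k2 | k2 <;>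
      first
      | exact h1 (by omega)
      | (rcases nbr3 hg hd with k3 | k3 | k3 <;> first
          | exact h2 (by omega)
          | exact h4 (by omega)
          | (rcases nbr3 hg he with k4 | k4 | k4 <;> exact h3 (by omega)))

lemma close0 {t g a b f : ℕ} (hg : g % 5 = 0) (h : b + 3 = g ∧ f = g + 2)
    (hb : ad t b a) (hf : ad t f a) (hag : a ≠ g) : False := by
  obtain ⟨k1, k2⟩ := h
  rcases nbr2 (show b % 5 = 2 by omega) hb with k | k | k <;>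
  rcases nbr2 (show f % 5 = 2 by omega) hf with k' | k' | k' <;> omega

lemma close1 {t g a b f : ℕ} (hg : g % 5 = 1) (h : b + 3 = g ∧ f = g + 2)
    (hb : ad t b a) (hf : ad t f a) (hag : a ≠ g) : False := by
  obtain ⟨k1, k2⟩ := h
  rcases nbr3 (show b % 5 = 3 by omega) hb with k | k | k <;>
  rcases nbr3 (show f % 5 = 3 by omega) hf with k' | k' | k' <;> omega

lemma mod5 (g : ℕ) : g % 5 = 0 ∨ g % 5 = 1 ∨ g % 5 = 2 ∨ g % 5 = 3 ∨ g % 5 = 4 := by omega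

lemma spoke_case {t g a b c d e f : ℕ} (ha : ¬ ad (t + 1) g a) (hb : ad t g b) (hc : ad t g c)
    (hd : ad t g d) (he : ad t g e) (hf : ad t g f) (hbc : ad t b c) (hcd : ad t c d)
    (hde : ad t d e) (hef : ad t e f) (hfa : ad t f a) (hab : ad t a b)
    (h1 : b ≠ d) (h2 : c ≠ e) (h3 : d ≠ f) (h4 : b ≠ e) (h7 : a ≠ g) : False := by
  rcases mod5 g with hg | hg | hg | hg | hg
  · rcases path5 (turn0 g) (fun _ _ => asym0) (next0 hg hb hc hbc) (next0 hg hc hd hcd)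
      (next0 hg hd he hde) (next0 hg he hf hef) h1 h2 h3 with ⟨k1, k2, k3, k4⟩ | ⟨k1, k2, k3, k4⟩
    · exact close0 hg (end0 k1 k2 k3 k4) (ad_symm hab) hfa h7
    · exact close0 hg (end0 k4 k3 k2 k1) hfa (ad_symm hab) h7
  · rcases path5 (turn1 g) (fun _ _ => asym1) (next1 hg hb hc hbc) (next1 hg hc hd hcd)
      (next1 hg hd he hde) (next1 hg he hf hef) h1 h2 h3 with ⟨k1, k2, k3, k4⟩ | ⟨k1, k2, k3, k4⟩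
    · exact close1 hg (end1 k1 k2 k3 k4) (ad_symm hab) hfa h7
    · exact close1 hg (end1 k4 k3 k2 k1) hfa (ad_symm hab) h7
  · exact small2 (Or.inl hg) hb hc hd he (by rintro rfl; exact ad_irrefl hbc)
      (by rintro rfl; exact ad_irrefl hcd) (by rintro rfl; exact ad_irrefl hde) h1 h2 h4
  · exact small2 (Or.inr hg) hb hc hd he (by rintro rfl; exact ad_irrefl hbc)
      (by rintro rfl; exact ad_irrefl hcd) (by rintro rfl; exact ad_irrefl hde) h1 h2 h4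
  · rcases path5 (turn4 g) (fun _ _ => asym4) (next4 hg hb hc hbc) (next4 hg hc hd hcd)
      (next4 hg hd he hde) (next4 hg he hf hef) h1 h2 h3 with ⟨k1, k2, k3, k4⟩ | ⟨k1, k2, k3, k4⟩
    · exact close4 hg k1 k2 k3 k4 (ad_symm hab) hfa h7 ha
    · exact close4 hg k4 k3 k2 k1 hfa (ad_symm hab) h7 ha

lemma ad_time {t p : ℕ} (hp : p % 5 = 0) (h : ad t p (p + 1)) : p / 5 ≤ t := by
  rcases h with (⟨h1, ⟨-, h⟩ | h | h⟩ | ⟨h1, h | h⟩ | ⟨h1, h | h⟩ | ⟨h1, h | h⟩ | ⟨h1, h | h⟩) |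
    (⟨h1, ⟨h, -⟩ | h | h⟩ | ⟨h1, h | h⟩ | ⟨h1, h | h⟩ | ⟨h1, h | h⟩ | ⟨h1, h | h⟩) <;> omega


lemma rim4 {t g a b c d e f : ℕ} (hg : g % 5 = 4) (hab : ad t a b) (hbc : ad t b c)
    (hcd : ad t c d) (hde : ad t d e) (hef : ad t e f)
    (h0 : nx4 g a b) (h1 : nx4 g b c) (h2 : nx4 g c d) (h3 : nx4 g d e) (h4 : nx4 g e f) :
    ad (t + 1) f a := by
  rcases end4 h1 h2 h3 h4 with ⟨k1, k2, k3, k4, k5⟩ | ⟨k1, k2, k3, k4, k5⟩ | ⟨k1, k2, k3, k4, k5⟩ | ⟨k1, k2, k3, k4, k5⟩ | ⟨k1, k2, k3, k4, k5⟩ | ⟨k1, k2, k3, k4, k5⟩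
  · have ha : a + 3 = g := by
      rcases h0 with ⟨h0, h0'⟩ | ⟨h0, h0'⟩ | ⟨h0, h0'⟩ | ⟨h0, h0'⟩ | ⟨h0, h0'⟩ | ⟨h0, h0'⟩ <;> omega
    exact ad_symm (e12 (show a % 5 = 1 by omega) (by omega))
  · have ha : a + 4 = g := by
      rcases h0 with ⟨h0, h0'⟩ | ⟨h0, h0'⟩ | ⟨h0, h0'⟩ | ⟨h0, h0'⟩ | ⟨h0, h0'⟩ | ⟨h0, h0'⟩ <;> omega
    have ht : c / 5 ≤ t := by
      refine ad_time (show c % 5 = 0 by omega) ?_
      have hy : c + 1 = d := by omega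
      rw [hy]
      exact hcd
    exact ad_symm (e01 (show a % 5 = 0 by omega) (by omega) (by omega))
  · have ha : a + 2 = g := by
      rcases h0 with ⟨h0, h0'⟩ | ⟨h0, h0'⟩ | ⟨h0, h0'⟩ | ⟨h0, h0'⟩ | ⟨h0, h0'⟩ | ⟨h0, h0'⟩ <;> omega
    exact e02 (show f % 5 = 0 by omega) (by omega)
  · have ha : a = g + 1 := by
      rcases h0 with ⟨h0, h0'⟩ | ⟨h0, h0'⟩ | ⟨h0, h0'⟩ | ⟨h0, h0'⟩ | ⟨h0, h0'⟩ | ⟨h0, h0'⟩ <;> omega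
    exact e23 (show f % 5 = 2 by omega) (by omega)
  · have ha : a = g + 2 := by
      rcases h0 with ⟨h0, h0'⟩ | ⟨h0, h0'⟩ | ⟨h0, h0'⟩ | ⟨h0, h0'⟩ | ⟨h0, h0'⟩ | ⟨h0, h0'⟩ <;> omega
    have ht : d / 5 ≤ t := by
      refine ad_time (show d % 5 = 0 by omega) ?_
      have hy : d + 1 = c := by omega
      rw [hy]
      exact ad_symm hcd
    exact e01 (show f % 5 = 0 by omega) (by omega) (by omega)
  · have ha : a + 1 = g := by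
      rcases h0 with ⟨h0, h0'⟩ | ⟨h0, h0'⟩ | ⟨h0, h0'⟩ | ⟨h0, h0'⟩ | ⟨h0, h0'⟩ | ⟨h0, h0'⟩ <;> omega
    exact ad_symm (e33 (show a % 5 = 3 by omega) (by omega))

lemma no6_0 {g a b c d e f : ℕ} (h0 : nx0 g a b) (h1 : nx0 g b c) (h2 : nx0 g c d)
    (h3 : nx0 g d e) (h4 : nx0 g e f) : False := by
  have k := (end0 h1 h2 h3 h4).1
  rcases h0 with ⟨-, h⟩ | ⟨-, h⟩ | ⟨-, h⟩ | ⟨-, h⟩ <;> omega

lemma no6_1 {g a b c d e f : ℕ} (h0 : nx1 g a b) (h1 : nx1 g b c) (h2 : nx1 g c d)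
    (h3 : nx1 g d e) (h4 : nx1 g e f) : False := by
  have k := (end1 h1 h2 h3 h4).1
  rcases h0 with ⟨-, h⟩ | ⟨-, h⟩ | ⟨-, h⟩ | ⟨-, h⟩ <;> omega

lemma path6 {R : ℕ → ℕ → Prop} (hT : Turn R) (hA : ∀ p q, R p q → R q p → False)
    {a b c d e f : ℕ} (h0 : R a b ∨ R b a) (h1 : R b c ∨ R c b) (h2 : R c d ∨ R d c)
    (h3 : R d e ∨ R e d) (h4 : R e f ∨ R f e) (hac : a ≠ c) (hbd : b ≠ d) (hce : c ≠ e)
    (hdf : d ≠ f) :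
    (R a b ∧ R b c ∧ R c d ∧ R d e ∧ R e f) ∨ (R b a ∧ R c b ∧ R d c ∧ R e d ∧ R f e) := by
  rcases path5 hT hA h1 h2 h3 h4 hbd hce hdf with ⟨k1, k2, k3, k4⟩ | ⟨k1, k2, k3, k4⟩
  · rcases hT a b c h0 h1 hac with ⟨c1, c2⟩ | ⟨c1, c2⟩
    · exact Or.inl ⟨c1, k1, k2, k3, k4⟩
    · exact (hA _ _ k1 c2).elim
  · rcases hT a b c h0 h1 hac with ⟨c1, c2⟩ | ⟨c1, c2⟩
    · exact (hA _ _ k1 c2).elim
    · exact Or.inr ⟨c1, k1, k2, k3, k4⟩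

lemma rim_case {t g a b c d e f : ℕ} (ha : ad t g a) (hb : ad t g b) (hc : ad t g c)
    (hd : ad t g d) (he : ad t g e) (hf : ad t g f) (hab : ad t a b) (hbc : ad t b c)
    (hcd : ad t c d) (hde : ad t d e) (hef : ad t e f)
    (h1 : b ≠ d) (h2 : c ≠ e) (h3 : d ≠ f) (h4 : b ≠ e) (h9 : a ≠ c) : ad (t + 1) f a := by
  rcases mod5 g with hg | hg | hg | hg | hg
  · rcases path6 (turn0 g) (fun _ _ => asym0) (next0 hg ha hb hab) (next0 hg hb hc hbc)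
      (next0 hg hc hd hcd) (next0 hg hd he hde) (next0 hg he hf hef) h9 h1 h2 h3 with
      ⟨k0, k1, k2, k3, k4⟩ | ⟨k0, k1, k2, k3, k4⟩
    · exact (no6_0 k0 k1 k2 k3 k4).elim
    · exact (no6_0 k4 k3 k2 k1 k0).elim
  · rcases path6 (turn1 g) (fun _ _ => asym1) (next1 hg ha hb hab) (next1 hg hb hc hbc)
      (next1 hg hc hd hcd) (next1 hg hd he hde) (next1 hg he hf hef) h9 h1 h2 h3 with
      ⟨k0, k1, k2, k3, k4⟩ | ⟨k0, k1, k2, k3, k4⟩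
    · exact (no6_1 k0 k1 k2 k3 k4).elim
    · exact (no6_1 k4 k3 k2 k1 k0).elim
  · exact (small2 (Or.inl hg) hb hc hd he (by rintro rfl; exact ad_irrefl hbc)
      (by rintro rfl; exact ad_irrefl hcd) (by rintro rfl; exact ad_irrefl hde) h1 h2 h4).elim
  · exact (small2 (Or.inr hg) hb hc hd he (by rintro rfl; exact ad_irrefl hbc)
      (by rintro rfl; exact ad_irrefl hcd) (by rintro rfl; exact ad_irrefl hde) h1 h2 h4).elim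
  · rcases path6 (turn4 g) (fun _ _ => asym4) (next4 hg ha hb hab) (next4 hg hb hc hbc)
      (next4 hg hc hd hcd) (next4 hg hd he hde) (next4 hg he hf hef) h9 h1 h2 h3 with
      ⟨k0, k1, k2, k3, k4⟩ | ⟨k0, k1, k2, k3, k4⟩
    · exact rim4 hg hab hbc hcd hde hef k0 k1 k2 k3 k4
    · exact ad_symm (rim4 hg (ad_symm hef) (ad_symm hde) (ad_symm hcd) (ad_symm hbc)
        (ad_symm hab) k4 k3 k2 k1 k0)

end Pool.Agent.X212.Boot
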