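import Pool.Agent.X212.BootLower
import Pool.Agent.X212.BootChain
set_option autoImplicit false
set_option linter.unusedVariables false
namespace Pool.Agent.X212.Boot

lemma ed_mono {s t v w : ℕ} (h : s ≤ t) (hv : ed s v w) : ed t v w := by
  rcases hv with ⟨h1, ⟨h2, h3⟩ | h2⟩ | h1
  · exact Or.inl ⟨h1, Or.inl ⟨h2, h3.trans h⟩⟩
  · exact Or.inl ⟨h1, Or.inr h2⟩
  · exact Or.inr h1

lemma ad_mono {s t v w : ℕ} (h : s ≤ t) (hv : ad s v w) : ad t v w :=
  hv.imp (ed_mono h) (ed_mono h)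

/-- The chain of wheels on `n` vertices; the edge `5 i, 5 i + 1` is present for `i ≤ t`. -/
def chain (n t : ℕ) : SimpleGraph (Fin n) where
  Adj v w := ad t v w
  symm := ⟨fun _ _ h => ad_symm h⟩
  loopless := ⟨fun v h => ad_irrefl h⟩

lemma d24 (k : Fin 6) : k + 2 ≠ k + 4 := by revert k; decide
lemma d35 (k : Fin 6) : k + 3 ≠ k + 5 := by revert k; decide
lemma d14 (k : Fin 6) : k + 1 ≠ k + 4 := by revert k; decide
lemma d25 (k : Fin 6) : k + 2 ≠ k + 5 := by revert k; decide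

lemma spoke_ne {V : Type} {g : V} {r : Fin 6 → V} (hr : Function.Injective r)
    (hub : ∀ j, r j ≠ g) {i j : Fin 6} (h : s(g, r i) = s(g, r j)) : i = j := by
  rw [Sym2.eq_iff] at h
  rcases h with ⟨-, h⟩ | ⟨h, -⟩
  · exact hr h
  · exact (hub j h.symm).elim

lemma spoke_rim {V : Type} {g : V} {r : Fin 6 → V} (hub : ∀ j, r j ≠ g) (i j : Fin 6) :
    s(g, r i) ≠ s(r j, r (j + 1)) := by
  intro h
  rw [Sym2.eq_iff] at h
  rcases h with ⟨h, -⟩ | ⟨h, -⟩
  · exact hub j h.symm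
  · exact hub (j + 1) h.symm

lemma chain_step (n t : ℕ) : step W6 (chain n t) ≤ chain n (t + 1) := by
  rintro y z (h | ⟨hne, h⟩)
  · exact ad_mono (Nat.le_succ t) h
  obtain ⟨g, r, hw, he⟩ := completes_w6 h
  have hval : ∀ {i j : Fin 6}, i ≠ j → (r i : ℕ) ≠ r j := fun hij h =>
    hij (hw.inj (Fin.ext h))
  have hhub : ∀ j, (r j : ℕ) ≠ g := fun j h => hw.hub j (Fin.ext h)
  rcases he with ⟨j, hj⟩ | ⟨j, hj⟩
  · have hsp : ∀ i, i ≠ j → ad t g (r i) := by
      intro i hi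
      rcases hw.spoke i with h | h
      · exact h
      · exact (hi (spoke_ne hw.inj hw.hub (h.trans hj.symm))).elim
    have hrim : ∀ i, ad t (r i) (r (i + 1)) := by
      intro i
      rcases hw.rim i with h | h
      · exact h
      · exact (spoke_rim hw.hub j i (hj.trans h.symm)).elim
    have key : ad (t + 1) g (r j) := by
      by_contra hnot
      have r1 := hrim (j + 1)
      have r2 := hrim (j + 2)
      have r3 := hrim (j + 3)
      have r4 := hrim (j + 4)
      have r5 := hrim (j + 5)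
      rw [s1] at r1
      rw [s2] at r2
      rw [s3] at r3
      rw [s4] at r4
      rw [s5] at r5
      exact spoke_case hnot (hsp _ (q1 j)) (hsp _ (q2 j)) (hsp _ (q3 j)) (hsp _ (q4 j))
        (hsp _ (q5 j)) r1 r2 r3 r4 r5 (hrim j)
        (hval (d13 j)) (hval (d24 j)) (hval (d35 j)) (hval (d14 j)) (hhub j)
    rw [Sym2.eq_iff] at hj
    rcases hj with ⟨rfl, rfl⟩ | ⟨rfl, rfl⟩
    · exact key
    · exact ad_symm key
  · have hsp : ∀ i, ad t g (r i) := by
      intro i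
      rcases hw.spoke i with h | h
      · exact h
      · exact (spoke_rim hw.hub i j (h.trans hj.symm)).elim
    have hrim : ∀ i, i ≠ j → ad t (r i) (r (i + 1)) := by
      intro i hi
      rcases hw.rim i with h | h
      · exact h
      · exact (hi (rim_inj hw.inj (h.trans hj.symm))).elim
    have r1 := hrim (j + 1) (q1 j)
    have r2 := hrim (j + 2) (q2 j)
    have r3 := hrim (j + 3) (q3 j)
    have r4 := hrim (j + 4) (q4 j)
    have r5 := hrim (j + 5) (q5 j)
    rw [s1] at r1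
    rw [s2] at r2
    rw [s3] at r3
    rw [s4] at r4
    rw [s5] at r5
    have key : ad (t + 1) (r j) (r (j + 1)) :=
      rim_case (hsp (j + 1)) (hsp (j + 2)) (hsp (j + 3)) (hsp (j + 4)) (hsp (j + 5)) (hsp j)
        r1 r2 r3 r4 r5
        (hval (d24 j)) (hval (d35 j)) (hval (q4 j)) (hval (d25 j)) (hval (d13 j))
    rw [Sym2.eq_iff] at hj
    rcases hj with ⟨rfl, rfl⟩ | ⟨rfl, rfl⟩
    · exact key
    · exact ad_symm key

lemma chain_iter (n t : ℕ) : (step W6)^[t] (chain n 0) ≤ chain n t := by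
  induction t with
  | zero => exact le_rfl
  | succ t ih =>
    rw [Function.iterate_succ_apply']
    exact (step_mono ih).trans (chain_step n t)

/-- The rim of the `j`-th wheel of the chain. -/
def cw (j : ℕ) (a : Fin 6) : ℕ :=
  match a with
  | 0 => 5 * j
  | 1 => 5 * j + 2
  | 2 => 5 * j + 5
  | 3 => 5 * j + 6
  | 4 => 5 * j + 3
  | 5 => 5 * j + 1

lemma all6 {P : Fin 6 → Prop} (h0 : P 0) (h1 : P 1) (h2 : P 2) (h3 : P 3) (h4 : P 4) (h5 : P 5) :
    ∀ a, P a := by
  intro a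
  match a with
  | 0 => exact h0
  | 1 => exact h1
  | 2 => exact h2
  | 3 => exact h3
  | 4 => exact h4
  | 5 => exact h5

lemma cw_le (j : ℕ) : ∀ a, cw j a ≤ 5 * j + 6 :=
  all6 (by show 5 * j ≤ _; omega) (by show 5 * j + 2 ≤ _; omega) (by show 5 * j + 5 ≤ _; omega)
    (by show 5 * j + 6 ≤ _; omega) (by show 5 * j + 3 ≤ _; omega) (by show 5 * j + 1 ≤ _; omega)

lemma cw_ne (j : ℕ) : ∀ a, cw j a ≠ 5 * j + 4 :=
  all6 (by show 5 * j ≠ _; omega) (by show 5 * j + 2 ≠ _; omega) (by show 5 * j + 5 ≠ _; omega)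
    (by show 5 * j + 6 ≠ _; omega) (by show 5 * j + 3 ≠ _; omega) (by show 5 * j + 1 ≠ _; omega)

/-- The place of a vertex on the rim. -/
def pos6 (k : ℕ) : Fin 6 :=
  match k with
  | 0 => 0
  | 2 => 1
  | 5 => 2
  | 6 => 3
  | 3 => 4
  | _ => 5

lemma cw_pos (j : ℕ) : ∀ a, pos6 (cw j a - 5 * j) = a :=
  all6 (by rw [show cw j 0 - 5 * j = 0 by show 5 * j - 5 * j = 0; omega]; rfl)
    (by rw [show cw j 1 - 5 * j = 2 by show 5 * j + 2 - 5 * j = 2; omega]; rfl)
    (by rw [show cw j 2 - 5 * j = 5 by show 5 * j + 5 - 5 * j = 5; omega]; rfl)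
    (by rw [show cw j 3 - 5 * j = 6 by show 5 * j + 6 - 5 * j = 6; omega]; rfl)
    (by rw [show cw j 4 - 5 * j = 3 by show 5 * j + 3 - 5 * j = 3; omega]; rfl)
    (by rw [show cw j 5 - 5 * j = 1 by show 5 * j + 1 - 5 * j = 1; omega]; rfl)

lemma cw_inj {j : ℕ} {a b : Fin 6} (h : cw j a = cw j b) : a = b := by
  rw [← cw_pos j a, ← cw_pos j b, h]

lemma cw_spoke (j : ℕ) : ∀ a, ad 0 (5 * j + 4) (cw j a) :=
  all6 (ad_symm (e04 (v := 5 * j) (w := 5 * j + 4) (by omega) rfl))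
    (ad_symm (e22 (v := 5 * j + 2) (w := 5 * j + 4) (by omega) rfl))
    (e41 (v := 5 * j + 4) (w := 5 * j + 5) (by omega) rfl)
    (e42 (v := 5 * j + 4) (w := 5 * j + 6) (by omega) rfl)
    (ad_symm (e31 (v := 5 * j + 3) (w := 5 * j + 4) (by omega) rfl))
    (ad_symm (e13 (v := 5 * j + 1) (w := 5 * j + 4) (by omega) rfl))

lemma cw_rim (j : ℕ) : ∀ a, a ≠ 2 → a ≠ 5 → ad 0 (cw j a) (cw j (a + 1)) :=
  all6 (fun _ _ => e02 (v := 5 * j) (w := 5 * j + 2) (by omega) rfl)
    (fun _ _ => e23 (v := 5 * j + 2) (w := 5 * j + 5) (by omega) rfl)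
    (fun h _ => (h rfl).elim)
    (fun _ _ => ad_symm (e33 (v := 5 * j + 3) (w := 5 * j + 6) (by omega) rfl))
    (fun _ _ => ad_symm (e12 (v := 5 * j + 1) (w := 5 * j + 3) (by omega) rfl))
    (fun _ h => (h rfl).elim)

lemma chain_grow (n : ℕ) : ∀ j (hj : 5 * j + 1 < n),
    ((step W6)^[j] (chain n 0)).Adj ⟨5 * j, by omega⟩ ⟨5 * j + 1, hj⟩ := by
  intro j
  induction j with
  | zero =>
    intro hj
    exact e01 (v := 5 * 0) (w := 5 * 0 + 1) (by omega) rfl (by omega)
  | succ j ih =>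
    intro hj
    have h1 := ih (by omega)
    rw [Function.iterate_succ_apply']
    have h0 : chain n 0 ≤ (step W6)^[j] (chain n 0) :=
      iter_mono (H := W6) (G := chain n 0) (Nat.zero_le j)
    set S := (step W6)^[j] (chain n 0) with hS
    refine Or.inr ⟨fun h => ?_, ?_⟩
    · have := Fin.ext_iff.1 h
      dsimp only at this
      omega
    have hr : ∀ a : Fin 6, cw j a < n := fun a => lt_of_le_of_lt (cw_le j a) (by omega)
    refine w6_completes (g := ⟨5 * j + 4, by omega⟩) (r := fun a => ⟨cw j a, hr a⟩)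
      ⟨?_, ?_, ?_, ?_⟩ (Or.inr ⟨2, ?_⟩)
    · intro a b hab
      exact cw_inj (Fin.ext_iff.1 hab)
    · intro a ha
      exact cw_ne j a (Fin.ext_iff.1 ha)
    · intro a
      exact Or.inl (h0 (cw_spoke j a))
    · intro a
      by_cases ha2 : a = 2
      · subst ha2
        exact Or.inr rfl
      by_cases ha5 : a = 5
      · subst ha5
        exact Or.inl h1.symm
      · exact Or.inl (h0 (cw_rim j a ha2 ha5))
    · rfl

lemma chain_unstable {n t : ℕ} (hn : 5 * (t + 1) + 1 < n) :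
    (step W6)^[t] (chain n 0) ≠ (step W6)^[t + 1] (chain n 0) := by
  intro h
  have h1 := chain_grow n (t + 1) hn
  rw [← h] at h1
  have h2 : ad t (5 * (t + 1)) (5 * (t + 1) + 1) := chain_iter n t h1
  have h3 := ad_time (by omega) h2
  omega

/-- The linear lower bound for the wheel. -/
lemma w6_lower (n : ℕ) : (n - 2) / 5 ≤ maxTime W6 n := by
  refine le_trans (le_runTime fun s hs => ?_) (le_maxTime _ (chain n 0))
  exact chain_unstable (by omega)

end Pool.Agent.X212.Boot
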