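import Mathlib

set_option autoImplicit false

/-!
# Short uncountable linear orders contain sets of size `ℵ₁` which map onto `ℚ`
-/

namespace Pool.Agent.X212.ShortOrders

open Cardinal Set

universe u

variable {L : Type u} [LinearOrder L]

/-- Every subset of a linear order has a well-founded cofinal subset. -/
theorem exists_wf_cofinal (A : Set L) :
    ∃ S : Set L, S ⊆ A ∧ S.WellFoundedOn (· < ·) ∧ ∀ x ∈ A, ∃ a ∈ S, x ≤ a := by
  classical
  let r : L → L → Prop := WellOrderingRel
  have hwf : WellFounded r := IsWellFounded.wf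
  refine ⟨{a | a ∈ A ∧ ∀ b ∈ A, r b a → b < a}, fun a ha => ha.1, ?_, ?_⟩
  · rw [Set.wellFoundedOn_iff]
    refine Subrelation.wf (r := r) ?_ hwf
    rintro a b ⟨hab, ha, hb⟩
    rcases trichotomous_of r a b with h | h | h
    · exact h
    · exact absurd hab (by rw [h]; exact lt_irrefl _)
    · exact absurd (ha.2 b hb.1 h) (not_lt.2 hab.le)
  · intro x hx
    obtain ⟨a, ⟨haA, hxa⟩, hmin⟩ := hwf.has_min {a | a ∈ A ∧ x ≤ a} ⟨x, hx, le_rfl⟩
    refine ⟨a, ⟨haA, fun b hb hba => ?_⟩, hxa⟩
    by_contra hcon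
    exact hmin b ⟨hb, hxa.trans (not_lt.1 hcon)⟩ hba

/-- If all well-ordered sets are countable then a set all of whose proper initial segments are
countable is countable. -/
theorem countable_of_initial (h1 : ∀ S : Set L, S.WellFoundedOn (· < ·) → S.Countable)
    (A : Set L) (hA : ∀ a ∈ A, (A ∩ Iic a).Countable) : A.Countable := by
  obtain ⟨S, hSA, hwf, hcof⟩ := exists_wf_cofinal A
  have hS := h1 S hwf
  refine (hS.biUnion fun a ha => hA a (hSA ha)).mono fun x hx => ?_
  obtain ⟨a, ha, hxa⟩ := hcof x hx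
  exact mem_iUnion₂.2 ⟨a, ha, hx, hxa⟩

/-- The dual statement. -/
theorem countable_of_final (h2 : ∀ S : Set L, S.WellFoundedOn (· > ·) → S.Countable)
    (A : Set L) (hA : ∀ a ∈ A, (A ∩ Ici a).Countable) : A.Countable := by
  have := countable_of_initial (L := Lᵒᵈ) (fun S hS => ?_) (OrderDual.ofDual ⁻¹' A)
    (fun a ha => ?_)
  · exact this
  · exact h2 S hS
  · exact hA a ha

/-- Two points are close if there are only countably many points of `K` between them. -/
def Close (K : Set L) (x y : L) : Prop := (K ∩ uIcc x y).Countable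

theorem Close.symm {K : Set L} {x y : L} (h : Close K x y) : Close K y x := by
  unfold Close at *
  rwa [uIcc_comm]

theorem Close.refl (K : Set L) (x : L) : Close K x x := by
  unfold Close
  rw [uIcc_self]
  exact (countable_singleton x).mono inter_subset_right

theorem Close.trans {K : Set L} {x y z : L} (h : Close K x y) (h' : Close K y z) :
    Close K x z := by
  unfold Close at *
  refine (h.union h').mono ?_
  rw [← inter_union_distrib_left]
  exact inter_subset_inter_right _ uIcc_subset_uIcc_union_uIcc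

theorem Close.mono {K : Set L} {x y a b : L} (h : Close K x y) (ha : a ∈ uIcc x y)
    (hb : b ∈ uIcc x y) : Close K a b := by
  unfold Close at *
  exact h.mono (inter_subset_inter_right _ (uIcc_subset_uIcc ha hb))

theorem class_countable (h1 : ∀ S : Set L, S.WellFoundedOn (· < ·) → S.Countable)
    (h2 : ∀ S : Set L, S.WellFoundedOn (· > ·) → S.Countable) (K : Set L) (x : L) :
    {y | y ∈ K ∧ Close K x y}.Countable := by
  have hup : {y | y ∈ K ∧ Close K x y ∧ x ≤ y}.Countable := by
    apply countable_of_initial h1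
    rintro a ⟨haK, hxa, hle⟩
    refine Set.Countable.mono ?_ hxa
    rintro y ⟨⟨hyK, hxy, hxley⟩, hya⟩
    refine ⟨hyK, ?_⟩
    rw [uIcc_of_le hle]
    exact ⟨hxley, hya⟩
  have hdn : {y | y ∈ K ∧ Close K x y ∧ y ≤ x}.Countable := by
    apply countable_of_final h2
    rintro a ⟨haK, hxa, hle⟩
    refine Set.Countable.mono ?_ hxa
    rintro y ⟨⟨hyK, hxy, hxley⟩, hya⟩
    refine ⟨hyK, ?_⟩
    rw [uIcc_of_ge hle]
    exact ⟨hya, hxley⟩
  refine (hup.union hdn).mono ?_
  rintro y ⟨hyK, hxy⟩
  rcases le_total x y with h | h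
  · exact Or.inl ⟨hyK, hxy, h⟩
  · exact Or.inr ⟨hyK, hxy, h⟩

/-- In a short linear order, every set `K` of cardinality `ℵ₁` contains a family of pairwise
disjoint uncountable blocks which are ordered like the rationals. -/
theorem exists_blocks (h1 : ∀ S : Set L, S.WellFoundedOn (· < ·) → S.Countable)
    (h2 : ∀ S : Set L, S.WellFoundedOn (· > ·) → S.Countable) (K : Set L)
    (hK : ¬ K.Countable) :
    ∃ B : ℚ → Set L, (∀ q, B q ⊆ K) ∧ (∀ q, ¬ (B q).Countable) ∧
      ∀ p q, p < q → ∀ x ∈ B p, ∀ y ∈ B q, x < y := by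
  classical
  -- representatives
  let st : Setoid K :=
    { r := fun x y => Close K x.1 y.1
      iseqv := ⟨fun x => Close.refl K x.1, fun h => h.symm, fun h h' => h.trans h'⟩ }
  let rep : K → K := fun x => (Quotient.mk st x).out
  have hrep : ∀ x : K, Close K (rep x).1 x.1 := fun x => Quotient.exact (Quotient.out_eq (Quotient.mk st x))
  have hrep_eq : ∀ x y : K, Close K x.1 y.1 → rep x = rep y := by
    intro x y h
    have : Quotient.mk st x = Quotient.mk st y := Quotient.sound h
    simp only [rep, this]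
  have hrep_rep : ∀ x : K, rep (rep x) = rep x := fun x => hrep_eq _ _ (hrep x)
  let R : Set L := {z | ∃ x : K, (rep x).1 = z}
  have hRK : ∀ z ∈ R, z ∈ K := by
    rintro z ⟨x, rfl⟩
    exact (rep x).2
  have hR_far : ∀ z ∈ R, ∀ w ∈ R, Close K z w → z = w := by
    rintro z ⟨x, rfl⟩ w ⟨y, rfl⟩ h
    have := hrep_eq _ _ h
    rw [hrep_rep, hrep_rep] at this
    rw [this]
  have hdense : DenselyOrdered R := by
    refine ⟨?_⟩
    rintro ⟨r, hr⟩ ⟨s, hs⟩ hrs
    have hrs' : r < s := hrs
    by_contra hcon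
    push Not at hcon
    have hnc : ¬ Close K r s := fun h => hrs'.ne (hR_far r hr s hs h)
    apply hnc
    unfold Close
    refine ((class_countable h1 h2 K r).union (class_countable h1 h2 K s)).mono ?_
    rintro x ⟨hxK, hx⟩
    rw [uIcc_of_le hrs'.le] at hx
    -- representative of x
    let t : L := (rep ⟨x, hxK⟩).1
    have htR : t ∈ R := ⟨⟨x, hxK⟩, rfl⟩
    have htx : Close K t x := hrep ⟨x, hxK⟩
    rcases lt_trichotomy t r with h | h | h
    · left
      refine ⟨hxK, ?_⟩
      refine htx.mono ?_ right_mem_uIcc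
      rw [uIcc_of_le (h.le.trans hx.1)]
      exact ⟨h.le, hx.1⟩
    · left
      refine ⟨hxK, ?_⟩
      rw [← h]
      exact htx
    · rcases lt_trichotomy t s with h' | h' | h'
      · exact absurd h' (not_lt.2 (hcon ⟨t, htR⟩ h))
      · right
        refine ⟨hxK, ?_⟩
        rw [← h']
        exact htx
      · right
        refine ⟨hxK, ?_⟩
        refine htx.mono ?_ right_mem_uIcc
        rw [uIcc_of_ge (hx.2.trans h'.le)]
        exact ⟨hx.2, h'.le⟩
  have hne : K.Nonempty := by
    rw [nonempty_iff_ne_empty]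
    rintro rfl
    exact hK countable_empty
  have hnontriv : Nontrivial R := by
    obtain ⟨x0, hx0⟩ := hne
    by_contra hcon
    rw [not_nontrivial_iff_subsingleton] at hcon
    apply hK
    refine (class_countable h1 h2 K (rep ⟨x0, hx0⟩).1).mono ?_
    intro x hx
    refine ⟨hx, ?_⟩
    have hr1 : (rep ⟨x0, hx0⟩).1 ∈ R := ⟨⟨x0, hx0⟩, rfl⟩
    have hr2 : (rep ⟨x, hx⟩).1 ∈ R := ⟨⟨x, hx⟩, rfl⟩
    have this : (⟨_, hr1⟩ : R) = ⟨_, hr2⟩ := Subsingleton.elim _ _
    have h3 : (rep ⟨x0, hx0⟩).1 = (rep ⟨x, hx⟩).1 := Subtype.mk_eq_mk.1 this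
    rw [h3]
    exact hrep ⟨x, hx⟩
  have : Countable (ℚ ×ₗ Bool) := inferInstanceAs (Countable (ℚ × Bool))
  obtain ⟨e⟩ := Order.embedding_from_countable_to_dense (ℚ ×ₗ Bool) R
  have hlt1 : ∀ q : ℚ, (e (toLex (q, false))).1 < (e (toLex (q, true))).1 := by
    intro q
    have : (toLex (q, false) : ℚ ×ₗ Bool) < toLex (q, true) := by
      rw [Prod.Lex.toLex_lt_toLex]
      right
      exact ⟨rfl, Bool.false_lt_true⟩
    exact e.lt_iff_lt.2 this
  refine ⟨fun q => K ∩ Icc (e (toLex (q, false))).1 (e (toLex (q, true))).1,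
    fun q => inter_subset_left, ?_, ?_⟩
  · intro q hc
    have hcl : Close K (e (toLex (q, false))).1 (e (toLex (q, true))).1 := by
      unfold Close
      rw [uIcc_of_le (hlt1 q).le]
      exact hc
    exact (hlt1 q).ne (hR_far _ (e _).2 _ (e _).2 hcl)
  · intro p q hpq x hx y hy
    have h3 : (e (toLex (p, true))).1 < (e (toLex (q, false))).1 := by
      have : (toLex (p, true) : ℚ ×ₗ Bool) < toLex (q, false) := by
        rw [Prod.Lex.toLex_lt_toLex]
        left
        exact hpq
      exact e.lt_iff_lt.2 this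
    exact (hx.2.2.trans_lt h3).trans_le hy.2.1

/-- In a short linear order, every subset of cardinality `ℵ₁` contains a subset of cardinality
`ℵ₁` with a monotone map onto the rationals. -/
theorem exists_maps_onto (h1 : ∀ S : Set L, S.WellFoundedOn (· < ·) → S.Countable)
    (h2 : ∀ S : Set L, S.WellFoundedOn (· > ·) → S.Countable) (hL : ℵ₁ ≤ #L) :
    ∃ K : Set L, #K = ℵ₁ ∧ ∃ g : K → ℚ, Monotone g ∧ Function.Surjective g := by
  classical
  obtain ⟨K0, hK0⟩ := Cardinal.le_mk_iff_exists_set.1 hL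
  have hK0c : ¬ K0.Countable := by
    intro h
    have := Cardinal.le_aleph0_iff_set_countable.2 h
    rw [hK0] at this
    exact absurd this (not_le.2 Cardinal.aleph0_lt_aleph_one)
  obtain ⟨B, hBK, hBc, hB⟩ := exists_blocks h1 h2 K0 hK0c
  have hBne : ∀ q, (B q).Nonempty := by
    intro q
    rw [nonempty_iff_ne_empty]
    intro h
    apply hBc q
    rw [h]
    exact countable_empty
  refine ⟨⋃ q, B q, ?_, ?_⟩
  · apply le_antisymm
    · rw [← hK0]
      exact Cardinal.mk_le_mk_of_subset (iUnion_subset hBK)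
    · rw [← Cardinal.succ_aleph0, Order.succ_le_iff]
      by_contra hcon
      have := Cardinal.le_aleph0_iff_set_countable.1 (not_lt.1 hcon)
      exact hBc 0 (this.mono (subset_iUnion B 0))
  · have hmem : ∀ x : (⋃ q, B q : Set L), ∃ q, x.1 ∈ B q := fun x => mem_iUnion.1 x.2
    choose g hg using hmem
    refine ⟨g, ?_, ?_⟩
    · intro x y hxy
      by_contra hcon
      have h3 := hB _ _ (not_le.1 hcon) _ (hg y) _ (hg x)
      exact absurd h3 (not_lt.2 hxy)
    · intro q
      obtain ⟨x, hx⟩ := hBne q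
      refine ⟨⟨x, mem_iUnion.2 ⟨q, hx⟩⟩, ?_⟩
      have hx' := hg ⟨x, mem_iUnion.2 ⟨q, hx⟩⟩
      rcases lt_trichotomy (g ⟨x, mem_iUnion.2 ⟨q, hx⟩⟩) q with h | h | h
      · exact absurd (hB _ _ h _ hx' _ hx) (lt_irrefl _)
      · exact h
      · exact absurd (hB _ _ h _ hx _ hx') (lt_irrefl _)

end Pool.Agent.X212.ShortOrders
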