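import Mathlib

set_option autoImplicit false
set_option linter.unusedVariables false

namespace Pool.Agent.X212.Boot

/-- The pair `y, z` completes a copy of `H` in `G`: in `G` with the edge `yz` added there is a copy of
`H` which contains the edge `yz`. -/
def Completes {W V : Type} (H : SimpleGraph W) (G : SimpleGraph V) (y z : V) : Prop :=
  ∃ φ : W → V, Function.Injective φ ∧
    (∀ a b, H.Adj a b → G.Adj (φ a) (φ b) ∨ s(φ a, φ b) = s(y, z)) ∧
    ∃ a b, H.Adj a b ∧ s(φ a, φ b) = s(y, z)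

/-- One round of the `H`-process: all pairs which complete a copy of `H` are added. -/
def step {W V : Type} (H : SimpleGraph W) (G : SimpleGraph V) : SimpleGraph V where
  Adj y z := G.Adj y z ∨ (y ≠ z ∧ Completes H G y z)
  symm := ⟨by
    rintro y z (h | ⟨h, φ, hφ, h1, h2⟩)
    · exact Or.inl h.symm
    · exact Or.inr ⟨h.symm, φ, hφ, by rwa [Sym2.eq_swap], by rwa [Sym2.eq_swap]⟩⟩
  loopless := ⟨by
    rintro y (h | ⟨h, -⟩)
    · exact G.loopless.irrefl y h
    · exact h rfl⟩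

/-- The running time of the `H`-process on `G`. -/
noncomputable def runTime {W V : Type} (H : SimpleGraph W) (G : SimpleGraph V) : ℕ :=
  sInf {t | (step H)^[t] G = (step H)^[t + 1] G}

/-- The maximum running time of the `H`-process on graphs with `n` vertices. -/
noncomputable def maxTime {W : Type} (H : SimpleGraph W) (n : ℕ) : ℕ :=
  sSup (Set.range fun G : SimpleGraph (Fin n) => runTime H G)

/-- The graph `H` with a new vertex (`none`) which is joined only to `u`. -/
def pendant {W : Type} (H : SimpleGraph W) (u : W) : SimpleGraph (Option W) :=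
  SimpleGraph.fromRel fun a b => match a, b with
    | some a, some b => H.Adj a b
    | none, some b => b = u
    | _, none => False

/-- The wheel with six spokes: the hub `none` and the rim `some 0, ..., some 5`. -/
def W6 : SimpleGraph (Option (Fin 6)) :=
  SimpleGraph.fromRel fun a b => match a, b with
    | none, some _ => True
    | some i, some j => j = i + 1
    | _, none => False

section Basics

variable {W V : Type} {H : SimpleGraph W} {G G' : SimpleGraph V}

lemma le_step : G ≤ step H G := fun _ _ h => Or.inl h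

lemma step_mono (h : G ≤ G') : step H G ≤ step H G' := by
  rintro y z (h1 | ⟨hne, φ, hφ, h1, h2⟩)
  · exact Or.inl (h h1)
  · exact Or.inr ⟨hne, φ, hφ, fun a b hab => (h1 a b hab).imp (fun x => h x) id, h2⟩

lemma iter_le (t : ℕ) : (step H)^[t] G ≤ (step H)^[t + 1] G := by
  rw [Function.iterate_succ_apply']
  exact le_step

lemma iter_mono {s t : ℕ} (h : s ≤ t) : (step H)^[s] G ≤ (step H)^[t] G := by
  induction h with
  | refl => exact le_rfl
  | step _ ih => exact ih.trans (iter_le _)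

lemma exists_stable [Finite V] (H : SimpleGraph W) (G : SimpleGraph V) :
    ∃ t, (step H)^[t] G = (step H)^[t + 1] G := by
  classical
  obtain ⟨N, hN⟩ := WellFoundedGT.monotone_chain_condition
    (⟨fun t => (step H)^[t] G, fun s t h => iter_mono h⟩ : ℕ →o SimpleGraph V)
  exact ⟨N, hN (N + 1) (Nat.le_succ N)⟩

lemma runTime_le {t : ℕ} (h : (step H)^[t] G = (step H)^[t + 1] G) : runTime H G ≤ t :=
  Nat.sInf_le h

lemma le_runTime [Finite V] {m : ℕ} (h : ∀ t < m, (step H)^[t] G ≠ (step H)^[t + 1] G) :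
    m ≤ runTime H G := by
  by_contra hcon
  push Not at hcon
  exact h _ hcon (Nat.sInf_mem (exists_stable H G))

lemma maxTime_le {H : SimpleGraph W} {n B : ℕ} (h : ∀ G : SimpleGraph (Fin n), runTime H G ≤ B) :
    maxTime H n ≤ B := by
  apply csSup_le'
  rintro _ ⟨G, rfl⟩
  exact h G

lemma le_maxTime {n : ℕ} (H : SimpleGraph W) (G : SimpleGraph (Fin n)) :
    runTime H G ≤ maxTime H n := by
  classical
  exact le_csSup (Set.finite_range _).bddAbove ⟨G, rfl⟩

end Basics

/-! ### Copies of the wheel -/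

section Copies

variable {V : Type} {G : SimpleGraph V}

lemma w6_spoke (j : Fin 6) : W6.Adj none (some j) := by
  simp [W6]

lemma w6_rim (j : Fin 6) : W6.Adj (some j) (some (j + 1)) := by
  have : j ≠ j + 1 := by revert j; decide
  simp [W6, this]

lemma w6_adj {a b : Option (Fin 6)} (h : W6.Adj a b) :
    (∃ j, (a = none ∧ b = some j) ∨ (a = some j ∧ b = none)) ∨
    ∃ j, (a = some j ∧ b = some (j + 1)) ∨ (a = some (j + 1) ∧ b = some j) := by
  rcases a with _ | a <;> rcases b with _ | b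
  · simp [W6] at h
  · exact Or.inl ⟨b, Or.inl ⟨rfl, rfl⟩⟩
  · exact Or.inl ⟨a, Or.inr ⟨rfl, rfl⟩⟩
  · simp only [W6, SimpleGraph.fromRel_adj] at h
    rcases h with ⟨-, h | h⟩
    · exact Or.inr ⟨a, Or.inl ⟨rfl, by rw [h]⟩⟩
    · exact Or.inr ⟨b, Or.inr ⟨by rw [h], rfl⟩⟩

/-- A copy of the wheel in `G` with the edge `yz` added. -/
structure Wheel (G : SimpleGraph V) (y z g : V) (r : Fin 6 → V) : Prop where
  inj : Function.Injective r
  hub : ∀ j, r j ≠ g
  spoke : ∀ j, G.Adj g (r j) ∨ s(g, r j) = s(y, z)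
  rim : ∀ j, G.Adj (r j) (r (j + 1)) ∨ s(r j, r (j + 1)) = s(y, z)

lemma completes_w6 {y z : V} (h : Completes W6 G y z) : ∃ g r, Wheel G y z g r ∧
    ((∃ j, s(g, r j) = s(y, z)) ∨ ∃ j, s(r j, r (j + 1)) = s(y, z)) := by
  obtain ⟨φ, hφ, h1, a, b, hab, he⟩ := h
  refine ⟨φ none, fun j => φ (some j), ⟨?_, ?_, ?_, ?_⟩, ?_⟩
  · intro i j hij
    exact Option.some_injective _ (hφ hij)
  · intro j hj
    exact Option.some_ne_none j (hφ hj)
  · exact fun j => h1 _ _ (w6_spoke j)
  · exact fun j => h1 _ _ (w6_rim j)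
  · rcases w6_adj hab with ⟨j, ⟨rfl, rfl⟩ | ⟨rfl, rfl⟩⟩ | ⟨j, ⟨rfl, rfl⟩ | ⟨rfl, rfl⟩⟩
    · exact Or.inl ⟨j, he⟩
    · exact Or.inl ⟨j, by rw [← he, Sym2.eq_swap]⟩
    · exact Or.inr ⟨j, he⟩
    · exact Or.inr ⟨j, by rw [← he, Sym2.eq_swap]⟩

lemma w6_completes {y z g : V} {r : Fin 6 → V} (h : Wheel G y z g r)
    (he : (∃ j, s(g, r j) = s(y, z)) ∨ ∃ j, s(r j, r (j + 1)) = s(y, z)) :
    Completes W6 G y z := by
  refine ⟨fun a => a.elim g r, ?_, ?_, ?_⟩
  · rintro (_ | i) (_ | j) hij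
    · rfl
    · exact absurd hij.symm (h.hub j)
    · exact absurd hij (h.hub i)
    · exact congrArg some (h.inj hij)
  · intro a b hab
    rcases w6_adj hab with ⟨j, ⟨rfl, rfl⟩ | ⟨rfl, rfl⟩⟩ | ⟨j, ⟨rfl, rfl⟩ | ⟨rfl, rfl⟩⟩
    · exact h.spoke j
    · exact (h.spoke j).imp (fun x => x.symm) (fun x => by rw [← x, Sym2.eq_swap]; rfl)
    · exact h.rim j
    · exact (h.rim j).imp (fun x => x.symm) (fun x => by rw [← x, Sym2.eq_swap]; rfl)
  · rcases he with ⟨j, hj⟩ | ⟨j, hj⟩
    · exact ⟨none, some j, w6_spoke j, hj⟩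
    · exact ⟨some j, some (j + 1), w6_rim j, hj⟩

lemma pen_adj {a b : Option (Option (Fin 6))} (h : (pendant W6 none).Adj a b) :
    (∃ a' b', W6.Adj a' b' ∧ a = some a' ∧ b = some b') ∨
    (a = none ∧ b = some none) ∨ (a = some none ∧ b = none) := by
  rcases a with _ | a <;> rcases b with _ | b
  · simp [pendant] at h
  · simp only [pendant, SimpleGraph.fromRel_adj] at h
    rcases h with ⟨-, h | h⟩
    · exact Or.inr (Or.inl ⟨rfl, by rw [h]⟩)
    · exact h.elim
  · simp only [pendant, SimpleGraph.fromRel_adj] at h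
    rcases h with ⟨-, h | h⟩
    · exact h.elim
    · exact Or.inr (Or.inr ⟨by rw [h], rfl⟩)
  · simp only [pendant, SimpleGraph.fromRel_adj] at h
    rcases h with ⟨-, h | h⟩
    · exact Or.inl ⟨a, b, h, rfl, rfl⟩
    · exact Or.inl ⟨a, b, h.symm, rfl, rfl⟩

lemma pen_some {a b : Option (Fin 6)} (h : W6.Adj a b) :
    (pendant W6 none).Adj (some a) (some b) := by
  simp only [pendant, SimpleGraph.fromRel_adj]
  exact ⟨fun h' => h.ne (Option.some_injective _ h'), Or.inl h⟩

lemma pen_none : (pendant W6 none).Adj (some none) none := by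
  simp [pendant]

lemma completes_pen {y z : V} (h : Completes (pendant W6 none) G y z) : ∃ g r l, Wheel G y z g r ∧
    l ≠ g ∧ (∀ j, l ≠ r j) ∧ (G.Adj g l ∨ s(g, l) = s(y, z)) ∧
    ((∃ j, s(g, r j) = s(y, z)) ∨ (∃ j, s(r j, r (j + 1)) = s(y, z)) ∨ s(g, l) = s(y, z)) := by
  obtain ⟨φ, hφ, h1, a, b, hab, he⟩ := h
  refine ⟨φ (some none), fun j => φ (some (some j)), φ none, ⟨?_, ?_, ?_, ?_⟩, ?_, ?_, ?_, ?_⟩
  · intro i j hij
    exact Option.some_injective _ (Option.some_injective _ (hφ hij))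
  · intro j hj
    exact Option.some_ne_none j (Option.some_injective _ (hφ hj))
  · exact fun j => h1 _ _ (pen_some (w6_spoke j))
  · exact fun j => h1 _ _ (pen_some (w6_rim j))
  · exact fun h' => Option.some_ne_none _ (hφ h').symm
  · exact fun j h' => Option.some_ne_none _ (hφ h').symm
  · exact h1 _ _ pen_none
  · rcases pen_adj hab with ⟨a', b', hab', rfl, rfl⟩ | ⟨rfl, rfl⟩ | ⟨rfl, rfl⟩
    · rcases w6_adj hab' with ⟨j, ⟨rfl, rfl⟩ | ⟨rfl, rfl⟩⟩ | ⟨j, ⟨rfl, rfl⟩ | ⟨rfl, rfl⟩⟩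
      · exact Or.inl ⟨j, he⟩
      · exact Or.inl ⟨j, by rw [← he, Sym2.eq_swap]⟩
      · exact Or.inr (Or.inl ⟨j, he⟩)
      · exact Or.inr (Or.inl ⟨j, by rw [← he, Sym2.eq_swap]⟩)
    · exact Or.inr (Or.inr (by rw [← he, Sym2.eq_swap]))
    · exact Or.inr (Or.inr he)

lemma pen_completes {y z g l : V} {r : Fin 6 → V} (h : Wheel G y z g r) (hlg : l ≠ g)
    (hlr : ∀ j, l ≠ r j) (hl : G.Adj g l ∨ s(g, l) = s(y, z))
    (he : (∃ j, s(g, r j) = s(y, z)) ∨ (∃ j, s(r j, r (j + 1)) = s(y, z)) ∨ s(g, l) = s(y, z)) :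
    Completes (pendant W6 none) G y z := by
  refine ⟨fun a => a.elim l (fun b => b.elim g r), ?_, ?_, ?_⟩
  · rintro (_ | _ | i) (_ | _ | j) hij
    · rfl
    · exact absurd hij hlg
    · exact absurd hij (hlr j)
    · exact absurd hij.symm hlg
    · rfl
    · exact absurd hij.symm (h.hub j)
    · exact absurd hij.symm (hlr i)
    · exact absurd hij (h.hub i)
    · exact congrArg some (congrArg some (h.inj hij))
  · intro a b hab
    rcases pen_adj hab with ⟨a', b', hab', rfl, rfl⟩ | ⟨rfl, rfl⟩ | ⟨rfl, rfl⟩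
    · rcases w6_adj hab' with ⟨j, ⟨rfl, rfl⟩ | ⟨rfl, rfl⟩⟩ | ⟨j, ⟨rfl, rfl⟩ | ⟨rfl, rfl⟩⟩
      · exact h.spoke j
      · exact (h.spoke j).imp (fun x => x.symm) (fun x => by rw [← x, Sym2.eq_swap]; rfl)
      · exact h.rim j
      · exact (h.rim j).imp (fun x => x.symm) (fun x => by rw [← x, Sym2.eq_swap]; rfl)
    · exact hl.imp (fun x => x.symm) (fun x => by rw [← x, Sym2.eq_swap]; rfl)
    · exact hl
  · rcases he with ⟨j, hj⟩ | ⟨j, hj⟩ | hj
    · exact ⟨_, _, pen_some (w6_spoke j), hj⟩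
    · exact ⟨_, _, pen_some (w6_rim j), hj⟩
    · exact ⟨_, _, pen_none, hj⟩

lemma w6_connected : W6.Connected := by
  have h : ∀ a, W6.Reachable none a := by
    rintro (_ | j)
    · exact SimpleGraph.Reachable.refl _
    · exact (w6_spoke j).reachable
  exact ⟨fun a b => (h a).symm.trans (h b)⟩

end Copies

end Pool.Agent.X212.Boot
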