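import Pool.Agent.X212.BootSix
set_option autoImplicit false
set_option linter.unusedVariables false
namespace Pool.Agent.X212.Boot

variable {V : Type}

/-- A complete bipartite graph with parts of size three. -/
structure Core (G : SimpleGraph V) (a b : Fin 3 → V) : Prop where
  inja : Function.Injective a
  injb : Function.Injective b
  adj : ∀ i j, G.Adj (a i) (b j)

lemma Core.swap {G : SimpleGraph V} {a b : Fin 3 → V} (h : Core G a b) : Core G b a :=
  ⟨h.injb, h.inja, fun i j => (h.adj j i).symm⟩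

lemma Core.mono {G G' : SimpleGraph V} (hG : G ≤ G') {a b : Fin 3 → V} (h : Core G a b) :
    Core G' a b := ⟨h.inja, h.injb, fun i j => hG (h.adj i j)⟩

lemma third : ∀ i j : Fin 3, ∃ k, k ≠ i ∧ k ≠ j := by decide

/-- The vertex `v` is joined to all the vertices `b k`. -/
def Tp (G : SimpleGraph V) (b : Fin 3 → V) (v : V) : Prop := ∀ k, G.Adj v (b k)

lemma Tp.mono {G G' : SimpleGraph V} (hG : G ≤ G') {b : Fin 3 → V} {v : V} (h : Tp G b v) :
    Tp G' b v := fun k => hG (h k)

lemma Tp.ne {G : SimpleGraph V} {b : Fin 3 → V} {v : V} (h : Tp G b v) (k : Fin 3) : v ≠ b k :=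
  (h k).ne

/-- A neighbour of a core vertex `a k`. -/
lemma abs_one {G : SimpleGraph V} {a b : Fin 3 → V} (h : Core G a b) {u : V} {k : Fin 3}
    (hu : ∀ i, u ≠ b i) (hu' : ∀ i, u ≠ a i) (hk : G.Adj u (a k)) : Tp (s6 G) a u := by
  intro j
  by_cases hj : j = k
  · subst hj
    exact Or.inl hk
  · obtain ⟨l, hl1, hl2⟩ := third j k
    have hab : ∀ i j, a i ≠ b j := fun i j => (h.adj i j).ne
    refine Or.inr ⟨a k, b 0, a l, b 1, hk, h.adj _ _, (h.adj _ _).symm, h.adj _ _,
      (h.adj _ _).symm, hu 0, hu' l, hu 1, hu' j, fun e => hl2 (h.inja e).symm, hab _ _,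
      fun e => hj (h.inja e).symm, fun e => by simpa using h.injb e, fun e => hab _ _ e.symm,
      fun e => hl1 (h.inja e)⟩

/-- A neighbour of a vertex outside the core which is joined to all `b k`. -/
lemma abs_two {G : SimpleGraph V} {a b : Fin 3 → V} (h : Core G a b) {u v : V}
    (hu : ∀ i, u ≠ b i) (hu' : ∀ i, u ≠ a i) (hv : ∀ i, v ≠ a i) (hT : Tp G b v)
    (huv : G.Adj u v) : Tp (s6 G) a u := by
  intro j
  obtain ⟨l, hl1, -⟩ := third j j
  have hab : ∀ i j, a i ≠ b j := fun i j => (h.adj i j).ne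
  exact Or.inr ⟨v, b 0, a l, b 1, huv, hT 0, (h.adj _ _).symm, h.adj _ _, (h.adj _ _).symm,
    hu 0, hu' l, hu 1, hu' j, hv l, hT.ne 1, hv j, fun e => by simpa using h.injb e,
    fun e => hab _ _ e.symm, fun e => hl1 (h.inja e)⟩

lemma abs_half {G : SimpleGraph V} {a b : Fin 3 → V} (h : Core G a b) {u v : V}
    (huv : G.Adj u v) (hu : ∀ i, u ≠ b i) (hu' : ∀ i, u ≠ a i) (hT : Tp G b v) :
    Tp (s6 G) a u := by
  by_cases hv : ∃ i, v = a i
  · obtain ⟨i, rfl⟩ := hv
    exact abs_one h hu hu' huv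
  · push Not at hv
    exact abs_two h hu hu' hv hT huv

lemma abs_step {G : SimpleGraph V} {a b : Fin 3 → V} (h : Core G a b) {u v : V}
    (huv : G.Adj u v) (hT : Tp G b v ∨ Tp G a v) : Tp (s6 G) b u ∨ Tp (s6 G) a u := by
  by_cases hu : ∃ i, u = b i
  · obtain ⟨i, rfl⟩ := hu
    exact Or.inr fun k => Or.inl (h.adj k i).symm
  by_cases hu' : ∃ i, u = a i
  · obtain ⟨i, rfl⟩ := hu'
    exact Or.inl fun k => Or.inl (h.adj i k)
  push Not at hu hu'
  rcases hT with hT | hT
  · exact Or.inr (abs_half h huv hu hu' hT)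
  · exact Or.inl (abs_half h.swap huv hu' hu hT)

lemma typed {G : SimpleGraph V} {a b : Fin 3 → V} (h : Core G a b) (j : ℕ) :
    ∀ u, Near G j u (a 0) → Tp (s6^[j] G) b u ∨ Tp (s6^[j] G) a u := by
  induction j with
  | zero =>
    rintro u ⟨p, hp⟩
    cases p with
    | nil => exact Or.inl fun k => h.adj _ _
    | cons _ _ => simp at hp
  | succ j ih =>
    rintro u ⟨p, hp⟩
    have hle : G ≤ s6^[j] G := it_mono G (Nat.zero_le j)
    cases p with
    | nil => exact Or.inl fun k => it_mono G (Nat.zero_le (j + 1)) (h.adj _ _)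
    | cons ha q =>
      rw [it_succ]
      refine abs_step (h.mono hle) (hle ha) (ih _ ⟨q, ?_⟩)
      simpa using hp

/-- Vertices of the two types are joined one round later. -/
lemma cross {G : SimpleGraph V} {a b : Fin 3 → V} (h : Core G a b) {u v : V}
    (hu : Tp G b u) (hv : Tp G a v) (huv : u ≠ v) : (s6 G).Adj u v := by
  by_cases h1 : ∃ i, u = a i
  · obtain ⟨i, rfl⟩ := h1
    exact Or.inl (hv i).symm
  by_cases h2 : ∃ i, v = b i
  · obtain ⟨i, rfl⟩ := h2
    exact Or.inl (hu i)
  push Not at h1 h2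
  have hab : ∀ i j, a i ≠ b j := fun i j => (h.adj i j).ne
  exact Or.inr ⟨b 0, a 0, b 1, a 1, hu 0, (h.adj _ _).symm, h.adj _ _, (h.adj _ _).symm,
    (hv 1).symm, h1 0, hu.ne 1, h1 1, huv, fun e => by simpa using h.injb e,
    fun e => hab _ _ e.symm, (h2 0).symm, fun e => by simpa using h.inja e, (hv.ne 0).symm,
    (h2 1).symm⟩

/-- An edge between two vertices of the same type makes everything complete. -/
lemma complete_two {G : SimpleGraph V} {X Y : V → Prop} {a b : Fin 3 → V}
    (inja : Function.Injective a) (injb : Function.Injective b)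
    (hXY : ∀ u v, X u → Y v → u ≠ v → G.Adj u v) (ha : ∀ i, X (a i)) (hb : ∀ i, Y (b i))
    (ha' : ∀ i, ¬ Y (a i)) (hb' : ∀ i, ¬ X (b i)) {y z : V} (hyz : G.Adj y z)
    (hy : X y) (hz : X z) (hy' : ¬ Y y) (hz' : ¬ Y z) {u v : V}
    (hu : X u ∨ Y u) (hv : X v ∨ Y v) (huv : u ≠ v) : (s6^[2] G).Adj u v := by
  have hne : ∀ u v, X u → ¬ X v → u ≠ v := fun u v h1 h2 e => h2 (e ▸ h1)
  have hne' : ∀ u v, Y u → ¬ Y v → u ≠ v := fun u v h1 h2 e => h2 (e ▸ h1)
  have hab : ∀ i j, a i ≠ b j := fun i j => hne _ _ (ha i) (hb' j)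
  -- two vertices of `Y`
  have hY : ∀ p q, Y p → Y q → p ≠ q → (s6 G).Adj p q := by
    intro p q hp hq hpq
    obtain ⟨i, hi1, hi2⟩ : ∃ i, b i ≠ p ∧ b i ≠ q := by
      by_contra hcon
      push Not at hcon
      have h0 := hcon 0
      have h1 := hcon 1
      have h2 := hcon 2
      have e1 : b 0 ≠ b 1 := fun e => by simpa using injb e
      have e2 : b 0 ≠ b 2 := fun e => by simpa using injb e
      have e3 : b 1 ≠ b 2 := fun e => by simpa using injb e
      by_cases k0 : b 0 = p
      · have k1 : b 1 = q := h1 (fun e => e1 (k0.trans e.symm))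
        have k2 : b 2 = q := h2 (fun e => e2 (k0.trans e.symm))
        exact e3 (k1.trans k2.symm)
      · have k0' := h0 k0
        have k1 : b 1 = p := by
          by_contra hk
          exact e1 (k0'.trans (h1 hk).symm)
        have k2 : b 2 = p := by
          by_contra hk
          exact e2 (k0'.trans (h2 hk).symm)
        exact e3 (k1.trans k2.symm)
    obtain ⟨j, hj1, hj2⟩ : ∃ j, a j ≠ y ∧ a j ≠ z := by
      by_contra hcon
      push Not at hcon
      have h0 := hcon 0
      have h1 := hcon 1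
      have h2 := hcon 2
      have e1 : a 0 ≠ a 1 := fun e => by simpa using inja e
      have e2 : a 0 ≠ a 2 := fun e => by simpa using inja e
      have e3 : a 1 ≠ a 2 := fun e => by simpa using inja e
      by_cases k0 : a 0 = y
      · have k1 : a 1 = z := h1 (fun e => e1 (k0.trans e.symm))
        have k2 : a 2 = z := h2 (fun e => e2 (k0.trans e.symm))
        exact e3 (k1.trans k2.symm)
      · have k0' := h0 k0
        have k1 : a 1 = y := by
          by_contra hk
          exact e1 (k0'.trans (h1 hk).symm)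
        have k2 : a 2 = y := by
          by_contra hk
          exact e2 (k0'.trans (h2 hk).symm)
        exact e3 (k1.trans k2.symm)
    have py := hne' _ _ hp hy'
    have pz := hne' _ _ hp hz'
    have qy := hne' _ _ hq hy'
    have qz := hne' _ _ hq hz'
    have by' := hne' _ _ (hb i) hy'
    have bz' := hne' _ _ (hb i) hz'
    have pa := hne' _ _ hp (ha' j)
    have qa := hne' _ _ hq (ha' j)
    exact Or.inr ⟨y, z, b i, a j, (hXY _ _ hy hp py.symm).symm, hyz, hXY _ _ hz (hb i) bz'.symm,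
      (hXY _ _ (ha j) (hb i) (hab j i)).symm, hXY _ _ (ha j) hq qa.symm,
      pz, hi1.symm, pa, hpq, by'.symm, hj1.symm, qy.symm, hj2.symm, qz.symm, hi2⟩
  rw [it_succ, show s6^[1] G = s6 G from rfl]
  -- two vertices of `X`
  have hX : ∀ p q, X p → X q → p ≠ q → (s6 (s6 G)).Adj p q := by
    intro p q hp hq hpq
    obtain ⟨j, hj1, hj2⟩ : ∃ j, a j ≠ p ∧ a j ≠ q := by
      by_contra hcon
      push Not at hcon
      have h0 := hcon 0
      have h1 := hcon 1
      have h2 := hcon 2
      have e1 : a 0 ≠ a 1 := fun e => by simpa using inja e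
      have e2 : a 0 ≠ a 2 := fun e => by simpa using inja e
      have e3 : a 1 ≠ a 2 := fun e => by simpa using inja e
      by_cases k0 : a 0 = p
      · have k1 : a 1 = q := h1 (fun e => e1 (k0.trans e.symm))
        have k2 : a 2 = q := h2 (fun e => e2 (k0.trans e.symm))
        exact e3 (k1.trans k2.symm)
      · have k0' := h0 k0
        have k1 : a 1 = p := by
          by_contra hk
          exact e1 (k0'.trans (h1 hk).symm)
        have k2 : a 2 = p := by
          by_contra hk
          exact e2 (k0'.trans (h2 hk).symm)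
        exact e3 (k1.trans k2.symm)
    have hpb : ∀ i, p ≠ b i := fun i => hne _ _ hp (hb' i)
    have hqb : ∀ i, q ≠ b i := fun i => hne _ _ hq (hb' i)
    have b01 : b 0 ≠ b 1 := fun e => by simpa using injb e
    have b02 : b 0 ≠ b 2 := fun e => by simpa using injb e
    have b12 : b 1 ≠ b 2 := fun e => by simpa using injb e
    exact Or.inr ⟨b 0, b 1, a j, b 2, Or.inl (hXY _ _ hp (hb 0) (hpb 0)),
      hY _ _ (hb 0) (hb 1) b01, Or.inl (hXY _ _ (ha j) (hb 1) (hab j 1)).symm,
      Or.inl (hXY _ _ (ha j) (hb 2) (hab j 2)), Or.inl (hXY _ _ hq (hb 2) (hqb 2)).symm,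
      hpb 1, hj1.symm, hpb 2, hpq, (hab j 0).symm, b02, (hqb 0).symm, b12, (hqb 1).symm, hj2⟩
  rcases hu with hu | hu <;> rcases hv with hv | hv
  · exact hX _ _ hu hv huv
  · exact Or.inl (Or.inl (hXY _ _ hu hv huv))
  · exact Or.inl (Or.inl (hXY _ _ hv hu huv.symm).symm)
  · exact Or.inl (hY _ _ hu hv huv)

end Pool.Agent.X212.Boot
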