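import Pool.Agent.X212.BootBasic
set_option autoImplicit false
set_option linter.unusedVariables false
namespace Pool.Agent.X212.Boot


lemma q1 (k : Fin 6) : k + 1 ≠ k := by revert k; decide
lemma q2 (k : Fin 6) : k + 2 ≠ k := by revert k; decide
lemma q3 (k : Fin 6) : k + 3 ≠ k := by revert k; decide
lemma q4 (k : Fin 6) : k + 4 ≠ k := by revert k; decide
lemma q5 (k : Fin 6) : k + 5 ≠ k := by revert k; decide
lemma q11 (k : Fin 6) : k + 1 + 1 ≠ k := by revert k; decide
lemma q31 (k : Fin 6) : k + 3 + 1 ≠ k := by revert k; decide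
lemma d13 (k : Fin 6) : k + 1 ≠ k + 3 := by revert k; decide
lemma d131 (k : Fin 6) : k + 1 ≠ k + 3 + 1 := by revert k; decide
lemma d113 (k : Fin 6) : k + 1 + 1 ≠ k + 3 := by revert k; decide
lemma d1131 (k : Fin 6) : k + 1 + 1 ≠ k + 3 + 1 := by revert k; decide
lemma s1 (k : Fin 6) : k + 1 + 1 = k + 2 := by revert k; decide
lemma s2 (k : Fin 6) : k + 2 + 1 = k + 3 := by revert k; decide
lemma s3 (k : Fin 6) : k + 3 + 1 = k + 4 := by revert k; decide
lemma s4 (k : Fin 6) : k + 4 + 1 = k + 5 := by revert k; decide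
lemma s5 (k : Fin 6) : k + 5 + 1 = k := by revert k; decide
lemma val_succ (a : Fin 6) (ha : a ≠ 5) : ((a + 1 : Fin 6) : ℕ) = a + 1 := by
  revert a; decide

/-! ### Leaves and paths of length five -/

lemma exists_leaf {n : ℕ} (hn : 8 ≤ n) (g : Fin n) (r : Fin 6 → Fin n) :
    ∃ l, l ≠ g ∧ ∀ j, l ≠ r j := by
  classical
  by_contra hcon
  push Not at hcon
  have h : (Finset.univ : Finset (Fin n)) ⊆ insert g (Finset.univ.image r) := by
    intro l _
    by_cases h : l = g
    · simp [h]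
    · obtain ⟨j, hj⟩ := hcon l h
      simp [hj]
  have h1 := Finset.card_le_card h
  have h2 := Finset.card_insert_le g (Finset.univ.image r)
  have h3 : (Finset.univ.image r).card ≤ 6 := by
    have := Finset.card_image_le (s := (Finset.univ : Finset (Fin 6))) (f := r)
    simpa using this
  rw [Finset.card_univ, Fintype.card_fin] at h1
  omega

lemma fin6_cases (j : Fin 6) : j = 5 ∨ j ≠ 5 := em _

/-- A path of length five which avoids the universal vertex `x`: its ends are joined. -/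
lemma five {n : ℕ} (hn : 8 ≤ n) {G : SimpleGraph (Fin n)} {x : Fin n}
    (hx : ∀ z, z ≠ x → G.Adj x z) (p : Fin 6 → Fin n) (hp : Function.Injective p)
    (hpx : ∀ j, p j ≠ x) (h : ∀ j, j ≠ 5 → G.Adj (p j) (p (j + 1))) :
    (step (pendant W6 none) G).Adj (p 0) (p 5) := by
  refine Or.inr ⟨fun h' => by simpa using hp h', ?_⟩
  obtain ⟨l, hl, hlp⟩ := exists_leaf hn x p
  refine pen_completes (g := x) (l := l) (r := p) ⟨hp, hpx, fun j => Or.inl (hx _ (hpx j)), ?_⟩
    hl hlp (Or.inl (hx _ hl)) (Or.inr (Or.inl ⟨5, ?_⟩))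
  · intro j
    by_cases hj : j = 5
    · subst hj
      exact Or.inr (by rw [Sym2.eq_swap]; rfl)
    · exact Or.inl (h j hj)
  · rw [Sym2.eq_swap]
    rfl

lemma rim_inj {V : Type} {r : Fin 6 → V} (hr : Function.Injective r) {i j : Fin 6}
    (h : s(r i, r (i + 1)) = s(r j, r (j + 1))) : i = j := by
  rw [Sym2.eq_iff] at h
  rcases h with ⟨h1, -⟩ | ⟨h1, h2⟩
  · exact hr h1
  · have h1 := hr h1
    have h2 := hr h2
    subst h1
    exact (q11 j h2).elim

/-! ### The lower bound for the wheel with a pendant edge -/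

/-- Vertex `0` is joined to all; the rest is a bipartite graph of bounded bandwidth. -/
def host (n t : ℕ) : SimpleGraph (Fin n) where
  Adj v w := v ≠ w ∧ ((v : ℕ) = 0 ∨ (w : ℕ) = 0 ∨
    (((v : ℕ) + w) % 2 = 1 ∧ (v : ℕ) ≤ w + 5 ^ t ∧ (w : ℕ) ≤ v + 5 ^ t))
  symm := ⟨by
    rintro v w ⟨h, h1⟩
    exact ⟨h.symm, by omega⟩⟩
  loopless := ⟨fun v h => h.1 rfl⟩

lemma host_odd {n t : ℕ} {u v w : Fin n} (hu : (u : ℕ) ≠ 0) (hv : (v : ℕ) ≠ 0) (hw : (w : ℕ) ≠ 0)
    (h1 : (host n t).Adj u v) (h2 : (host n t).Adj u w) (h3 : (host n t).Adj v w) : False := by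
  have h1 := h1.2
  have h2 := h2.2
  have h3 := h3.2
  omega

lemma host_step (n t : ℕ) : step (pendant W6 none) (host n t) ≤ host n (t + 1) := by
  rintro y z (h | ⟨hne, h⟩)
  · refine ⟨h.1, ?_⟩
    have h1 := h.2
    have h2 : 5 ^ t ≤ 5 ^ (t + 1) := Nat.pow_le_pow_right (by norm_num) (Nat.le_succ t)
    omega
  refine ⟨hne, ?_⟩
  by_cases hy0 : (y : ℕ) = 0
  · exact Or.inl hy0
  by_cases hz0 : (z : ℕ) = 0
  · exact Or.inr (Or.inl hz0)
  refine Or.inr (Or.inr ?_)
  obtain ⟨g, r, l, hw, hlg, hlr, hl, he⟩ := completes_pen h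
  have hg0 : (g : ℕ) = 0 := by
    by_contra hg
    obtain ⟨k, hk⟩ : ∃ k, ∀ i, i ≠ k → (r i : ℕ) ≠ 0 := by
      by_cases h0 : ∃ k, (r k : ℕ) = 0
      · obtain ⟨k, hk⟩ := h0
        refine ⟨k, fun i hi hi0 => hi (hw.inj (Fin.ext (by rw [hi0, hk])))⟩
      · push Not at h0
        exact ⟨0, fun i _ => h0 i⟩
    have htri : ∀ j, j ≠ k → j + 1 ≠ k →
        s(g, r j) = s(y, z) ∨ s(g, r (j + 1)) = s(y, z) ∨ s(r j, r (j + 1)) = s(y, z) := by
      intro j hj1 hj2
      rcases hw.spoke j with h1 | h1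
      · rcases hw.spoke (j + 1) with h2 | h2
        · rcases hw.rim j with h3 | h3
          · exact (host_odd hg (hk j hj1) (hk (j + 1) hj2) h1 h2 h3).elim
          · exact Or.inr (Or.inr h3)
        · exact Or.inr (Or.inl h2)
      · exact Or.inl h1
    have ht1 := htri (k + 1) (q1 k) (q11 k)
    have ht2 := htri (k + 3) (q3 k) (q31 k)
    have hsp : ∀ i j, i ≠ j → s(g, r i) ≠ s(g, r j) := by
      intro i j hij h
      rw [Sym2.eq_iff] at h
      rcases h with ⟨-, h⟩ | ⟨h, -⟩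
      · exact hij (hw.inj h)
      · exact hw.hub j h.symm
    have hsr : ∀ i j, s(g, r i) ≠ s(r j, r (j + 1)) := by
      intro i j h
      rw [Sym2.eq_iff] at h
      rcases h with ⟨h, -⟩ | ⟨h, -⟩
      · exact hw.hub j h.symm
      · exact hw.hub (j + 1) h.symm
    rcases ht1 with h1 | h1 | h1 <;> rcases ht2 with h2 | h2 | h2
    · exact hsp _ _ (d13 k) (h1.trans h2.symm)
    · exact hsp _ _ (d131 k) (h1.trans h2.symm)
    · exact hsr _ _ (h1.trans h2.symm)
    · exact hsp _ _ (d113 k) (h1.trans h2.symm)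
    · exact hsp _ _ (d1131 k) (h1.trans h2.symm)
    · exact hsr _ _ (h1.trans h2.symm)
    · exact hsr _ _ (h2.trans h1.symm)
    · exact hsr _ _ (h2.trans h1.symm)
    · exact d13 k (rim_inj hw.inj (h1.trans h2.symm))
  have hnot : ∀ v : Fin n, s(g, v) ≠ s(y, z) := by
    intro v h
    rw [Sym2.eq_iff] at h
    rcases h with ⟨h, -⟩ | ⟨h, -⟩
    · exact hy0 (by rw [← h, hg0])
    · exact hz0 (by rw [← h, hg0])
  rcases he with ⟨j, hj⟩ | ⟨j, hj⟩ | hj
  · exact (hnot _ hj).elim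
  · have hr0 : ∀ i, (r i : ℕ) ≠ 0 := fun i h0 => hw.hub i (Fin.ext (by rw [h0, hg0]))
    have hrim : ∀ i, i ≠ j → (host n t).Adj (r i) (r (i + 1)) := by
      intro i hi
      rcases hw.rim i with h | h
      · exact h
      · exact (hi (rim_inj hw.inj (h.trans hj.symm))).elim
    have hb : ∀ i, i ≠ j → (((r i : ℕ) + r (i + 1)) % 2 = 1 ∧ (r i : ℕ) ≤ r (i + 1) + 5 ^ t ∧
        (r (i + 1) : ℕ) ≤ r i + 5 ^ t) := by
      intro i hi
      have h1 := (hrim i hi).2
      have h2 := hr0 i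
      have h3 := hr0 (i + 1)
      omega
    have b1 := hb (j + 1) (q1 j)
    have b2 := hb (j + 2) (q2 j)
    have b3 := hb (j + 3) (q3 j)
    have b4 := hb (j + 4) (q4 j)
    have b5 := hb (j + 5) (q5 j)
    rw [s1] at b1
    rw [s2] at b2
    rw [s3] at b3
    rw [s4] at b4
    rw [s5] at b5
    have hp : 5 ^ (t + 1) = 5 * 5 ^ t := by ring
    rw [hp]
    rw [Sym2.eq_iff] at hj
    rcases hj with ⟨rfl, rfl⟩ | ⟨rfl, rfl⟩ <;> omega
  · exact (hnot _ hj).elim

lemma host_iter (n t : ℕ) : (step (pendant W6 none))^[t] (host n 0) ≤ host n t := by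
  induction t with
  | zero => exact le_rfl
  | succ t ih =>
    rw [Function.iterate_succ_apply']
    exact (step_mono ih).trans (host_step n t)

lemma host_unstable {n t : ℕ} (hn : 5 ^ t + 8 ≤ n) :
    (step (pendant W6 none))^[t] (host n 0) ≠ (step (pendant W6 none))^[t + 1] (host n 0) := by
  intro hst
  rw [Function.iterate_succ_apply'] at hst
  set S := (step (pendant W6 none))^[t] (host n 0) with hS
  have h0 : host n 0 ≤ S := by
    have := iter_mono (H := pendant W6 none) (G := host n 0) (Nat.zero_le t)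
    exact this
  have h5t : 0 < 5 ^ t := by positivity
  have hn8 : 8 ≤ n := by omega
  have hx : ∀ z : Fin n, z ≠ ⟨0, by omega⟩ → S.Adj ⟨0, by omega⟩ z := fun z hz =>
    h0 ⟨hz.symm, Or.inl rfl⟩
  have hsucc : ∀ v (hv : v + 1 < n), 1 ≤ v → S.Adj ⟨v, by omega⟩ ⟨v + 1, hv⟩ := by
    intro v hv hv1
    refine h0 ⟨by simp, Or.inr (Or.inr ⟨?_, ?_, ?_⟩)⟩
    · show (v + (v + 1)) % 2 = 1
      omega
    · show v ≤ v + 1 + 5 ^ 0
      omega
    · show v + 1 ≤ v + 5 ^ 0
      omega
  have hadj : ∀ j (hj : 4 * j + 2 < n), S.Adj ⟨1, by omega⟩ ⟨4 * j + 2, hj⟩ := by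
    intro j
    induction j with
    | zero => intro hj; exact hsucc 1 (by omega) le_rfl
    | succ j ih =>
      intro hj
      have h1 := ih (by omega)
      rw [hst]
      have hpn : ∀ a : Fin 6, (if (a : ℕ) = 0 then 1 else 4 * j + 1 + a) < n := by
        intro a
        have := a.2
        split_ifs <;> omega
      have key := five hn8 hx (fun a => ⟨if (a : ℕ) = 0 then 1 else 4 * j + 1 + a, hpn a⟩) ?_ ?_ ?_
      · exact key
      · intro a b hab
        have := Fin.ext_iff.1 hab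
        apply Fin.ext
        dsimp only at this
        split_ifs at this <;> omega
      · intro a ha
        have := Fin.ext_iff.1 ha
        dsimp only at this
        split_ifs at this <;> omega
      · intro a ha
        have hval := val_succ a ha
        by_cases h0 : (a : ℕ) = 0
        · have e1 : (⟨if (a : ℕ) = 0 then 1 else 4 * j + 1 + a, hpn a⟩ : Fin n) =
              ⟨1, by omega⟩ := Fin.ext (by simp [h0])
          have e2 : (⟨if ((a + 1 : Fin 6) : ℕ) = 0 then 1 else 4 * j + 1 + (a + 1 : Fin 6),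
              hpn (a + 1)⟩ : Fin n) = ⟨4 * j + 2, by omega⟩ := Fin.ext (by simp [hval, h0])
          rw [e1, e2]
          exact h1
        · have ha5 := a.2
          have ha5' : (a : ℕ) ≠ 5 := fun h => ha (Fin.ext h)
          have e1 : (⟨if (a : ℕ) = 0 then 1 else 4 * j + 1 + a, hpn a⟩ : Fin n) =
              ⟨4 * j + 1 + a, by omega⟩ := Fin.ext (by simp [h0])
          have e2 : (⟨if ((a + 1 : Fin 6) : ℕ) = 0 then 1 else 4 * j + 1 + (a + 1 : Fin 6),
              hpn (a + 1)⟩ : Fin n) = ⟨4 * j + 1 + a + 1, by omega⟩ :=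
            Fin.ext (by simp [hval]; omega)
          rw [e1, e2]
          exact hsucc (4 * j + 1 + a) (by omega) (by omega)
  have h1 := hadj (5 ^ t / 4 + 1) (by omega)
  have h2 := (host_iter n t h1).2
  have h3 : ((⟨1, by omega⟩ : Fin n) : ℕ) = 1 := rfl
  have h4 : ((⟨4 * (5 ^ t / 4 + 1) + 2, by omega⟩ : Fin n) : ℕ) = 4 * (5 ^ t / 4 + 1) + 2 := rfl
  omega

/-- The lower bound for the wheel with a pendant edge at the hub. -/
lemma pen_lower {n t : ℕ} (hn : 5 ^ t + 8 ≤ n) : t + 1 ≤ maxTime (pendant W6 none) n := by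
  refine le_trans (le_runTime fun s hs => ?_) (le_maxTime _ (host n 0))
  refine host_unstable (le_trans ?_ hn)
  have : 5 ^ s ≤ 5 ^ t := Nat.pow_le_pow_right (by norm_num) (by omega)
  omega

end Pool.Agent.X212.Boot
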