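import Mathlib
set_option autoImplicit false
set_option linter.unusedVariables false
namespace Pool.Agent.X212.Boot

variable {V : Type}

/-- There is a path with five edges from `u` to `v`. -/
def P5 (G : SimpleGraph V) (u v : V) : Prop :=
  ∃ b c d e, G.Adj u b ∧ G.Adj b c ∧ G.Adj c d ∧ G.Adj d e ∧ G.Adj e v ∧
    u ≠ c ∧ u ≠ d ∧ u ≠ e ∧ u ≠ v ∧ b ≠ d ∧ b ≠ e ∧ b ≠ v ∧ c ≠ e ∧ c ≠ v ∧ d ≠ v

lemma P5.symm {G : SimpleGraph V} {u v : V} (h : P5 G u v) : P5 G v u := by
  obtain ⟨b, c, d, e, h1, h2, h3, h4, h5, n1, n2, n3, n4, n5, n6, n7, n8, n9, n10⟩ := h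
  exact ⟨e, d, c, b, h5.symm, h4.symm, h3.symm, h2.symm, h1.symm, n10.symm, n9.symm, n7.symm,
    n4.symm, n8.symm, n6.symm, n3.symm, n5.symm, n2.symm, n1.symm⟩

lemma P5.mono {G G' : SimpleGraph V} (hG : G ≤ G') {u v : V} (h : P5 G u v) : P5 G' u v := by
  obtain ⟨b, c, d, e, h1, h2, h3, h4, h5, h6⟩ := h
  exact ⟨b, c, d, e, hG h1, hG h2, hG h3, hG h4, hG h5, h6⟩

lemma P5.ne {G : SimpleGraph V} {u v : V} (h : P5 G u v) : u ≠ v := by
  obtain ⟨b, c, d, e, h1, h2, h3, h4, h5, n1, n2, n3, n4, -⟩ := h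
  exact n4

/-- One round of the process of the cycle with six vertices. -/
def s6 (G : SimpleGraph V) : SimpleGraph V where
  Adj u v := G.Adj u v ∨ P5 G u v
  symm := ⟨fun _ _ h => h.imp (fun h => h.symm) (fun h => h.symm)⟩
  loopless := ⟨by
    rintro v (h | h)
    · exact G.loopless.irrefl v h
    · exact h.ne rfl⟩

lemma le_s6 (G : SimpleGraph V) : G ≤ s6 G := fun _ _ h => Or.inl h

lemma s6_mono {G G' : SimpleGraph V} (h : G ≤ G') : s6 G ≤ s6 G' := by
  rintro u v (h1 | h1)
  · exact Or.inl (h h1)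
  · exact Or.inr (h1.mono h)

lemma it_succ (G : SimpleGraph V) (i : ℕ) : s6^[i + 1] G = s6 (s6^[i] G) :=
  Function.iterate_succ_apply' _ _ _

lemma it_le (G : SimpleGraph V) (i : ℕ) : s6^[i] G ≤ s6^[i + 1] G := by
  rw [it_succ]
  exact le_s6 _

lemma it_mono (G : SimpleGraph V) {i j : ℕ} (h : i ≤ j) : s6^[i] G ≤ s6^[j] G := by
  induction h with
  | refl => exact le_rfl
  | step _ ih => exact ih.trans (it_le _ _)

lemma reach_s6 {G : SimpleGraph V} {u v : V} (h : (s6 G).Reachable u v) : G.Reachable u v := by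
  obtain ⟨p⟩ := h
  induction p with
  | nil => exact SimpleGraph.Reachable.refl _
  | cons h _ ih =>
    refine SimpleGraph.Reachable.trans ?_ ih
    rcases h with h | ⟨b, c, d, e, h1, h2, h3, h4, h5, -⟩
    · exact h.reachable
    · exact (((h1.reachable.trans h2.reachable).trans h3.reachable).trans h4.reachable).trans
        h5.reachable

lemma reach_it {G : SimpleGraph V} {u v : V} (i : ℕ) (h : (s6^[i] G).Reachable u v) :
    G.Reachable u v := by
  induction i with
  | zero => exact h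
  | succ i ih =>
    rw [it_succ] at h
    exact ih (reach_s6 h)

/-! ### Distances -/

/-- There is a walk of length at most `d`. -/
def Near (G : SimpleGraph V) (d : ℕ) (u v : V) : Prop := ∃ p : G.Walk u v, p.length ≤ d

lemma Near.mono {G G' : SimpleGraph V} (h : G ≤ G') {d d' : ℕ} (hd : d ≤ d') {u v : V}
    (hn : Near G d u v) : Near G' d' u v := by
  obtain ⟨p, hp⟩ := hn
  exact ⟨p.mapLe h, by rw [SimpleGraph.Walk.length_mapLe]; exact hp.trans hd⟩

lemma Near.snoc {G : SimpleGraph V} {d : ℕ} {u v w : V} (h : Near G d u v) (ha : G.Adj v w) :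
    Near G (d + 1) u w := by
  obtain ⟨p, hp⟩ := h
  exact ⟨p.concat ha, by rw [SimpleGraph.Walk.length_concat]; omega⟩

lemma near_path {G : SimpleGraph V} {u v : V} (q : G.Walk u v) (hq : q.IsPath) :
    Near (s6 G) (q.length / 5 + q.length % 5) u v := by
  have hinj : ∀ i j, i ≤ q.length → j ≤ q.length → i ≠ j → q.getVert i ≠ q.getVert j := by
    intro i j hi hj hij h
    exact hij (hq.getVert_injOn hi hj h)
  have hadj : ∀ i, i < q.length → G.Adj (q.getVert i) (q.getVert (i + 1)) :=
    fun i hi => q.adj_getVert_succ hi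
  have h1 : ∀ j, 5 * j ≤ q.length → Near (s6 G) j u (q.getVert (5 * j)) := by
    intro j
    induction j with
    | zero =>
      intro _
      rw [Nat.mul_zero, SimpleGraph.Walk.getVert_zero]
      exact ⟨SimpleGraph.Walk.nil, le_rfl⟩
    | succ j ih =>
      intro hj
      refine (ih (by omega)).snoc (Or.inr ?_)
      rw [show 5 * (j + 1) = 5 * j + 1 + 1 + 1 + 1 + 1 by ring]
      refine ⟨q.getVert (5 * j + 1), q.getVert (5 * j + 1 + 1), q.getVert (5 * j + 1 + 1 + 1),
        q.getVert (5 * j + 1 + 1 + 1 + 1), hadj _ (by omega), hadj _ (by omega),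
        hadj _ (by omega), hadj _ (by omega), hadj _ (by omega), ?_, ?_, ?_, ?_, ?_, ?_, ?_, ?_,
        ?_, ?_⟩ <;> exact hinj _ _ (by omega) (by omega) (by omega)
  have h2 : ∀ r, 5 * (q.length / 5) + r ≤ q.length →
      Near (s6 G) (q.length / 5 + r) u (q.getVert (5 * (q.length / 5) + r)) := by
    intro r
    induction r with
    | zero =>
      intro h
      exact h1 _ (by omega)
    | succ r ih =>
      intro h
      exact (ih (by omega)).snoc (Or.inl (hadj _ (by omega)))
  have h3 := h2 (q.length % 5) (by omega)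
  have h4 : 5 * (q.length / 5) + q.length % 5 = q.length := by omega
  rw [h4, SimpleGraph.Walk.getVert_length] at h3
  exact h3

lemma near_step {G : SimpleGraph V} {d : ℕ} {u v : V} (h : Near G d u v) :
    Near (s6 G) (d / 5 + 4) u v ∧ (d ≤ 6 → Near (s6 G) 4 u v) := by
  classical
  obtain ⟨p, hp⟩ := h
  have h1 := near_path p.bypass p.bypass_isPath
  have h2 : p.bypass.length ≤ d := p.length_bypass_le_length.trans hp
  refine ⟨h1.mono le_rfl ?_, fun hd => h1.mono le_rfl ?_⟩
  · have : p.bypass.length / 5 ≤ d / 5 := Nat.div_le_div_right h2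
    omega
  · omega

lemma near_phase [Fintype V] (G : SimpleGraph V) (i : ℕ) {u v : V} (h : G.Reachable u v) :
    Near (s6^[i] G) (Fintype.card V / 5 ^ i + 5) u v := by
  classical
  induction i with
  | zero =>
    obtain ⟨p⟩ := h
    show Near G _ u v
    refine ⟨p.bypass, ?_⟩
    have := p.bypass_isPath.length_lt
    rw [pow_zero, Nat.div_one]
    omega
  | succ i ih =>
    rw [it_succ]
    refine (near_step ih).1.mono le_rfl ?_
    rw [pow_succ, ← Nat.div_div_eq_div_mul]
    omega

lemma near_four [Fintype V] (G : SimpleGraph V) {u v : V} (h : G.Reachable u v) :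
    Near (s6^[Nat.clog 5 (Fintype.card V) + 1] G) 4 u v := by
  rw [it_succ]
  have h1 := near_phase G (Nat.clog 5 (Fintype.card V)) h
  refine (near_step (h1.mono le_rfl (d' := 6) ?_)).2 le_rfl
  have h2 : Fintype.card V ≤ 5 ^ Nat.clog 5 (Fintype.card V) :=
    Nat.le_pow_clog (by norm_num) _
  have h3 : Fintype.card V / 5 ^ Nat.clog 5 (Fintype.card V) ≤ 1 := by
    rw [Nat.div_le_iff_le_mul_add_pred (by positivity)]
    omega
  omega

end Pool.Agent.X212.Boot
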