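import Pool.Agent.X212.BootCore
set_option autoImplicit false
set_option linter.unusedVariables false
namespace Pool.Agent.X212.Boot

variable {V : Type}

/-- Something happens in the component of `y` at time `i`. -/
def Act (A : SimpleGraph V) (y : V) (i : ℕ) : Prop :=
  ∃ u v, A.Reachable y u ∧ (s6^[i + 1] A).Adj u v ∧ ¬ (s6^[i] A).Adj u v

lemma reach_adj {A : SimpleGraph V} {y p q : V} {i : ℕ} (hp : A.Reachable y p)
    (h : (s6^[i] A).Adj p q) : A.Reachable y q := hp.trans (reach_it i h.reachable)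

lemma act_pred {A : SimpleGraph V} {y : V} {i : ℕ} (h : Act A y (i + 1)) : Act A y i := by
  obtain ⟨u, v, hu, h1, h2⟩ := h
  by_contra hcon
  have hst : ∀ p q, A.Reachable y p → (s6^[i + 1] A).Adj p q → (s6^[i] A).Adj p q := by
    intro p q hp h
    by_contra h'
    exact hcon ⟨p, q, hp, h, h'⟩
  rw [it_succ A (i + 1)] at h1
  rcases h1 with h1 | ⟨b, c, d, e, k1, k2, k3, k4, k5, n⟩
  · exact h2 h1
  · have hb := reach_adj hu k1
    have hc := reach_adj hb k2
    have hd := reach_adj hc k3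
    have he := reach_adj hd k4
    apply h2
    rw [it_succ]
    exact Or.inr ⟨b, c, d, e, hst _ _ hu k1, hst _ _ hb k2, hst _ _ hc k3, hst _ _ hd k4,
      hst _ _ he k5, n⟩

lemma act_le {A : SimpleGraph V} {y : V} {i j : ℕ} (hij : i ≤ j) (h : Act A y j) :
    Act A y i := by
  induction hij with
  | refl => exact h
  | step _ ih => exact ih (act_pred h)

/-- A cycle with six vertices. -/
structure Cyc (G : SimpleGraph V) (c : Fin 6 → V) : Prop where
  inj : Function.Injective c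
  adj : ∀ j, G.Adj (c j) (c (j + 1))

lemma Cyc.ne {G : SimpleGraph V} {c : Fin 6 → V} (h : Cyc G c) {i j : Fin 6} (hij : i ≠ j) :
    c i ≠ c j := fun e => hij (h.inj e)

lemma rot6 : ∀ i j : Fin 6, i + j + 1 = i + 1 + j := by decide

lemma Cyc.rotate {G : SimpleGraph V} {c : Fin 6 → V} (h : Cyc G c) (j : Fin 6) :
    Cyc G (fun i => c (i + j)) := by
  refine ⟨fun a b hab => ?_, fun i => ?_⟩
  · exact add_right_cancel (h.inj hab)
  · have := h.adj (i + j)
    rwa [rot6 i j] at this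

lemma cyc_of_P5 {G : SimpleGraph V} {u v : V} (h : P5 G u v) :
    ∃ c : Fin 6 → V, Cyc (s6 G) c ∧ c 0 = u := by
  have h0 := h
  obtain ⟨b, c, d, e, h1, h2, h3, h4, h5, n1, n2, n3, n4, n5, n6, n7, n8, n9, n10⟩ := h
  refine ⟨![u, b, c, d, e, v], ⟨?_, ?_⟩, rfl⟩
  · rw [← List.nodup_ofFn]
    have m1 := h1.ne
    have m2 := h2.ne
    have m3 := h3.ne
    have m4 := h4.ne
    have m5 := h5.ne
    simp only [List.ofFn_succ, List.ofFn_zero, Matrix.cons_val_zero, Matrix.cons_val_succ,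
      List.nodup_cons, List.mem_cons, List.not_mem_nil, or_false, not_or, not_false_eq_true,
      List.nodup_nil, and_true]
    exact ⟨⟨m1, n1, n2, n3, n4⟩, ⟨m2, n5, n6, n7⟩, ⟨m3, n8, n9⟩, ⟨m4, n10⟩, m5⟩
  · intro j
    match j with
    | 0 => exact Or.inl h1
    | 1 => exact Or.inl h2
    | 2 => exact Or.inl h3
    | 3 => exact Or.inl h4
    | 4 => exact Or.inl h5
    | 5 => exact Or.inr h0.symm

/-- A six-cycle with a pendant edge becomes a complete bipartite graph. -/
lemma ear {G : SimpleGraph V} {c : Fin 6 → V} (h : Cyc G c) {w : V} (hw : ∀ i, w ≠ c i)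
    (hw0 : G.Adj w (c 0)) : Core (s6^[2] G) ![c 0, c 2, c 4] ![c 1, c 3, c 5] := by
  have a01 : G.Adj (c 0) (c 1) := h.adj 0
  have a12 : G.Adj (c 1) (c 2) := h.adj 1
  have a23 : G.Adj (c 2) (c 3) := h.adj 2
  have a34 : G.Adj (c 3) (c 4) := h.adj 3
  have a45 : G.Adj (c 4) (c 5) := h.adj 4
  have a50 : G.Adj (c 5) (c 0) := h.adj 5
  have n : ∀ i j, i ≠ j → c i ≠ c j := fun i j => h.ne
  have w4 : (s6 G).Adj w (c 4) := Or.inr ⟨c 0, c 1, c 2, c 3, hw0, a01, a12, a23, a34,
    hw _, hw _, hw _, hw _, n _ _ (by decide), n _ _ (by decide), n _ _ (by decide),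
    n _ _ (by decide), n _ _ (by decide), n _ _ (by decide)⟩
  have w2 : (s6 G).Adj w (c 2) := Or.inr ⟨c 0, c 5, c 4, c 3, hw0, a50.symm, a45.symm, a34.symm,
    a23.symm, hw _, hw _, hw _, hw _, n _ _ (by decide), n _ _ (by decide), n _ _ (by decide),
    n _ _ (by decide), n _ _ (by decide), n _ _ (by decide)⟩
  have w0 : (s6 G).Adj w (c 0) := Or.inl hw0
  have k03 : (s6 (s6 G)).Adj (c 0) (c 3) := Or.inr ⟨c 5, c 4, w, c 2, Or.inl a50.symm,
    Or.inl a45.symm, w4.symm, w2, Or.inl a23, n _ _ (by decide), (hw _).symm,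
    n _ _ (by decide), n _ _ (by decide), (hw _).symm, n _ _ (by decide), n _ _ (by decide),
    n _ _ (by decide), n _ _ (by decide), hw _⟩
  have k25 : (s6 (s6 G)).Adj (c 2) (c 5) := Or.inr ⟨c 1, c 0, w, c 4, Or.inl a12.symm,
    Or.inl a01.symm, w0.symm, w4, Or.inl a45, n _ _ (by decide), (hw _).symm,
    n _ _ (by decide), n _ _ (by decide), (hw _).symm, n _ _ (by decide), n _ _ (by decide),
    n _ _ (by decide), n _ _ (by decide), hw _⟩
  have k41 : (s6 (s6 G)).Adj (c 4) (c 1) := Or.inr ⟨c 3, c 2, w, c 0, Or.inl a34.symm,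
    Or.inl a23.symm, w2.symm, w0, Or.inl a01, n _ _ (by decide), (hw _).symm,
    n _ _ (by decide), n _ _ (by decide), (hw _).symm, n _ _ (by decide), n _ _ (by decide),
    n _ _ (by decide), n _ _ (by decide), hw _⟩
  refine ⟨?_, ?_, ?_⟩
  · rw [← List.nodup_ofFn]
    simp only [List.ofFn_succ, List.ofFn_zero, Matrix.cons_val_zero, Matrix.cons_val_succ,
      List.nodup_cons, List.mem_cons, List.not_mem_nil, or_false, not_or, not_false_eq_true,
      List.nodup_nil, and_true]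
    exact ⟨⟨n _ _ (by decide), n _ _ (by decide)⟩, n _ _ (by decide)⟩
  · rw [← List.nodup_ofFn]
    simp only [List.ofFn_succ, List.ofFn_zero, Matrix.cons_val_zero, Matrix.cons_val_succ,
      List.nodup_cons, List.mem_cons, List.not_mem_nil, or_false, not_or, not_false_eq_true,
      List.nodup_nil, and_true]
    exact ⟨⟨n _ _ (by decide), n _ _ (by decide)⟩, n _ _ (by decide)⟩
  · intro i j
    rw [it_succ, show s6^[1] G = s6 G from rfl]
    match i, j with
    | 0, 0 => exact Or.inl (Or.inl a01)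
    | 0, 1 => exact k03
    | 0, 2 => exact Or.inl (Or.inl a50.symm)
    | 1, 0 => exact Or.inl (Or.inl a12.symm)
    | 1, 1 => exact Or.inl (Or.inl a23)
    | 1, 2 => exact k25
    | 2, 0 => exact k41
    | 2, 1 => exact Or.inl (Or.inl a34.symm)
    | 2, 2 => exact Or.inl (Or.inl a45)

/-- If the component is just the cycle, then the process stops soon. -/
lemma few {A : SimpleGraph V} {y : V} {c : Fin 6 → V}
    (hc : ∀ w, A.Reachable y w → ∃ i, w = c i) : ¬ Act A y 36 := by
  intro h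
  have h1 : ∀ i : Fin 37, ∃ p : Fin 6 × Fin 6, (s6^[(i : ℕ) + 1] A).Adj (c p.1) (c p.2) ∧
      ¬ (s6^[(i : ℕ)] A).Adj (c p.1) (c p.2) := by
    intro i
    obtain ⟨u, v, hu, ha, hb⟩ := act_le (by omega : (i : ℕ) ≤ 36) h
    obtain ⟨p, rfl⟩ := hc u hu
    obtain ⟨q, rfl⟩ := hc v (reach_adj hu ha)
    exact ⟨(p, q), ha, hb⟩
  choose f hf1 hf2 using h1
  obtain ⟨i, j, hij, hfe⟩ := Fintype.exists_ne_map_eq_of_card_lt f (by simp)
  rcases lt_or_gt_of_ne (fun e => hij (Fin.ext e) : (i : ℕ) ≠ j) with hlt | hlt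
  · have h3 := it_mono A (show (i : ℕ) + 1 ≤ j by omega) (hf1 i)
    rw [hfe] at h3
    exact hf2 j h3
  · have h3 := it_mono A (show (j : ℕ) + 1 ≤ i by omega) (hf1 j)
    rw [← hfe] at h3
    exact hf2 i h3

lemma no_act {A : SimpleGraph V} (hN : ∀ u v, A.Reachable u v → Near A 4 u v) (y : V) :
    ¬ Act A y 36 := by
  intro h36
  obtain ⟨u, v, hu, h1, h2⟩ := act_le (Nat.zero_le 36) h36
  have hP : P5 A u v := by
    rcases h1 with h1 | h1
    · exact (h2 h1).elim
    · exact h1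
  obtain ⟨c, hcyc, rfl⟩ := cyc_of_P5 hP
  by_cases hall : ∀ w, A.Reachable y w → ∃ i, w = c i
  · exact few hall h36
  push Not at hall
  obtain ⟨w0, hw0, hw0'⟩ := hall
  -- a pendant edge at the cycle
  obtain ⟨w, j, hw, hj⟩ : ∃ w j, (∀ i, w ≠ c i) ∧ (s6 A).Adj w (c j) := by
    obtain ⟨p⟩ := hu.symm.trans hw0
    obtain ⟨d, -, hd1, hd2⟩ := p.exists_boundary_dart {x | ∃ i, x = c i} ⟨0, rfl⟩
      (by rintro ⟨i, hi⟩; exact hw0' i hi)
    obtain ⟨j, hj⟩ := hd1
    refine ⟨d.snd, j, fun i hi => hd2 ⟨i, hi⟩, ?_⟩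
    rw [← hj]
    exact Or.inl d.adj.symm
  have hC := ear (hcyc.rotate j) (fun i => hw (i + j)) (w := w) (by simpa using hj)
  set a : Fin 3 → V := ![c (0 + j), c (2 + j), c (4 + j)] with ha
  set b : Fin 3 → V := ![c (1 + j), c (3 + j), c (5 + j)] with hb
  have e3 : s6^[2] (s6 A) = s6^[3] A := rfl
  rw [e3] at hC
  have hcr : ∀ i, A.Reachable y (c i) := by
    intro i
    refine hu.trans ?_
    have hs : ∀ i, (s6 A).Reachable (c 0) (c i) := by
      have s01 := (hcyc.adj 0).reachable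
      have s12 := (hcyc.adj 1).reachable
      have s23 := (hcyc.adj 2).reachable
      have s34 := (hcyc.adj 3).reachable
      have s45 := (hcyc.adj 4).reachable
      intro i
      match i with
      | 0 => exact SimpleGraph.Reachable.refl _
      | 1 => exact s01
      | 2 => exact s01.trans s12
      | 3 => exact (s01.trans s12).trans s23
      | 4 => exact ((s01.trans s12).trans s23).trans s34
      | 5 => exact (((s01.trans s12).trans s23).trans s34).trans s45
    exact reach_s6 (hs i)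
  have hty : ∀ w, A.Reachable y w → Tp (s6^[7] A) b w ∨ Tp (s6^[7] A) a w := by
    intro w hwr
    have h3 : Near (s6^[3] A) 4 w (a 0) :=
      (hN w (a 0) (hwr.symm.trans (hcr (0 + j)))).mono (it_mono A (Nat.zero_le 3)) le_rfl
    exact typed hC 4 w h3
  have hC7 : Core (s6^[7] A) a b := hC.mono (it_mono A (by norm_num))
  have hXY : ∀ u v, Tp (s6^[7] A) b u → Tp (s6^[7] A) a v → u ≠ v → (s6^[9] A).Adj u v :=
    fun u v hu hv huv => it_le A 8 (cross hC7 hu hv huv)
  obtain ⟨p, q, hp, hpq, hpq'⟩ := act_le (show 8 ≤ 36 by norm_num) h36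
  have hq : A.Reachable y q := reach_adj hp hpq
  obtain ⟨p', q', hp', hpq1, hpq2⟩ := act_le (show 11 ≤ 36 by norm_num) h36
  have hq' : A.Reachable y q' := reach_adj hp' hpq1
  apply hpq2
  have e11 : s6^[2] (s6^[9] A) = s6^[11] A := rfl
  rw [← e11]
  have hX8 : ∀ u v, Tp (s6^[7] A) b u → Tp (s6^[7] A) a v → u ≠ v → (s6^[8] A).Adj u v :=
    fun u v hu hv huv => cross hC7 hu hv huv
  have haX : ∀ i, Tp (s6^[7] A) b (a i) := fun i k => hC7.adj i k
  have hbY : ∀ i, Tp (s6^[7] A) a (b i) := fun i k => (hC7.adj k i).symm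
  have haY : ∀ i, ¬ Tp (s6^[7] A) a (a i) := fun i h => (h i).ne rfl
  have hbX : ∀ i, ¬ Tp (s6^[7] A) b (b i) := fun i h => (h i).ne rfl
  have hne : p ≠ q := hpq.ne
  rcases hty p hp with hpt | hpt
  · have hqY : ¬ Tp (s6^[7] A) a q := fun h => hpq' (hX8 _ _ hpt h hne)
    have hqt : Tp (s6^[7] A) b q := (hty q hq).resolve_right hqY
    have hpY : ¬ Tp (s6^[7] A) a p := fun h => hpq' (hX8 _ _ hqt h hne.symm).symm
    exact complete_two hC.inja hC.injb hXY haX hbY haY hbX hpq hpt hqt hpY hqY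
      (hty p' hp') (hty q' hq') hpq1.ne
  · have hqX : ¬ Tp (s6^[7] A) b q := fun h => hpq' (hX8 _ _ h hpt hne.symm).symm
    have hqt : Tp (s6^[7] A) a q := (hty q hq).resolve_left hqX
    have hpX : ¬ Tp (s6^[7] A) b p := fun h => hpq' (hX8 _ _ h hqt hne)
    exact complete_two hC.injb hC.inja (fun u v hu hv huv => (hXY v u hv hu huv.symm).symm)
      hbY haX hbX haY hpq hpt hqt hpX hqX (hty p' hp').symm (hty q' hq').symm hpq1.ne

/-- The process of the six-cycle stops after logarithmically many rounds. -/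
lemma s6_stable [Fintype V] (G : SimpleGraph V) :
    s6^[Nat.clog 5 (Fintype.card V) + 37] G = s6^[Nat.clog 5 (Fintype.card V) + 38] G := by
  set A := s6^[Nat.clog 5 (Fintype.card V) + 1] G with hA
  have hN : ∀ u v, A.Reachable u v → Near A 4 u v := fun u v h => near_four G (reach_it _ h)
  have e1 : s6^[Nat.clog 5 (Fintype.card V) + 37] G = s6^[36] A := by
    rw [hA, ← Function.iterate_add_apply]
    congr 1
    omega
  have e2 : s6^[Nat.clog 5 (Fintype.card V) + 38] G = s6^[37] A := by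
    rw [hA, ← Function.iterate_add_apply]
    congr 1
    omega
  rw [e1, e2]
  refine le_antisymm (it_le A 36) ?_
  intro u v huv
  by_contra hcon
  exact no_act hN u ⟨u, v, SimpleGraph.Reachable.refl _, huv, hcon⟩

end Pool.Agent.X212.Boot
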