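import Pool.Agent.X212.BootLower
import Pool.Agent.X212.BootTime
set_option autoImplicit false
set_option linter.unusedVariables false
namespace Pool.Agent.X212.Boot

/-- The edges of `G` which avoid `x`. -/
def off {V : Type} (x : V) (G : SimpleGraph V) : SimpleGraph V where
  Adj u v := G.Adj u v ∧ u ≠ x ∧ v ≠ x
  symm := ⟨fun _ _ h => ⟨h.1.symm, h.2.2, h.2.1⟩⟩
  loopless := ⟨fun v h => G.loopless.irrefl v h.1⟩

/-- A wheel contained in `G`. -/
structure Full {V : Type} (G : SimpleGraph V) (g : V) (r : Fin 6 → V) : Prop where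
  inj : Function.Injective r
  hub : ∀ j, r j ≠ g
  spoke : ∀ j, G.Adj g (r j)
  rim : ∀ j, G.Adj (r j) (r (j + 1))

lemma Full.wheel {V : Type} {G : SimpleGraph V} {g : V} {r : Fin 6 → V} (h : Full G g r)
    (y z : V) : Wheel G y z g r :=
  ⟨h.inj, h.hub, fun j => Or.inl (h.spoke j), fun j => Or.inl (h.rim j)⟩

variable {n : ℕ}

lemma full_univ {G : SimpleGraph (Fin n)} {g : Fin n} {r : Fin 6 → Fin n} (h : Full G g r)
    {z : Fin n} (hz : z ≠ g) : ((step (pendant W6 none)) G).Adj g z := by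
  by_cases hr : ∃ j, z = r j
  · obtain ⟨j, rfl⟩ := hr
    exact Or.inl (h.spoke j)
  · push Not at hr
    exact Or.inr ⟨hz.symm, pen_completes (h.wheel g z) hz hr (Or.inr rfl)
      (Or.inr (Or.inr rfl))⟩

lemma five_off (hn : 8 ≤ n) {G : SimpleGraph (Fin n)} {x : Fin n}
    (hx : ∀ z, z ≠ x → G.Adj x z) {u v : Fin n} (h : P5 (off x G) u v) : ((step (pendant W6 none)) G).Adj u v := by
  obtain ⟨b, c, d, e, h1, h2, h3, h4, h5, n1, n2, n3, n4, n5, n6, n7, n8, n9, n10⟩ := h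
  refine five hn hx ![u, b, c, d, e, v] ?_ ?_ ?_
  · rw [← List.nodup_ofFn]
    have m1 := h1.ne
    have m2 := h2.ne
    have m3 := h3.ne
    have m4 := h4.ne
    have m5 := h5.ne
    simp only [List.ofFn_succ, List.ofFn_zero, Matrix.cons_val_zero, Matrix.cons_val_succ,
      List.nodup_cons, List.mem_cons, List.not_mem_nil, or_false, not_or, not_false_eq_true,
      List.nodup_nil, and_true]
    exact ⟨⟨m1, n1, n2, n3, n4⟩, ⟨m2, n5, n6, n7⟩, ⟨m3, n8, n9⟩, ⟨m4, n10⟩, m5⟩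
  · intro j
    match j with
    | 0 => exact h1.2.1
    | 1 => exact h2.2.1
    | 2 => exact h3.2.1
    | 3 => exact h4.2.1
    | 4 => exact h5.2.1
    | 5 => exact h5.2.2
  · intro j hj
    match j with
    | 0 => exact h1.1
    | 1 => exact h2.1
    | 2 => exact h3.1
    | 3 => exact h4.1
    | 4 => exact h5.1
    | 5 => exact (hj rfl).elim

lemma d01 (k : Fin 6) : k ≠ k + 1 := by revert k; decide
lemma e12' (k : Fin 6) : k + 1 ≠ k + 2 := by revert k; decide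
lemma e13' (k : Fin 6) : k + 1 ≠ k + 3 := by revert k; decide
lemma e14' (k : Fin 6) : k + 1 ≠ k + 4 := by revert k; decide
lemma e15' (k : Fin 6) : k + 1 ≠ k + 5 := by revert k; decide
lemma e23' (k : Fin 6) : k + 2 ≠ k + 3 := by revert k; decide
lemma e24' (k : Fin 6) : k + 2 ≠ k + 4 := by revert k; decide
lemma e25' (k : Fin 6) : k + 2 ≠ k + 5 := by revert k; decide
lemma e34' (k : Fin 6) : k + 3 ≠ k + 4 := by revert k; decide
lemma e35' (k : Fin 6) : k + 3 ≠ k + 5 := by revert k; decide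
lemma e45' (k : Fin 6) : k + 4 ≠ k + 5 := by revert k; decide

/-- As long as there is no wheel with another hub, the process is the one of the six-cycle. -/
lemma off_step (hn : 8 ≤ n) {G : SimpleGraph (Fin n)} {x : Fin n}
    (hx : ∀ z, z ≠ x → G.Adj x z) (hno : ∀ y, y ≠ x → ∀ r, ¬ Full ((step (pendant W6 none)) G) y r) :
    off x ((step (pendant W6 none)) G) = s6 (off x G) := by
  apply le_antisymm
  · rintro u v ⟨h, hu, hv⟩
    rcases h with h | ⟨huv, h⟩
    · exact Or.inl ⟨h, hu, hv⟩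
    by_cases hG : G.Adj u v
    · exact Or.inl ⟨hG, hu, hv⟩
    have hS : ((step (pendant W6 none)) G).Adj u v := Or.inr ⟨huv, h⟩
    have hsub : ∀ a b, G.Adj a b ∨ s(a, b) = s(u, v) → ((step (pendant W6 none)) G).Adj a b := by
      rintro a b (h | h)
      · exact Or.inl h
      · rw [Sym2.eq_iff] at h
        rcases h with ⟨rfl, rfl⟩ | ⟨rfl, rfl⟩
        · exact hS
        · exact hS.symm
    obtain ⟨g, r, l, hw, hlg, hlr, hl, he⟩ := completes_pen h
    have hgx : g = x := by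
      by_contra hg
      exact hno g hg r ⟨hw.inj, hw.hub, fun j => hsub _ _ (hw.spoke j),
        fun j => hsub _ _ (hw.rim j)⟩
    subst hgx
    have hnot : ∀ w, s(g, w) ≠ s(u, v) := by
      intro w h
      rw [Sym2.eq_iff] at h
      rcases h with ⟨h, -⟩ | ⟨h, -⟩
      · exact hu h.symm
      · exact hv h.symm
    rcases he with ⟨j, hj⟩ | ⟨j, hj⟩ | hj
    · exact (hnot _ hj).elim
    · have hrim : ∀ i, i ≠ j → (off g G).Adj (r i) (r (i + 1)) := by
        intro i hi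
        rcases hw.rim i with h | h
        · exact ⟨h, hw.hub _, hw.hub _⟩
        · exact (hi (rim_inj hw.inj (h.trans hj.symm))).elim
      have r1 := hrim (j + 1) (q1 j)
      have r2 := hrim (j + 2) (q2 j)
      have r3 := hrim (j + 3) (q3 j)
      have r4 := hrim (j + 4) (q4 j)
      have r5 := hrim (j + 5) (q5 j)
      rw [s1] at r1
      rw [s2] at r2
      rw [s3] at r3
      rw [s4] at r4
      rw [s5] at r5
      have hne : ∀ {i k}, i ≠ k → r i ≠ r k := fun hik h => hik (hw.inj h)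
      have hP : P5 (off g G) (r (j + 1)) (r j) := ⟨r (j + 2), r (j + 3), r (j + 4), r (j + 5),
        r1, r2, r3, r4, r5, hne (e13' j), hne (e14' j), hne (e15' j), hne (q1 j), hne (e24' j),
        hne (e25' j), hne (q2 j), hne (e35' j), hne (q3 j), hne (q4 j)⟩
      rw [Sym2.eq_iff] at hj
      rcases hj with ⟨rfl, rfl⟩ | ⟨rfl, rfl⟩
      · exact Or.inr hP.symm
      · exact Or.inr hP
    · exact (hnot _ hj).elim
  · rintro u v (h | h)
    · exact ⟨Or.inl h.1, h.2⟩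
    · refine ⟨five_off hn hx h, ?_, ?_⟩
      · obtain ⟨b, c, d, e, h1, -⟩ := h
        exact h1.2.1
      · obtain ⟨b, c, d, e, -, -, -, -, h5, -⟩ := h
        exact h5.2.2

lemma inj6 {V : Type} {u b c d e v : V} (m1 : u ≠ b) (n1 : u ≠ c) (n2 : u ≠ d) (n3 : u ≠ e)
    (n4 : u ≠ v) (m2 : b ≠ c) (n5 : b ≠ d) (n6 : b ≠ e) (n7 : b ≠ v) (m3 : c ≠ d) (n8 : c ≠ e)
    (n9 : c ≠ v) (m4 : d ≠ e) (n10 : d ≠ v) (m5 : e ≠ v) :
    Function.Injective ![u, b, c, d, e, v] := by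
  rw [← List.nodup_ofFn]
  simp only [List.ofFn_succ, List.ofFn_zero, Matrix.cons_val_zero, Matrix.cons_val_succ,
    List.nodup_cons, List.mem_cons, List.not_mem_nil, or_false, not_or, not_false_eq_true,
    List.nodup_nil, and_true]
  exact ⟨⟨m1, n1, n2, n3, n4⟩, ⟨m2, n5, n6, n7⟩, ⟨m3, n8, n9⟩, ⟨m4, n10⟩, m5⟩

/-- Two universal vertices and a path with five vertices: after two more rounds the second
vertex of the path is universal. -/
lemma hub_two (hn : 8 ≤ n) {G : SimpleGraph (Fin n)} {x y p1 p2 p3 p4 p5 z : Fin n}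
    (hx : ∀ z, z ≠ x → G.Adj x z) (hy : ∀ z, z ≠ y → G.Adj y z) (xy : x ≠ y)
    (h12 : G.Adj p1 p2) (h23 : G.Adj p2 p3) (h34 : G.Adj p3 p4) (h45 : G.Adj p4 p5)
    (x1 : x ≠ p1) (x2 : x ≠ p2) (x3 : x ≠ p3) (x4 : x ≠ p4) (x5 : x ≠ p5) (xz : x ≠ z)
    (y1 : y ≠ p1) (y2 : y ≠ p2) (y3 : y ≠ p3) (y4 : y ≠ p4) (y5 : y ≠ p5) (yz : y ≠ z)
    (z1 : z ≠ p1) (z2 : z ≠ p2) (z3 : z ≠ p3) (z4 : z ≠ p4) (z5 : z ≠ p5)
    (n13 : p1 ≠ p3) (n14 : p1 ≠ p4) (n15 : p1 ≠ p5) (n24 : p2 ≠ p4) (n25 : p2 ≠ p5)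
    (n35 : p3 ≠ p5) {w : Fin n} (hw : w ≠ p2) : ((step (pendant W6 none)) ((step (pendant W6 none)) G)).Adj p2 w := by
  have k12 : (off x G).Adj p1 p2 := ⟨h12, x1.symm, x2.symm⟩
  have k23 : (off x G).Adj p2 p3 := ⟨h23, x2.symm, x3.symm⟩
  have k34 : (off x G).Adj p3 p4 := ⟨h34, x3.symm, x4.symm⟩
  have k45 : (off x G).Adj p4 p5 := ⟨h45, x4.symm, x5.symm⟩
  have ky : ∀ {q}, y ≠ q → x ≠ q → (off x G).Adj y q := fun h h' => ⟨hy _ h.symm, xy.symm, h'.symm⟩
  have az1 : ((step (pendant W6 none)) G).Adj z p1 := five_off hn hx ⟨y, p4, p3, p2, (ky yz xz).symm, ky y4 x4,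
    k34.symm, k23.symm, k12.symm, z4, z3, z2, z1, y3, y2, y1, n24.symm, n14.symm, n13.symm⟩
  have az5 : ((step (pendant W6 none)) G).Adj z p5 := five_off hn hx ⟨y, p2, p3, p4, (ky yz xz).symm, ky y2 x2,
    k23, k34, k45, z2, z3, z4, z5, y3, y4, y5, n24, n25, n35⟩
  have az2 : ((step (pendant W6 none)) G).Adj z p2 := five_off hn hx ⟨y, p5, p4, p3, (ky yz xz).symm, ky y5 x5,
    k45.symm, k34.symm, k23.symm, z5, z4, z3, z2, y4, y3, y2, n35.symm, n25.symm, n24.symm⟩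
  have a25 : ((step (pendant W6 none)) G).Adj p2 p5 := five_off hn hx ⟨p1, y, p3, p4, k12.symm, (ky y1 x1).symm,
    ky y3 x3, k34, k45, y2.symm, h23.ne, n24, n25, n13, n14, n15, y4, y5, n35⟩
  have hx' : ∀ {q}, x ≠ q → ((step (pendant W6 none)) G).Adj x q := fun h => Or.inl (hx _ h.symm)
  have hy' : ∀ {q}, y ≠ q → ((step (pendant W6 none)) G).Adj y q := fun h => Or.inl (hy _ h.symm)
  refine full_univ (r := ![x, p1, z, p5, y, p3]) ⟨?_, ?_, ?_, ?_⟩ hw
  · exact inj6 x1 xz x5 xy x3 z1.symm n15 y1.symm n13 z5 yz.symm z3 y5.symm n35.symm y3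
  · intro j
    match j with
    | 0 => exact x2
    | 1 => exact h12.ne
    | 2 => exact z2
    | 3 => exact n25.symm
    | 4 => exact y2
    | 5 => exact h23.ne.symm
  · intro j
    match j with
    | 0 => exact (hx' x2).symm
    | 1 => exact Or.inl h12.symm
    | 2 => exact az2.symm
    | 3 => exact a25
    | 4 => exact (hy' y2).symm
    | 5 => exact Or.inl h23
  · intro j
    match j with
    | 0 => exact hx' x1
    | 1 => exact az1.symm
    | 2 => exact az5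
    | 3 => exact (hy' y5).symm
    | 4 => exact hy' y3
    | 5 => exact (hx' x3).symm

/-- A wheel with another hub: after four rounds the graph is complete. -/
lemma collapse (hn : 8 ≤ n) {G : SimpleGraph (Fin n)} {x y : Fin n}
    (hx : ∀ z, z ≠ x → G.Adj x z) (hyx : y ≠ x) {r : Fin 6 → Fin n} (h : Full G y r)
    {u v : Fin n} (huv : u ≠ v) : ((step (pendant W6 none)) ((step (pendant W6 none)) ((step (pendant W6 none)) ((step (pendant W6 none)) G)))).Adj u v := by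
  obtain ⟨k, hk⟩ : ∃ k, ∀ i, i ≠ k → r i ≠ x := by
    by_cases h0 : ∃ k, r k = x
    · obtain ⟨k, hk⟩ := h0
      exact ⟨k, fun i hi hi0 => hi (h.inj (by rw [hi0, hk]))⟩
    · push Not at h0
      exact ⟨0, fun i _ => h0 i⟩
  obtain ⟨z, hzx, hz⟩ := exists_leaf hn x
    ![y, r (k + 1), r (k + 2), r (k + 3), r (k + 4), r (k + 5)]
  have hz0 : z ≠ y := hz 0
  have hz1 : z ≠ r (k + 1) := hz 1
  have hz2 : z ≠ r (k + 2) := hz 2
  have hz3 : z ≠ r (k + 3) := hz 3
  have hz4 : z ≠ r (k + 4) := hz 4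
  have hz5 : z ≠ r (k + 5) := hz 5
  have r1 := h.rim (k + 1)
  have r2 := h.rim (k + 2)
  have r3 := h.rim (k + 3)
  have r4 := h.rim (k + 4)
  rw [s1] at r1
  rw [s2] at r2
  rw [s3] at r3
  rw [s4] at r4
  have hne : ∀ {i k}, i ≠ k → r i ≠ r k := fun hik e => hik (h.inj e)
  have hy1 : ∀ z, z ≠ y → ((step (pendant W6 none)) G).Adj y z := fun z hz => full_univ h hz
  have hx1 : ∀ z, z ≠ x → ((step (pendant W6 none)) G).Adj x z := fun z hz => Or.inl (hx z hz)
  have x1 := (hk _ (q1 k)).symm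
  have x2 := (hk _ (q2 k)).symm
  have x3 := (hk _ (q3 k)).symm
  have x4 := (hk _ (q4 k)).symm
  have x5 := (hk _ (q5 k)).symm
  have y1 := (h.hub (k + 1)).symm
  have y2 := (h.hub (k + 2)).symm
  have y3 := (h.hub (k + 3)).symm
  have y4 := (h.hub (k + 4)).symm
  have y5 := (h.hub (k + 5)).symm
  have u2 : ∀ w, w ≠ r (k + 2) → ((step (pendant W6 none)) ((step (pendant W6 none)) ((step (pendant W6 none)) G))).Adj (r (k + 2)) w := fun w hw =>
    hub_two hn (p1 := r (k + 1)) (p3 := r (k + 3)) (p4 := r (k + 4)) (p5 := r (k + 5)) (z := z)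
      hx1 hy1 hyx.symm (Or.inl r1) (Or.inl r2) (Or.inl r3) (Or.inl r4) x1 x2 x3 x4 x5 hzx.symm
      y1 y2 y3 y4 y5 hz0.symm hz1 hz2 hz3 hz4 hz5 (hne (e13' k)) (hne (e14' k)) (hne (e15' k))
      (hne (e24' k)) (hne (e25' k)) (hne (e35' k)) hw
  have u4 : ∀ w, w ≠ r (k + 4) → ((step (pendant W6 none)) ((step (pendant W6 none)) ((step (pendant W6 none)) G))).Adj (r (k + 4)) w := fun w hw =>
    hub_two hn (p1 := r (k + 5)) (p3 := r (k + 3)) (p4 := r (k + 2)) (p5 := r (k + 1)) (z := z)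
      hx1 hy1 hyx.symm (Or.inl r4.symm) (Or.inl r3.symm) (Or.inl r2.symm) (Or.inl r1.symm)
      x5 x4 x3 x2 x1 hzx.symm y5 y4 y3 y2 y1 hz0.symm hz5 hz4 hz3 hz2 hz1 (hne (e35' k).symm)
      (hne (e25' k).symm) (hne (e15' k).symm) (hne (e24' k).symm) (hne (e14' k).symm)
      (hne (e13' k).symm) hw
  have hy3 : ∀ z, z ≠ y → ((step (pendant W6 none)) ((step (pendant W6 none)) ((step (pendant W6 none)) G))).Adj y z := fun z hz => Or.inl (Or.inl (hy1 z hz))
  have hx3 : ∀ z, z ≠ x → ((step (pendant W6 none)) ((step (pendant W6 none)) ((step (pendant W6 none)) G))).Adj x z := fun z hz => Or.inl (Or.inl (hx1 z hz))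
  by_cases cu : u = x
  · subst cu
    exact Or.inl (hx3 v huv.symm)
  by_cases cv : v = x
  · subst cv
    exact Or.inl (hx3 u huv).symm
  by_cases cu : u = y
  · subst cu
    exact Or.inl (hy3 v huv.symm)
  by_cases cv : v = y
  · subst cv
    exact Or.inl (hy3 u huv).symm
  by_cases cu : u = r (k + 2)
  · subst cu
    exact Or.inl (u2 v huv.symm)
  by_cases cv : v = r (k + 2)
  · subst cv
    exact Or.inl (u2 u huv).symm
  by_cases cu : u = r (k + 4)
  · subst cu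
    exact Or.inl (u4 v huv.symm)
  by_cases cv : v = r (k + 4)
  · subst cv
    exact Or.inl (u4 u huv).symm
  obtain ⟨s, hsx, hs⟩ := exists_leaf hn x ![u, v, y, r (k + 2), r (k + 4), y]
  have su : s ≠ u := hs 0
  have sv : s ≠ v := hs 1
  have sy : s ≠ y := hs 2
  have s2' : s ≠ r (k + 2) := hs 3
  have s4' : s ≠ r (k + 4) := hs 4
  rename_i cu1 cv1 cu2 cv2 cu3 cv3
  exact five_off hn hx3 ⟨r (k + 4), r (k + 2), s, y, ⟨(u4 u cu).symm, cu1, x4.symm⟩,
    ⟨u4 _ (hne (e24' k)), x4.symm, x2.symm⟩, ⟨u2 s s2', x2.symm, hsx⟩,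
    ⟨(hy3 s sy).symm, hsx, hyx⟩, ⟨hy3 v cv2, hyx, cv1⟩, cu3, su.symm, cu2, huv, s4'.symm,
    y4.symm, Ne.symm cv, y2.symm, Ne.symm cv3, sv⟩

end Pool.Agent.X212.Boot
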